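import Mathlib

/-! Three facts on fields. -/

namespace Pool.Agent.Helper82.AHS

open Cardinal

section der

open TensorProduct KaehlerDifferential

/-- An element killed by all derivations is algebraic over `ℚ`. -/
theorem alg_of_der {K : Type*} [Field K] [Algebra ℚ K] (x : K)
    (h : ∀ δ : Derivation ℚ K K, δ x = 0) : IsAlgebraic ℚ x := by
  by_contra hx
  have h1 : AlgebraicIndepOn ℚ id ({x} : Set K) := by
    have : AlgebraicIndependent ℚ (fun _ : ({x} : Set K) => x) :=
      algebraicIndependent_unique_type_iff.mpr hx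
    convert! this with i
    have := i.2
    exact this
  obtain ⟨B, hxB, hB⟩ := exists_isTranscendenceBasis_superset h1
  let A := MvPolynomial B ℚ
  let _ : Algebra A K := (MvPolynomial.aeval (R := ℚ) (fun b : B => (b : K))).toAlgebra
  have tower : IsScalarTower ℚ A K := IsScalarTower.of_algebraMap_eq fun q =>
    ((MvPolynomial.aeval (R := ℚ) (fun b : B => (b : K))).commutes q).symm
  have inj : Function.Injective (algebraMap A K) := hB.1
  have : FaithfulSMul A K := (faithfulSMul_iff_algebraMap_injective A K).mpr inj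
  let _ : Algebra (FractionRing A) K := FractionRing.liftAlgebra A K
  have : IsScalarTower A (FractionRing A) K := inferInstance
  have halg : Algebra.IsAlgebraic A K := by
    have h2 := hB.isAlgebraic
    refine Algebra.IsAlgebraic.of_ringHom_of_comp_eq (S := Algebra.adjoin ℚ
      (Set.range (Subtype.val : B → K))) (B := K) (hB.1.aevalEquiv : A →+* _) (RingHom.id K)
      hB.1.aevalEquiv.surjective Function.injective_id ?_
    ext a
    · simp
    · simp only [RingHom.comp_apply]
      change algebraMap _ K (hB.1.aevalEquiv (MvPolynomial.X a)) =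
        MvPolynomial.aeval (R := ℚ) (fun b : B => (b : K)) (MvPolynomial.X a)
      rw [hB.1.algebraMap_aevalEquiv]
  have : Algebra.IsAlgebraic (FractionRing A) K :=
    halg.extendScalars (IsFractionRing.injective A (FractionRing A))
  have : Algebra.IsSeparable (FractionRing A) K := inferInstance
  have e1 : Algebra.FormallyEtale (FractionRing A) K := .of_isSeparable _ _
  have e2 : Algebra.FormallyEtale A (FractionRing A) := .of_isLocalization (nonZeroDivisors A)
  have e3 : Algebra.FormallyEtale A K := .comp A (FractionRing A) K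
  let φ := tensorKaehlerEquivOfFormallyEtale ℚ A K
  let c : Ω[A⁄ℚ] →ₗ[A] K := (Algebra.linearMap A K) ∘ₗ
    ((mvPolynomialBasis ℚ B).coord ⟨x, hxB rfl⟩)
  let L : Ω[K⁄ℚ] →ₗ[K] K := (c.liftBaseChange K) ∘ₗ φ.symm.toLinearMap
  have h3 := h (L.compDer (D ℚ K))
  have h4 : x = algebraMap A K (MvPolynomial.X ⟨x, hxB rfl⟩) := by
    change x = MvPolynomial.aeval _ _
    rw [MvPolynomial.aeval_X]
  have h5 : L (D ℚ K x) = 1 := by
    change (c.liftBaseChange K) (φ.symm (D ℚ K x)) = 1
    rw [h4, tensorKaehlerEquivOfFormallyEtale_symm_D_algebraMap]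
    have h7 : (mvPolynomialBasis ℚ B).repr (D ℚ (MvPolynomial B ℚ)
        (MvPolynomial.X ⟨x, hxB rfl⟩)) ⟨x, hxB rfl⟩ = 1 := by
      rw [mvPolynomialBasis_repr_D_X, Finsupp.single_eq_same]
    simp only [c, LinearMap.liftBaseChange_tmul, LinearMap.coe_comp, Function.comp_apply,
      Module.Basis.coord_apply, Algebra.linearMap_apply, one_smul]
    exact (congrArg (algebraMap A K) h7).trans (map_one _)
  have h6 : L (D ℚ K x) = 0 := h3
  rw [h5] at h6
  exact one_ne_zero h6

end der

section card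

theorem mk_padic_le (p : ℕ) [Fact p.Prime] : #ℚ_[p] ≤ 𝔠 := by
  have h1 : #ℚ_[p] ≤ #(CauSeq ℚ (padicNorm p)) := Cardinal.mk_le_of_surjective
    (f := fun s => (Padic.mk s : ℚ_[p])) (fun x => Quotient.exists_rep x)
  have h2 : #(CauSeq ℚ (padicNorm p)) ≤ #(ℕ → ℚ) := Cardinal.mk_le_of_injective
    (f := fun s => (s : ℕ → ℚ)) (fun a b h => Subtype.ext h)
  refine h1.trans (h2.trans ?_)
  simp

/-- `ℚ_p` embeds into `ℂ`. -/
theorem exists_emb (p : ℕ) [Fact p.Prime] : Nonempty (ℚ_[p] →+* ℂ) := by
  let K := AlgebraicClosure ℚ_[p]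
  have h1 : #ℚ_[p] = 𝔠 :=
    le_antisymm (mk_padic_le p) (continuum_le_cardinal_of_nontriviallyNormedField ℚ_[p])
  have h2 : #K = 𝔠 := by
    refine le_antisymm ?_ ?_
    · have := Algebra.IsAlgebraic.cardinalMk_le_max ℚ_[p] K
      rw [h1] at this
      exact this.trans (max_le le_rfl aleph0_le_continuum)
    · rw [← h1]
      exact Cardinal.mk_le_of_injective (algebraMap ℚ_[p] K).injective
  have h3 : Nonempty (K ≃ ℂ) := Cardinal.eq.mp (h2.trans Cardinal.mk_complex.symm)
  have : CharZero K := charZero_of_injective_algebraMap (algebraMap ℚ_[p] K).injective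
  obtain ⟨e⟩ := IsAlgClosed.ringEquiv_of_equiv_of_charZero (K := K) (L := ℂ)
    (by rw [h2]; exact aleph0_lt_continuum) h3
  exact ⟨(e : K →+* ℂ).comp (algebraMap ℚ_[p] K)⟩

end card

section aut

theorem exists_equiv {R K L : Type} [CommRing R] [Nontrivial R] [Field K] [Field L] [Algebra R K]
    [Algebra R L] [IsAlgClosed K] [IsAlgClosed L] [FaithfulSMul R K] [FaithfulSMul R L]
    (hR : #R ≤ ℵ₀) (hK : ℵ₀ < #K) (hKL : #K = #L) :
    ∃ τ : K ≃+* L, ∀ a : R, τ (algebraMap R K a) = algebraMap R L a := by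
  obtain ⟨s, hs⟩ := exists_isTranscendenceBasis R K
  obtain ⟨t, ht⟩ := exists_isTranscendenceBasis R L
  have h1 : #K = #s := IsAlgClosed.cardinal_eq_cardinal_transcendence_basis_of_aleph0_lt' _ hs hR hK
  have h2 : #L = #t :=
    IsAlgClosed.cardinal_eq_cardinal_transcendence_basis_of_aleph0_lt' _ ht hR (hKL ▸ hK)
  obtain ⟨e⟩ := Cardinal.eq.mp (h1.symm.trans (hKL.trans h2))
  let _ := IsAlgClosed.isAlgClosure_of_transcendence_basis _ hs
  let _ := IsAlgClosed.isAlgClosure_of_transcendence_basis _ ht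
  let ψ := (hs.1.aevalEquiv.symm.trans (MvPolynomial.renameEquiv R e)).trans ht.1.aevalEquiv
  refine ⟨IsAlgClosure.equivOfEquiv K L ψ.toRingEquiv, fun a => ?_⟩
  have h3 : algebraMap R K a = algebraMap (Algebra.adjoin R (Set.range (Subtype.val : s → K))) K
      (algebraMap R _ a) := rfl
  rw [h3, IsAlgClosure.equivOfEquiv_algebraMap]
  have h4 : ψ.toRingEquiv (algebraMap R _ a) = algebraMap R _ a := ψ.commutes a
  rw [h4]
  rfl

/-- Two embeddings of a countable ring differ by an automorphism of `ℂ`. -/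
theorem exists_aut {R : Type} [CommRing R] [Nontrivial R] (hR : #R ≤ ℵ₀) (i j : R →+* ℂ)
    (hi : Function.Injective i) (hj : Function.Injective j) :
    ∃ τ : ℂ ≃+* ℂ, ∀ a, τ (i a) = j a := by
  have h1 : @FaithfulSMul R ℂ i.toAlgebra.toSMul :=
    (@faithfulSMul_iff_algebraMap_injective R ℂ _ _ i.toAlgebra).mpr hi
  have h2 : @FaithfulSMul R ℂ j.toAlgebra.toSMul :=
    (@faithfulSMul_iff_algebraMap_injective R ℂ _ _ j.toAlgebra).mpr hj
  exact @exists_equiv R ℂ ℂ _ _ _ _ i.toAlgebra j.toAlgebra _ _ h1 h2 hR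
    (by rw [mk_complex]; exact aleph0_lt_continuum) rfl

theorem mk_poly : #(Polynomial ℚ) ≤ ℵ₀ :=
  Polynomial.cardinalMk_le_max.trans (max_le (mk_le_aleph0_iff.mpr inferInstance) le_rfl)

/-- Complex numbers fixed by all automorphisms are rational. -/
theorem rat_of_fixed (x : ℂ) (h : ∀ τ : ℂ ≃+* ℂ, τ x = x) : ∃ q : ℚ, (q : ℂ) = x := by
  by_cases hx : IsAlgebraic ℚ x
  · have hint : IsIntegral ℚ x := hx.isIntegral
    obtain ⟨f, hf⟩ : ∃ f, f = minpoly ℚ x := ⟨_, rfl⟩
    have hirr : Irreducible f := hf ▸ minpoly.irreducible hint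
    have hfx : f.aeval x = 0 := hf ▸ minpoly.aeval ℚ x
    have hroot : ∀ y ∈ (f.map (algebraMap ℚ ℂ)).roots, y = x := by
      intro y hy
      have hy1 : f.aeval y = 0 := by
        rw [Polynomial.mem_roots', Polynomial.IsRoot.def, Polynomial.eval_map_algebraMap] at hy
        exact hy.2
      have : Fact (Irreducible f) := ⟨hirr⟩
      obtain ⟨τ, hτ⟩ := exists_aut (R := AdjoinRoot f)
        ((Cardinal.mk_le_of_surjective AdjoinRoot.mk_surjective).trans mk_poly)
        (AdjoinRoot.lift (algebraMap ℚ ℂ) x hfx) (AdjoinRoot.lift (algebraMap ℚ ℂ) y hy1)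
        (RingHom.injective _) (RingHom.injective _)
      have h1 := hτ (AdjoinRoot.root f)
      rw [AdjoinRoot.lift_root, AdjoinRoot.lift_root, h τ] at h1
      exact h1.symm
    have hsep : (f.map (algebraMap ℚ ℂ)).roots.Nodup :=
      Polynomial.nodup_roots (hirr.separable.map)
    have hcard : Multiset.card (f.map (algebraMap ℚ ℂ)).roots = f.natDegree := by
      rw [← Polynomial.natDegree_map (algebraMap ℚ ℂ)]
      exact IsAlgClosed.card_roots_eq_natDegree
    have h1 : Multiset.card (f.map (algebraMap ℚ ℂ)).roots ≤ 1 := by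
      have h2 : (f.map (algebraMap ℚ ℂ)).roots =
          Multiset.replicate (Multiset.card (f.map (algebraMap ℚ ℂ)).roots) x :=
        Multiset.eq_replicate_card.mpr hroot
      have h3 := Multiset.nodup_iff_count_le_one.mp hsep x
      rw [h2, Multiset.count_replicate_self] at h3
      exact h3
    have h2 : (minpoly ℚ x).natDegree = 1 := by
      rw [← hf]
      refine le_antisymm (hcard ▸ h1) ?_
      exact hirr.natDegree_pos
    obtain ⟨q, hq⟩ := minpoly.natDegree_eq_one_iff.mp h2
    exact ⟨q, by rw [← hq]; rfl⟩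
  · exfalso
    have hx1 : Transcendental ℚ (x + 1) := by
      intro h1
      apply hx
      have := h1.sub (isAlgebraic_one (R := ℚ) (A := ℂ))
      simpa using this
    obtain ⟨τ, hτ⟩ := exists_aut (R := Polynomial ℚ) mk_poly (Polynomial.aeval x).toRingHom
      (Polynomial.aeval (x + 1)).toRingHom (transcendental_iff_injective.mp hx)
      (transcendental_iff_injective.mp hx1)
    have h1 := hτ Polynomial.X
    have h2 : τ x = x + 1 := by simpa using h1
    rw [h τ] at h2
    simp at h2

end aut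

end Pool.Agent.Helper82.AHS
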