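import Pool.Agent.Helper82.AHS.AlgB
import Pool.Agent.Helper82.AHS.Fld

/-! Full absoluteness when the Hodge tensors of bounded degree cut out the Mumford-Tate group. -/

namespace Pool.Agent.Helper82.AHS

open Matrix Finset

variable {r : ℕ}

theorem act_mul {K : Type*} [Field K] {m n : ℕ} (g h : GL (Fin r) K) (t : T r m n K) :
    act (g * h) t = act g (act h t) := by
  unfold act
  rw [_root_.mul_inv_rev, Units.val_mul, Units.val_mul, pw_mul, pw_mul]
  simp only [Matrix.mul_assoc]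

theorem act_map {K L : Type*} [Field K] [Field L] (φ : K →+* L) {m n : ℕ} (g : GL (Fin r) K)
    (t : T r m n K) : (act g t).map φ = act (Matrix.GeneralLinearGroup.map φ g) (t.map φ) := by
  unfold act
  rw [Matrix.map_mul, Matrix.map_mul, pw_map, pw_map, ← map_inv]
  rfl

theorem up_map {K L : Type*} [Field K] [Field L] [Algebra ℚ K] [Algebra ℚ L] (φ : K →+* L)
    {m n : ℕ} (t : T r m n ℚ) : (up K t).map φ = up L t := by
  ext i j
  simp [up]

theorem full_of (S : System r) {σ : ℂ ≃+* ℂ} {d : ℕ} (hd : 2 ≤ d) (hcut : S.V.CutOut d)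
    (hAH : S.UpTo σ d) : ∀ m n, ∀ t : T r m n ℚ, S.V.Hodge t → S.AbsAt σ t := by
  intro m n t ht
  -- two elements which agree on low degrees agree on `t`
  have key : ∀ g h : GL (Fin r) ℂ, (∀ a b, a ≤ d → b ≤ d → ∀ s : T r a b ℚ, S.V.Hodge s →
      act g (up ℂ s) = act h (up ℂ s)) → act g (up ℂ t) = act h (up ℂ t) := by
    intro g h hgh
    have h1 := hcut (h⁻¹ * g) (fun a b ha hb s hs => by
      rw [act_mul, hgh a b ha hb s hs, act_inv']) m n t ht
    rw [act_mul] at h1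
    have h2 := congrArg (act h) h1
    rwa [act_inv] at h2
  have low : ∀ a b, a ≤ d → b ≤ d → ∀ s : T r a b ℚ, S.V.Hodge s → ∃ s' : T r a b ℚ,
      up ℂ s' = act (S.M σ) (up ℂ s) ∧ ∀ ℓ : Nat.Primes,
        up (@Padic ℓ ⟨ℓ.2⟩) s' = act (S.E σ ℓ) (up (@Padic ℓ ⟨ℓ.2⟩) s) := by
    intro a b ha hb s hs
    obtain ⟨s', _, h2, h3⟩ := hAH a b ha hb s hs
    exact ⟨s', h2, h3⟩
  -- rationality
  have hrat : ∃ t' : T r m n ℚ, up ℂ t' = act (S.M σ) (up ℂ t) := by
    have hfix : ∀ τ : ℂ ≃+* ℂ, (act (S.M σ) (up ℂ t)).map τ = act (S.M σ) (up ℂ t) := by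
      intro τ
      have h1 := act_map (τ : ℂ →+* ℂ) (S.M σ) (up ℂ t)
      rw [up_map] at h1
      change (act (S.M σ) (up ℂ t)).map (τ : ℂ →+* ℂ) = _
      rw [h1]
      refine key _ _ fun a b ha hb s hs => ?_
      obtain ⟨s', h2, _⟩ := low a b ha hb s hs
      have h3 := act_map (τ : ℂ →+* ℂ) (S.M σ) (up ℂ s)
      rw [up_map, ← h2, up_map] at h3
      rw [← h3, h2]
    have h2 : ∀ i j, ∃ q : ℚ, (q : ℂ) = act (S.M σ) (up ℂ t) i j := fun i j =>
      rat_of_fixed _ fun τ => congrFun (congrFun (hfix τ) i) j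
    choose t' ht' using h2
    exact ⟨of t', by ext i j; exact ht' i j⟩
  obtain ⟨t', ht'⟩ := hrat
  refine ⟨t', ?_, ht', fun ℓ => ?_⟩
  · -- Hodge
    obtain ⟨π, hπ⟩ := exists_mt S.pol
    have hπH : S.V.Hodge π := proj_hodge (L := S.V.HT) (fun _ _ _ h => h) hπ
    obtain ⟨π', h1, h2, h3⟩ := hAH 2 2 hd hd π hπH
    obtain ⟨h4, h5⟩ := weak_of S hπ σ h1 h2 h3
    refine h4 m n t' ?_
    have h6 : act (S.M σ) (up ℂ t) ∈ Submodule.span ℂ (up ℂ ''
        (Inv ℚ (LinearMap.range (starL π') : Set (Matrix (Fin r) (Fin r) ℚ)) m n :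
          Set (T r m n ℚ))) := by
      rw [← (h5 m n).1]
      exact Submodule.subset_span ⟨t, ht, rfl⟩
    have h7 : act (S.M σ) (up ℂ t) ∈
        Inv ℂ (LinearMap.range (starL π') : Set (Matrix (Fin r) (Fin r) ℚ)) m n := by
      refine Submodule.span_le.mpr ?_ h6
      rintro _ ⟨s, hs, rfl⟩
      exact inv_of_span ℂ _ m n hs
    rw [← ht'] at h7
    intro x hx
    rw [map_rat]
    exact kill_up.mp (h7 x hx)
  · have : Fact (ℓ : ℕ).Prime := ⟨ℓ.2⟩
    obtain ⟨ι⟩ := exists_emb ℓ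
    have h1 := act_map ι (S.E σ ℓ) (up ℚ_[ℓ] t)
    rw [up_map] at h1
    have h2 : act (Matrix.GeneralLinearGroup.map ι (S.E σ ℓ)) (up ℂ t) =
        act (S.M σ) (up ℂ t) := by
      refine key _ _ fun a b ha hb s hs => ?_
      obtain ⟨s', h2, h3⟩ := low a b ha hb s hs
      have h4 := act_map ι (S.E σ ℓ) (up ℚ_[ℓ] s)
      have h5 : up ℚ_[ℓ] s' = act (S.E σ ℓ) (up ℚ_[ℓ] s) := h3 ℓ
      rw [up_map, ← h5, up_map] at h4
      rw [← h4, h2]
    rw [h2, ← ht'] at h1
    have h3 : (up ℚ_[ℓ] t').map ι = up ℂ t' := up_map ι t'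
    change up ℚ_[ℓ] t' = act (S.E σ ℓ) (up ℚ_[ℓ] t)
    ext i j
    have h4 := congrFun (congrFun (h3.trans h1.symm) i) j
    simp only [Matrix.map_apply] at h4
    exact ι.injective h4

/-- Some degree works for every Hodge structure. -/
theorem exists_cutOut (V : HS r) : ∃ d, 2 ≤ d ∧ V.CutOut d := by
  classical
  let R := MvPolynomial (Fin r × Fin r) ℂ
  let Xm : Matrix (Fin r) (Fin r) R := of fun i j => MvPolynomial.X (i, j)
  let upR : ∀ {m n : ℕ}, T r m n ℚ → T r m n R := fun t => t.map fun q => MvPolynomial.C (q : ℂ)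
  let gens : ℕ → Set R := fun d => {f | ∃ m n, m ≤ d ∧ n ≤ d ∧ ∃ t : T r m n ℚ, V.Hodge t ∧
    ∃ i j, f = (pw m Xm * upR t - upR t * pw n Xm) i j}
  have hmono : Monotone fun d => Ideal.span (gens d) := by
    intro d e hde
    refine Ideal.span_mono ?_
    rintro f ⟨m, n, hm, hn, h⟩
    exact ⟨m, n, hm.trans hde, hn.trans hde, h⟩
  obtain ⟨d0, hd0⟩ := monotone_stabilizes_iff_noetherian.mpr
    (inferInstance : IsNoetherian R R) ⟨_, hmono⟩
  refine ⟨max 2 d0, le_max_left _ _, fun g hg m n t ht => ?_⟩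
  let ev : R →+* ℂ := MvPolynomial.eval fun p => (g : Matrix (Fin r) (Fin r) ℂ) p.1 p.2
  have hev : ∀ {a b : ℕ} (s : T r a b ℚ) (i j),
      ev ((pw a Xm * upR s - upR s * pw b Xm) i j) =
      (pw a (g : Matrix (Fin r) (Fin r) ℂ) * up ℂ s - up ℂ s *
        pw b (g : Matrix (Fin r) (Fin r) ℂ)) i j := by
    intro a b s i j
    have h1 : Xm.map ev = (g : Matrix (Fin r) (Fin r) ℂ) := by
      ext i j; exact MvPolynomial.eval_X (i, j)
    have h2 : (upR s).map ev = up ℂ s := by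
      ext i j; exact MvPolynomial.eval_C _
    have h3 : (pw a Xm * upR s - upR s * pw b Xm).map ev =
        pw a (g : Matrix (Fin r) (Fin r) ℂ) * up ℂ s - up ℂ s *
        pw b (g : Matrix (Fin r) (Fin r) ℂ) := by
      rw [Matrix.map_sub _ (fun a b => map_sub _ a b), Matrix.map_mul, Matrix.map_mul, pw_map,
        pw_map, h1, h2]
    exact congrFun (congrFun h3 i) j
  have hiff : ∀ {a b : ℕ} (s : T r a b ℚ), act g (up ℂ s) = up ℂ s ↔
      pw a (g : Matrix (Fin r) (Fin r) ℂ) * up ℂ s - up ℂ s *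
        pw b (g : Matrix (Fin r) (Fin r) ℂ) = 0 := by
    intro a b s
    have e1 := gl_mul_inv g
    have e2 := gl_inv_mul g
    unfold act
    set g' := ((g⁻¹ : GL (Fin r) ℂ) : Matrix (Fin r) (Fin r) ℂ)
    set g0 := (g : Matrix (Fin r) (Fin r) ℂ)
    have e3 : pw b g' * pw b g0 = (1 : T r b b ℂ) := by rw [← pw_mul, e2, pw_one]
    have e4 : pw b g0 * pw b g' = (1 : T r b b ℂ) := by rw [← pw_mul, e1, pw_one]
    constructor
    · intro h
      have : pw a g0 * up ℂ s = up ℂ s * pw b g0 := by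
        calc pw a g0 * up ℂ s = pw a g0 * up ℂ s * (pw b g' * pw b g0) := by
              rw [e3, Matrix.mul_one]
          _ = (pw a g0 * up ℂ s * pw b g') * pw b g0 := by simp only [Matrix.mul_assoc]
          _ = _ := by rw [h]
      rw [this, sub_self]
    · intro h
      rw [sub_eq_zero.mp h, Matrix.mul_assoc, e4, Matrix.mul_one]
  have hker : ∀ f ∈ Ideal.span (gens (max 2 d0)), ev f = 0 := by
    intro f hf
    have : Ideal.span (gens (max 2 d0)) ≤ RingHom.ker ev := by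
      rw [Ideal.span_le]
      rintro f ⟨a, b, ha, hb, s, hs, i, j, rfl⟩
      change ev _ = 0
      rw [hev, (hiff s).mp (hg a b ha hb s hs), Matrix.zero_apply]
    exact this hf
  rw [hiff]
  ext i j
  rw [← hev, Matrix.zero_apply]
  apply hker
  have h1 : (pw m Xm * upR t - upR t * pw n Xm) i j ∈
      Ideal.span (gens (max (max 2 d0) (max m n))) :=
    Ideal.subset_span ⟨m, n, (le_max_left _ _).trans (le_max_right _ _),
      (le_max_right _ _).trans (le_max_right _ _), t, ht, i, j, rfl⟩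
  have h2 := hd0 (max 2 d0) (le_max_right _ _)
  have h3 := hd0 (max (max 2 d0) (max m n)) ((le_max_right _ _).trans (le_max_left _ _))
  have h4 : Ideal.span (gens (max 2 d0)) = Ideal.span (gens (max (max 2 d0) (max m n))) :=
    h2.symm.trans h3
  rw [h4]
  exact h1

end Pool.Agent.Helper82.AHS
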