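import Pool.Agent.Helper82.AHS.Defs

/-! Tensor powers of matrices, derivations, annihilators. -/

namespace Pool.Agent.Helper82.AHS

open Matrix Finset

section pwf

variable {r : ℕ} {K : Type*} [CommRing K]

theorem pwf_apply {m : ℕ} (f : Fin m → Matrix (Fin r) (Fin r) K) (i j : Fin m → Fin r) :
    pwf f i j = ∏ a, f a (i a) (j a) := rfl

theorem pwf_mul {m : ℕ} (f g : Fin m → Matrix (Fin r) (Fin r) K) :
    pwf f * pwf g = pwf (fun a => f a * g a) := by
  ext i j
  rw [Matrix.mul_apply, pwf_apply]
  simp only [Matrix.mul_apply]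
  rw [Finset.prod_univ_sum, Fintype.piFinset_univ]
  exact Finset.sum_congr rfl fun k _ => by rw [pwf_apply, pwf_apply, Finset.prod_mul_distrib]

theorem pwf_one {m : ℕ} : pwf (fun _ : Fin m => (1 : Matrix (Fin r) (Fin r) K)) = 1 := by
  ext i j
  rw [pwf_apply]
  by_cases h : i = j
  · subst h; simp
  · rw [Matrix.one_apply_ne h]
    obtain ⟨a, ha⟩ := Function.ne_iff.mp h
    exact Finset.prod_eq_zero (Finset.mem_univ a) (Matrix.one_apply_ne ha)

theorem pw_mul {m : ℕ} (g h : Matrix (Fin r) (Fin r) K) : pw m (g * h) = pw m g * pw m h :=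
  (pwf_mul _ _).symm

theorem pw_one {m : ℕ} : pw m (1 : Matrix (Fin r) (Fin r) K) = 1 := pwf_one

theorem pwf_update {m : ℕ} (f : Fin m → Matrix (Fin r) (Fin r) K) (a : Fin m)
    (x : Matrix (Fin r) (Fin r) K) (i j : Fin m → Fin r) :
    pwf (Function.update f a x) i j = x (i a) (j a) * ∏ b ∈ univ.erase a, f b (i b) (j b) := by
  rw [pwf_apply, ← Finset.mul_prod_erase _ _ (Finset.mem_univ a), Function.update_self]
  congr 1
  exact Finset.prod_congr rfl fun b hb => by
    rw [Function.update_of_ne (Finset.ne_of_mem_erase hb)]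

theorem pwf_update_add {m : ℕ} (f : Fin m → Matrix (Fin r) (Fin r) K) (a : Fin m)
    (x y : Matrix (Fin r) (Fin r) K) :
    pwf (Function.update f a (x + y)) = pwf (Function.update f a x) +
      pwf (Function.update f a y) := by
  ext i j
  rw [Matrix.add_apply, pwf_update, pwf_update, pwf_update, Matrix.add_apply, add_mul]

theorem pwf_update_smul {m : ℕ} (f : Fin m → Matrix (Fin r) (Fin r) K) (a : Fin m) (c : K)
    (x : Matrix (Fin r) (Fin r) K) :
    pwf (Function.update f a (c • x)) = c • pwf (Function.update f a x) := by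
  ext i j
  rw [Matrix.smul_apply, pwf_update, pwf_update, Matrix.smul_apply, smul_eq_mul, smul_eq_mul,
    mul_assoc]

theorem dr_add {m : ℕ} (x y : Matrix (Fin r) (Fin r) K) : dr m (x + y) = dr m x + dr m y := by
  unfold dr
  rw [← Finset.sum_add_distrib]
  exact Finset.sum_congr rfl fun a _ => pwf_update_add _ a x y

theorem dr_smul {m : ℕ} (c : K) (x : Matrix (Fin r) (Fin r) K) : dr m (c • x) = c • dr m x := by
  unfold dr
  rw [Finset.smul_sum]
  exact Finset.sum_congr rfl fun a _ => pwf_update_smul _ a c x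

/-- `dr` as a linear map. -/
def drL (m : ℕ) : Matrix (Fin r) (Fin r) K →ₗ[K] T r m m K where
  toFun := dr m
  map_add' := dr_add
  map_smul' := dr_smul

theorem drL_apply {m : ℕ} (x : Matrix (Fin r) (Fin r) K) : drL m x = dr m x := rfl

theorem dr_zero {m : ℕ} : dr m (0 : Matrix (Fin r) (Fin r) K) = 0 := (drL m).map_zero

theorem dr_sub {m : ℕ} (x y : Matrix (Fin r) (Fin r) K) : dr m (x - y) = dr m x - dr m y :=
  (drL m).map_sub x y

theorem dr_neg {m : ℕ} (x : Matrix (Fin r) (Fin r) K) : dr m (-x) = -dr m x :=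
  (drL m).map_neg x

theorem update_mul {m : ℕ} (a : Fin m) (x y : Matrix (Fin r) (Fin r) K) :
    (fun b => Function.update (fun _ => (1 : Matrix (Fin r) (Fin r) K)) a x b *
      Function.update (fun _ => (1 : Matrix (Fin r) (Fin r) K)) a y b) =
    Function.update (fun _ => (1 : Matrix (Fin r) (Fin r) K)) a (x * y) := by
  funext b
  by_cases h : b = a
  · subst h; simp
  · simp [Function.update_of_ne h]

theorem update_comm {m : ℕ} {a c : Fin m} (hac : a ≠ c) (x y : Matrix (Fin r) (Fin r) K) :
    (fun b => Function.update (fun _ => (1 : Matrix (Fin r) (Fin r) K)) a x b *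
      Function.update (fun _ => (1 : Matrix (Fin r) (Fin r) K)) c y b) =
    (fun b => Function.update (fun _ => (1 : Matrix (Fin r) (Fin r) K)) c y b *
      Function.update (fun _ => (1 : Matrix (Fin r) (Fin r) K)) a x b) := by
  funext b
  by_cases h : b = a
  · subst h; simp [Function.update_of_ne hac]
  · simp [Function.update_of_ne h]

theorem dr_lie {m : ℕ} (x y : Matrix (Fin r) (Fin r) K) :
    dr m (x * y - y * x) = dr m x * dr m y - dr m y * dr m x := by
  rw [dr_sub]
  unfold dr
  rw [Finset.sum_mul_sum, Finset.sum_mul_sum]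
  simp only [pwf_mul]
  rw [Finset.sum_comm (s := (univ : Finset (Fin m))) (t := (univ : Finset (Fin m)))
    (f := fun a c => pwf (fun b => Function.update (fun _ => (1 : Matrix (Fin r) (Fin r) K)) a y b *
      Function.update (fun _ => (1 : Matrix (Fin r) (Fin r) K)) c x b))]
  rw [← Finset.sum_sub_distrib, ← Finset.sum_sub_distrib]
  refine Finset.sum_congr rfl fun a _ => ?_
  rw [← Finset.sum_sub_distrib]
  rw [Finset.sum_eq_single a]
  · rw [update_mul, update_mul]
  · intro c _ hc
    rw [update_comm hc.symm x y, sub_self]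
  · intro h; exact absurd (Finset.mem_univ a) h

theorem pw_conj_dr {m : ℕ} (g h x : Matrix (Fin r) (Fin r) K) (hgh : g * h = 1) :
    pw m g * dr m x * pw m h = dr m (g * x * h) := by
  unfold dr pw
  rw [Finset.mul_sum, Finset.sum_mul]
  refine Finset.sum_congr rfl fun a _ => ?_
  rw [pwf_mul, pwf_mul]
  congr 1
  funext b
  by_cases hb : b = a
  · subst hb; simp
  · simp [Function.update_of_ne hb, hgh]

end pwf

section map

variable {r : ℕ} {K L : Type*} [CommRing K] [CommRing L] (φ : K →+* L)

theorem pwf_map {m : ℕ} (f : Fin m → Matrix (Fin r) (Fin r) K) :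
    (pwf f).map φ = pwf (fun a => (f a).map φ) := by
  ext i j
  rw [Matrix.map_apply, pwf_apply, pwf_apply, map_prod]
  rfl

theorem pw_map {m : ℕ} (g : Matrix (Fin r) (Fin r) K) : (pw m g).map φ = pw m (g.map φ) :=
  pwf_map φ _

theorem dr_map {m : ℕ} (x : Matrix (Fin r) (Fin r) K) : (dr m x).map φ = dr m (x.map φ) := by
  unfold dr
  ext i j
  rw [Matrix.map_apply, Matrix.sum_apply, Matrix.sum_apply, map_sum]
  refine Finset.sum_congr rfl fun a _ => ?_
  have := congrFun (congrFun (pwf_map φ (Function.update (fun _ => 1) a x)) i) j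
  rw [Matrix.map_apply] at this
  rw [this]
  congr 2
  funext b
  by_cases hb : b = a
  · subst hb; simp
  · simp [Function.update_of_ne hb, Matrix.map_one]

end map

section Kill

variable {r m n : ℕ} {K : Type*} [CommRing K]

/-- `x` acts as `0` on `t`. -/
def Kill (x : Matrix (Fin r) (Fin r) K) (t : T r m n K) : Prop := dr m x * t = t * dr n x

theorem Kill.lie {x y : Matrix (Fin r) (Fin r) K} {t : T r m n K} (hx : Kill x t)
    (hy : Kill y t) : Kill (x * y - y * x) t := by
  unfold Kill at *
  rw [dr_lie, dr_lie, Matrix.sub_mul, Matrix.mul_sub, Matrix.mul_assoc, hy, Matrix.mul_assoc,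
    hx, ← Matrix.mul_assoc, hx, ← Matrix.mul_assoc, hy, Matrix.mul_assoc, Matrix.mul_assoc]

theorem Kill.map {L : Type*} [CommRing L] (φ : K →+* L) {x : Matrix (Fin r) (Fin r) K}
    {t : T r m n K} (hx : Kill x t) : Kill (x.map φ) (t.map φ) := by
  unfold Kill at *
  rw [← dr_map, ← dr_map, ← Matrix.map_mul, ← Matrix.map_mul, hx]

theorem Kill.conj {g h x : Matrix (Fin r) (Fin r) K} (hgh : g * h = 1) (hhg : h * g = 1)
    {t : T r m n K} (hx : Kill x t) : Kill (g * x * h) (pw m g * t * pw n h) := by
  unfold Kill at *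
  rw [← pw_conj_dr g h x hgh, ← pw_conj_dr g h x hgh]
  have e1 : pw m h * pw m g = (1 : T r m m K) := by rw [← pw_mul, hhg, pw_one]
  have e2 : pw n h * pw n g = (1 : T r n n K) := by rw [← pw_mul, hhg, pw_one]
  calc pw m g * dr m x * pw m h * (pw m g * t * pw n h)
      = pw m g * (dr m x * ((pw m h * pw m g) * t)) * pw n h := by simp only [Matrix.mul_assoc]
    _ = pw m g * (t * dr n x) * pw n h := by rw [e1, Matrix.one_mul, hx]
    _ = pw m g * t * ((pw n h * pw n g) * dr n x) * pw n h := by
        rw [e2, Matrix.one_mul]; simp only [Matrix.mul_assoc]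
    _ = pw m g * t * pw n h * (pw n g * dr n x * pw n h) := by simp only [Matrix.mul_assoc]

/-- `x ↦ x t - t x`, linear in `x`. -/
def killX (t : T r m n K) : Matrix (Fin r) (Fin r) K →ₗ[K] T r m n K where
  toFun x := dr m x * t - t * dr n x
  map_add' x y := by rw [dr_add, dr_add, Matrix.add_mul, Matrix.mul_add]; abel
  map_smul' c x := by
    rw [dr_smul, dr_smul, Matrix.smul_mul, Matrix.mul_smul, RingHom.id_apply, smul_sub]

theorem killX_iff {t : T r m n K} {x : Matrix (Fin r) (Fin r) K} : killX t x = 0 ↔ Kill x t :=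
  sub_eq_zero

/-- `t ↦ x t - t x`, linear in `t`. -/
def killT (x : Matrix (Fin r) (Fin r) K) : T r m n K →ₗ[K] T r m n K where
  toFun t := dr m x * t - t * dr n x
  map_add' s t := by rw [Matrix.mul_add, Matrix.add_mul]; abel
  map_smul' c t := by
    rw [Matrix.smul_mul, Matrix.mul_smul, RingHom.id_apply, smul_sub]

theorem killT_iff {t : T r m n K} {x : Matrix (Fin r) (Fin r) K} : killT x t = 0 ↔ Kill x t :=
  sub_eq_zero

end Kill

/-- Base change: solutions over `K` of a system of linear equations over `ℚ` are combinations of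
rational solutions. `V`, `W` are given by coordinates. -/
theorem bc {ι : Type*} [Fintype ι] (K : Type*) [Field K] [Algebra ℚ K]
    (Φ : Set (ι → ℚ)) (v : ι → K) (hv : ∀ f ∈ Φ, ∑ i, algebraMap ℚ K (f i) * v i = 0) :
    v ∈ Submodule.span K ((fun u : ι → ℚ => fun i => algebraMap ℚ K (u i)) ''
      {u | ∀ f ∈ Φ, ∑ i, f i * u i = 0}) := by
  classical
  let b := Module.Basis.ofVectorSpace ℚ K
  -- coordinates
  have hfin : (Finset.univ.biUnion fun i => (b.repr (v i)).support).Nonempty ∨ True := Or.inr trivial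
  set s := Finset.univ.biUnion fun i => (b.repr (v i)).support with hs
  have hdec : ∀ i, v i = ∑ j ∈ s, algebraMap ℚ K (b.repr (v i) j) * b j := by
    intro i
    conv_lhs => rw [← b.linearCombination_repr (v i)]
    rw [Finsupp.linearCombination_apply, Finsupp.sum]
    refine (Finset.sum_subset (fun j hj => ?_) (fun j _ hj => ?_)).trans
      (Finset.sum_congr rfl fun j _ => ?_)
    · exact Finset.mem_biUnion.mpr ⟨i, Finset.mem_univ i, hj⟩
    · rw [Finsupp.notMem_support_iff.mp hj, zero_smul]
    · rw [Algebra.smul_def]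
  have hsol : ∀ j, (fun i => b.repr (v i) j) ∈ {u : ι → ℚ | ∀ f ∈ Φ, ∑ i, f i * u i = 0} := by
    intro j f hf
    have h0 := hv f hf
    have h1 : b.repr (∑ i, algebraMap ℚ K (f i) * v i) j = 0 := by rw [h0]; simp
    have h2 : (∑ i, algebraMap ℚ K (f i) * v i) = ∑ i, f i • v i :=
      Finset.sum_congr rfl fun i _ => (Algebra.smul_def _ _).symm
    rw [h2, map_sum, Finsupp.finsetSum_apply] at h1
    simpa using h1
  have : v = ∑ j ∈ s, b j • (fun i => algebraMap ℚ K (b.repr (v i) j)) := by
    funext i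
    rw [Finset.sum_apply, hdec i]
    exact Finset.sum_congr rfl fun j _ => by simp [mul_comm]
  rw [this]
  exact Submodule.sum_mem _ fun j _ => Submodule.smul_mem _ _
    (Submodule.subset_span ⟨_, hsol j, rfl⟩)

end Pool.Agent.Helper82.AHS
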