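import Pool.Agent.Helper82.AHS.Pol

/-! The trace form is nondegenerate on the annihilator of the Hodge tensors; the projector. -/

namespace Pool.Agent.Helper82.AHS

open Matrix Finset
open scoped MatrixOrder ComplexOrder

variable {r : ℕ} {V : HS r} {Q : Matrix (Fin r) (Fin r) ℚ}

theorem exists_Qi (hQ : V.Pol Q) : ∃ Qi : Matrix (Fin r) (Fin r) ℚ, Q * Qi = 1 := by
  have h1 : IsUnit (MM V Q).det := (Matrix.isUnit_iff_isUnit_det _).mp (MM_posDef hQ).isUnit
  have h2 : Q.det ≠ 0 := by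
    intro h0
    apply h1.ne_zero
    unfold MM RR
    rw [Matrix.det_transpose, Matrix.det_mul, Matrix.det_mul, Matrix.det_mul]
    have : (Q.map (algebraMap ℚ ℂ)).det = 0 := by
      have := (algebraMap ℚ ℂ).map_det Q
      rw [h0, map_zero] at this
      exact this.symm
    rw [this]; ring
  exact ⟨Q⁻¹, Matrix.mul_nonsing_inv _ (isUnit_iff_ne_zero.mpr h2)⟩

theorem conj_I_zpow (k : ℤ) : (starRingEnd ℂ) (Complex.I ^ k) = Complex.I ^ (-k) := by
  rw [map_zpow₀, Complex.conj_I, _root_.zpow_neg, ← _root_.inv_zpow, Complex.inv_I]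

theorem trace_pos {M ã : Matrix (Fin r) (Fin r) ℂ} (hM : M.PosDef) {M' : Matrix (Fin r) (Fin r) ℂ}
    (h1 : M * M' = 1) (h0 : trace (ã * (M' * ãᴴ * M)) = 0) : ã = 0 := by
  obtain ⟨y, hy, hMy⟩ := CStarAlgebra.isStrictlyPositive_iff_eq_star_mul_self.mp
    hM.isStrictlyPositive
  lift y to (Matrix (Fin r) (Fin r) ℂ)ˣ using hy
  set z := (y : Matrix (Fin r) (Fin r) ℂ) with hz
  set z' := ((y⁻¹ : (Matrix (Fin r) (Fin r) ℂ)ˣ) : Matrix (Fin r) (Fin r) ℂ) with hz'
  have e1 : z * z' = 1 := Units.mul_inv y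
  have e2 : z' * z = 1 := Units.inv_mul y
  have hM2 : M = zᴴ * z := hMy
  have e3 : z'ᴴ * zᴴ = 1 := by rw [← Matrix.conjTranspose_mul, e1, Matrix.conjTranspose_one]
  have e4 : zᴴ * z'ᴴ = 1 := by rw [← Matrix.conjTranspose_mul, e2, Matrix.conjTranspose_one]
  have hM' : M' = z' * z'ᴴ := by
    calc M' = (z' * z'ᴴ) * (M * M') := by
          rw [hM2]
          calc M' = (z' * ((z'ᴴ * zᴴ) * z)) * M' := by
                rw [e3, Matrix.one_mul, e2, Matrix.one_mul]
            _ = _ := by simp only [Matrix.mul_assoc]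
      _ = _ := by rw [h1, Matrix.mul_one]
  have h2 : trace ((z * ã * z') * (z * ã * z')ᴴ) = 0 := by
    rw [← h0, hM', hM2, Matrix.conjTranspose_mul, Matrix.conjTranspose_mul]
    calc trace (z * ã * z' * (z'ᴴ * (ãᴴ * zᴴ)))
        = trace (z * (ã * z' * z'ᴴ * ãᴴ * zᴴ)) := by simp only [Matrix.mul_assoc]
      _ = trace ((ã * z' * z'ᴴ * ãᴴ * zᴴ) * z) := Matrix.trace_mul_comm _ _
      _ = _ := by simp only [Matrix.mul_assoc]
  rw [Matrix.trace_mul_conjTranspose_self_eq_zero_iff] at h2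
  calc ã = (z' * z) * ã * (z' * z) := by rw [e2, Matrix.one_mul, Matrix.mul_one]
    _ = z' * (z * ã * z') * z := by simp only [Matrix.mul_assoc]
    _ = 0 := by rw [h2, Matrix.mul_zero, Matrix.zero_mul]

theorem key (hQ : V.Pol Q) {a : Matrix (Fin r) (Fin r) ℂ} (ha : a ∈ Ann ℂ V.HT)
    (h0 : ∀ b ∈ Ann ℂ V.HT, trace (a * b) = 0) : a = 0 := by
  obtain ⟨Qi, hQi⟩ := exists_Qi hQ
  have hQi2 : Qi * Q = 1 := mul_eq_one_comm.mp hQi
  have hb := adj_mem (K := ℂ) hQ hQi (Ann_conj (V.C_ann ha))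
  have hM := MM_posDef hQ
  set P := (V.P : Matrix (Fin r) (Fin r) ℂ) with hP
  set P' := ((V.P⁻¹ : GL (Fin r) ℂ) : Matrix (Fin r) (Fin r) ℂ) with hP'
  have e1 : P * P' = 1 := gl_mul_inv V.P
  have e2 : P' * P = 1 := gl_inv_mul V.P
  set J : Matrix (Fin r) (Fin r) ℂ := diagonal (fun i => Complex.I ^ (V.p i - V.q i)) with hJ
  set J' : Matrix (Fin r) (Fin r) ℂ := diagonal (fun i => Complex.I ^ (V.q i - V.p i)) with hJ'
  have j1 : J * J' = 1 := by
    rw [hJ, hJ', diagonal_mul_diagonal]; simp only [I_zpow_mul]; exact diagonal_one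
  have j2 : J' * J = 1 := by
    rw [hJ, hJ', diagonal_mul_diagonal]; simp only [I_zpow_mul]; exact diagonal_one
  have cJ : J.map (starRingEnd ℂ) = J' := by
    rw [hJ, hJ', Matrix.diagonal_map (map_zero _)]
    congr 1
    funext i
    rw [conj_I_zpow, neg_sub]
  have cJ' : J'.map (starRingEnd ℂ) = J := by
    rw [hJ, hJ', Matrix.diagonal_map (map_zero _)]
    congr 1
    funext i
    rw [conj_I_zpow, neg_sub]
  set QC := Q.map (algebraMap ℚ ℂ) with hQC
  set QiC := Qi.map (algebraMap ℚ ℂ) with hQiC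
  have q1 : QiC * QC = 1 := map_inv_aux hQi2
  set Pb := P.map (starRingEnd ℂ) with hPb
  set Pb' := P'.map (starRingEnd ℂ) with hPb'
  have p1 : Pb * Pb' = 1 := by
    rw [hPb, hPb', ← Matrix.map_mul, e1, Matrix.map_one _ (map_zero _) (map_one _)]
  have p2 : Pb' * Pb = 1 := by
    rw [hPb, hPb', ← Matrix.map_mul, e2, Matrix.map_one _ (map_zero _) (map_one _)]
  have p1t : Pb'ᵀ * Pbᵀ = 1 := by rw [← Matrix.transpose_mul, p1, Matrix.transpose_one]
  have p2t : Pbᵀ * Pb'ᵀ = 1 := by rw [← Matrix.transpose_mul, p2, Matrix.transpose_one]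
  set M := MM V Q with hMM
  -- M = J' Pbᵀ QC P
  have hM1 : M = J' * (Pbᵀ * QC * P) := by
    have h1 : M = Mᴴ := hM.isHermitian.eq.symm
    rw [h1, hMM]
    unfold MM
    have h2 : ∀ x : Matrix (Fin r) (Fin r) ℂ, (xᵀ)ᴴ = x.map (starRingEnd ℂ) := by
      intro x; ext i j; simp [Matrix.conjTranspose_apply]
    rw [h2, Matrix.map_mul]
    change J.map (starRingEnd ℂ) * (RR V Q).map (starRingEnd ℂ) = _
    rw [cJ]
    congr 1
    unfold RR
    rw [Matrix.map_mul, Matrix.map_mul, map_conj]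
    congr 1
    ext i j; simp [hP]
  obtain ⟨M', hM'⟩ : ∃ M' : Matrix (Fin r) (Fin r) ℂ, M * M' = 1 := by
    obtain ⟨u, hu⟩ := hM.isUnit
    exact ⟨((u⁻¹ : (Matrix (Fin r) (Fin r) ℂ)ˣ) : Matrix (Fin r) (Fin r) ℂ), by
      rw [← hu]; exact Units.mul_inv u⟩
  have hM'2 : M' * M = 1 := mul_eq_one_comm.mp hM'
  have hQP : QC * P = Pb'ᵀ * J * M := by
    rw [hM1]
    calc QC * P = Pb'ᵀ * Pbᵀ * (QC * P) := by rw [p1t, Matrix.one_mul]
      _ = Pb'ᵀ * (J * J') * (Pbᵀ * (QC * P)) := by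
          rw [j1, Matrix.mul_one]; simp only [Matrix.mul_assoc]
      _ = _ := by simp only [Matrix.mul_assoc]
  have hW : QC * P * M' = Pb'ᵀ * J := by
    rw [hQP, Matrix.mul_assoc, hM', Matrix.mul_one]
  set ã := P' * a * P with hã
  have haP : a = P * ã * P' := by
    rw [hã]
    calc a = (P * P') * a * (P * P') := by rw [e1, Matrix.one_mul, Matrix.mul_one]
      _ = _ := by simp only [Matrix.mul_assoc]
  have hCa : V.C * a * V.C' = P * (J * ã * J') * P' := by
    unfold HS.C HS.C'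
    change (P * J * P') * a * (P * J' * P') = _
    rw [hã]
    simp only [Matrix.mul_assoc]
  have hCa2 : ((V.C * a * V.C').map (starRingEnd ℂ))ᵀ = Pb'ᵀ * (J * ãᴴ * J') * Pbᵀ := by
    rw [hCa, Matrix.map_mul, Matrix.map_mul, Matrix.map_mul, Matrix.map_mul, cJ, cJ',
      Matrix.transpose_mul, Matrix.transpose_mul, Matrix.transpose_mul, Matrix.transpose_mul]
    have h1 : (ã.map (starRingEnd ℂ))ᵀ = ãᴴ := by
      ext i j; simp [Matrix.conjTranspose_apply]
    have h2 : Jᵀ = J := diagonal_transpose _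
    have h3 : J'ᵀ = J' := diagonal_transpose _
    rw [h1, h2, h3]
    simp only [Matrix.mul_assoc]
    rfl
  set b := QiC * ((V.C * a * V.C').map (starRingEnd ℂ))ᵀ * QC with hbdef
  have hbP : b * P * M' = P * (M' * ãᴴ) := by
    have h1 : P = QiC * (Pb'ᵀ * J * M) := by
      rw [← hQP, ← Matrix.mul_assoc, q1, Matrix.one_mul]
    calc b * P * M' = QiC * ((V.C * a * V.C').map (starRingEnd ℂ))ᵀ * (QC * P * M') := by
          rw [hbdef]; simp only [Matrix.mul_assoc]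
      _ = QiC * (Pb'ᵀ * (J * ãᴴ * J') * Pbᵀ) * (Pb'ᵀ * J) := by rw [hW, hCa2]
      _ = QiC * Pb'ᵀ * J * ãᴴ * J' * (Pbᵀ * Pb'ᵀ) * J := by simp only [Matrix.mul_assoc]
      _ = QiC * Pb'ᵀ * J * ãᴴ * (J' * J) := by
          rw [p2t, Matrix.mul_one]; simp only [Matrix.mul_assoc]
      _ = QiC * Pb'ᵀ * J * ãᴴ := by rw [j2, Matrix.mul_one]
      _ = QiC * Pb'ᵀ * J * (M * M') * ãᴴ := by rw [hM', Matrix.mul_one]
      _ = QiC * (Pb'ᵀ * J * M) * (M' * ãᴴ) := by simp only [Matrix.mul_assoc]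
      _ = P * (M' * ãᴴ) := by rw [← h1]
  have hbP2 : b = P * (M' * ãᴴ * M) * P' := by
    calc b = b * P * (M' * M) * P' := by
          rw [hM'2, Matrix.mul_one, Matrix.mul_assoc, e1, Matrix.mul_one]
      _ = (b * P * M') * M * P' := by simp only [Matrix.mul_assoc]
      _ = _ := by rw [hbP]; simp only [Matrix.mul_assoc]
  have h1 := h0 b hb
  have h2 : trace (ã * (M' * ãᴴ * M)) = 0 := by
    have h4 : a * b = P * (ã * (M' * ãᴴ * M)) * P' := by
      rw [hbP2]
      conv_lhs => rw [haP]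
      exact conj_mul e2
    rw [h4, Matrix.trace_mul_comm, ← Matrix.mul_assoc, e2, Matrix.one_mul] at h1
    exact h1
  have h3 := trace_pos hM hM' h2
  rw [haP, h3, Matrix.mul_zero, Matrix.zero_mul]

theorem nd_rat (hQ : V.Pol Q) : ∀ a ∈ Ann ℚ V.HT, (∀ b ∈ Ann ℚ V.HT, trace (a * b) = 0) →
    a = 0 := by
  intro a ha h0
  have h1 := key hQ (ann_of_span ℂ _ ha) (by
    intro b hb
    have hb2 := ext_ann.mpr hb
    refine Submodule.span_induction
      (p := fun b _ => trace (a.map (algebraMap ℚ ℂ) * b) = 0) ?_ ?_ ?_ ?_ hb2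
    · rintro _ ⟨u, hu, rfl⟩
      change trace (a.map (algebraMap ℚ ℂ) * u.map (algebraMap ℚ ℂ)) = 0
      rw [← Matrix.map_mul, trace_map, h0 u hu, map_zero]
    · simp
    · intro x y _ _ hx hy; rw [Matrix.mul_add, trace_add, hx, hy, add_zero]
    · intro c x _ hx; rw [Matrix.mul_smul, trace_smul, hx, smul_zero])
  ext i j
  have := congrFun (congrFun h1 i) j
  rw [Matrix.map_apply, Matrix.zero_apply] at this
  rw [Matrix.zero_apply]
  exact (map_eq_zero _).mp this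

/-- The projector onto the annihilator of the Hodge tensors exists. -/
theorem exists_mt (hQ : V.Pol Q) : ∃ π, IsProj (Ann ℚ V.HT) π :=
  exists_proj _ (nd_rat hQ)

/-- It is a Hodge tensor; more generally for the annihilator of any family of Hodge tensors. -/
theorem proj_hodge {V : HS r} {L : ∀ m n, Set (T r m n ℚ)} (hL : ∀ m n, ∀ t ∈ L m n, V.Hodge t)
    {π : T r 2 2 ℚ} (hπ : IsProj (Ann ℚ L) π) : V.Hodge π := by
  rw [V.hodge_iff]
  have hD : V.D ∈ Ann ℂ L := fun m n t ht => hL m n t ht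
  refine star_kill fun y => ?_
  refine hπ.uniq ?_ fun z hz => ?_
  · rw [ext_ann]
    exact Ann_lie hD (ext_ann.mp (hπ.mem y))
  · have hz2 := ext_ann.mp hz
    have h1 : z * V.D - V.D * z ∈ ext ℂ (Ann ℚ L) := ext_ann.mpr (Ann_lie hz2 hD)
    have h2 := hπ.orth y h1
    have h3 : (V.D * y - y * V.D - (V.D * star (up ℂ π) y - star (up ℂ π) y * V.D)) * z =
        V.D * ((y - star (up ℂ π) y) * z) - (y - star (up ℂ π) y) * (V.D * z) := by
      simp only [Matrix.mul_sub, Matrix.sub_mul, Matrix.mul_assoc]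
      abel
    rw [h3, trace_sub, Matrix.trace_mul_comm V.D, ← trace_sub, ← h2]
    congr 1
    simp only [Matrix.mul_sub, Matrix.sub_mul, Matrix.mul_assoc]

end Pool.Agent.Helper82.AHS
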