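import Pool.Agent.Helper82.AHS.ThmA

/-! If the centre of the algebra of Hodge endomorphisms is self-adjoint, the Hodge tensors of
types `(m, n)`, `m, n ≤ 2`, and all Hodge tensors have the same annihilator. -/

namespace Pool.Agent.Helper82.AHS

open Matrix Finset

variable {r : ℕ} {V : HS r} {Q : Matrix (Fin r) (Fin r) ℚ}

/-- Hodge tensors of types `(m, n)`, `m, n ≤ d`. -/
def HS.HTd (V : HS r) (d m n : ℕ) : Set (T r m n ℚ) := {t | m ≤ d ∧ n ≤ d ∧ V.Hodge t}

theorem dr_zero_left {K : Type*} [CommRing K] (x : Matrix (Fin r) (Fin r) K) : dr 0 x = 0 := by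
  unfold dr
  exact Finset.sum_of_isEmpty _

/-- A matrix as a tensor of type `(1, 1)`. -/
def t11 {K : Type*} (e : Matrix (Fin r) (Fin r) K) : T r 1 1 K := of fun i j => e (i 0) (j 0)

theorem dr_one' {K : Type*} [CommRing K] (x : Matrix (Fin r) (Fin r) K) : dr 1 x = t11 x := by
  ext i j
  unfold dr
  rw [Fin.sum_univ_one, pwf_update]
  simp [t11]

theorem t11_mul {K : Type*} [CommRing K] (x y : Matrix (Fin r) (Fin r) K) :
    t11 x * t11 y = t11 (x * y) := by
  ext i j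
  rw [Matrix.mul_apply]
  change ∑ k : Fin 1 → Fin r, x (i 0) (k 0) * y (k 0) (j 0) = (x * y) (i 0) (j 0)
  rw [Matrix.mul_apply]
  exact Fintype.sum_equiv (Equiv.funUnique (Fin 1) (Fin r)) _ _ fun k => rfl

theorem t11_inj {K : Type*} {x y : Matrix (Fin r) (Fin r) K} (h : t11 x = t11 y) : x = y := by
  ext i j
  exact congrFun (congrFun h (fun _ => i)) (fun _ => j)

theorem kill_t11 {K : Type*} [CommRing K] {x e : Matrix (Fin r) (Fin r) K} :
    Kill x (t11 e) ↔ x * e = e * x := by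
  unfold Kill
  rw [dr_one', t11_mul, t11_mul]
  exact ⟨fun h => t11_inj h, fun h => by rw [h]⟩

/-- A matrix as a tensor of type `(0, 2)`. -/
def t02 {K : Type*} (e : Matrix (Fin r) (Fin r) K) : T r 0 2 K := of fun _ j => e (j 0) (j 1)

theorem t02_mul {K : Type*} [CommRing K] (e x y : Matrix (Fin r) (Fin r) K) :
    t02 e * pwf ![x, y] = t02 (xᵀ * e * y) := by
  ext i j
  rw [Matrix.mul_apply, sum_two]
  change ∑ a, ∑ b, e a b * pwf ![x, y] ![a, b] j = (xᵀ * e * y) (j 0) (j 1)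
  rw [Matrix.mul_apply]
  simp only [Matrix.mul_apply, Finset.sum_mul, Matrix.transpose_apply]
  rw [Finset.sum_comm]
  refine Finset.sum_congr rfl fun b _ => Finset.sum_congr rfl fun a _ => ?_
  rw [pwf_two]
  simp
  ring

theorem kill_t02 {K : Type*} [CommRing K] {x e : Matrix (Fin r) (Fin r) K} :
    Kill x (t02 e) ↔ xᵀ * e + e * x = 0 := by
  unfold Kill
  rw [dr_zero_left, Matrix.zero_mul, dr_two, Matrix.mul_add, t02_mul, t02_mul,
    Matrix.transpose_one, Matrix.one_mul, Matrix.mul_one]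
  have h : ∀ a b : Matrix (Fin r) (Fin r) K, (t02 a + t02 b : T r 0 2 K) = t02 (a + b) := by
    intro a b; ext i j; rfl
  rw [h]
  constructor
  · intro h0
    ext i j
    have := congrFun (congrFun h0 (fun a => a.elim0)) ![i, j]
    exact this.symm
  · intro h0
    rw [h0]
    ext i j; rfl

/-- `a ⊗ b` as a tensor of type `(2, 2)`. -/
def t22 {K : Type*} [Mul K] (a b : Matrix (Fin r) (Fin r) K) : T r 2 2 K :=
  of fun i j => a (i 0) (i 1) * b (j 0) (j 1)

theorem dr_t22 {K : Type*} [CommRing K] (x a b : Matrix (Fin r) (Fin r) K) :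
    dr 2 x * t22 a b = t22 (x * a + a * xᵀ) b := by
  rw [dr_two, Matrix.add_mul]
  have h : ∀ y z : Matrix (Fin r) (Fin r) K, pwf ![y, z] * t22 a b = t22 (y * a * zᵀ) b := by
    intro y z
    ext i j
    rw [Matrix.mul_apply, sum_two]
    change ∑ c, ∑ d, pwf ![y, z] i ![c, d] * (a c d * b (j 0) (j 1)) =
      (y * a * zᵀ) (i 0) (i 1) * b (j 0) (j 1)
    rw [Matrix.mul_apply]
    simp only [Matrix.mul_apply, Finset.sum_mul, Matrix.transpose_apply]
    rw [Finset.sum_comm]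
    refine Finset.sum_congr rfl fun d _ => Finset.sum_congr rfl fun c _ => ?_
    rw [pwf_two]
    simp
    ring
  rw [h, h, Matrix.transpose_one, Matrix.mul_one, Matrix.one_mul]
  ext i j
  change (x * a) (i 0) (i 1) * b (j 0) (j 1) + (a * xᵀ) (i 0) (i 1) * b (j 0) (j 1) =
    (x * a + a * xᵀ) (i 0) (i 1) * b (j 0) (j 1)
  rw [Matrix.add_apply]; ring

theorem t22_dr {K : Type*} [CommRing K] (x a b : Matrix (Fin r) (Fin r) K) :
    t22 a b * dr 2 x = t22 a (xᵀ * b + b * x) := by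
  rw [dr_two, Matrix.mul_add]
  have h : ∀ y z : Matrix (Fin r) (Fin r) K, t22 a b * pwf ![y, z] = t22 a (yᵀ * b * z) := by
    intro y z
    ext i j
    rw [Matrix.mul_apply, sum_two]
    change ∑ c, ∑ d, (a (i 0) (i 1) * b c d) * pwf ![y, z] ![c, d] j =
      a (i 0) (i 1) * (yᵀ * b * z) (j 0) (j 1)
    rw [Matrix.mul_apply]
    simp only [Matrix.mul_apply, Finset.sum_mul, Finset.mul_sum, Matrix.transpose_apply]
    rw [Finset.sum_comm]
    refine Finset.sum_congr rfl fun d _ => Finset.sum_congr rfl fun c _ => ?_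
    rw [pwf_two]
    simp
    ring
  rw [h, h, Matrix.transpose_one, Matrix.mul_one, Matrix.one_mul]
  ext i j
  change a (i 0) (i 1) * (xᵀ * b) (j 0) (j 1) + a (i 0) (i 1) * (b * x) (j 0) (j 1) =
    a (i 0) (i 1) * (xᵀ * b + b * x) (j 0) (j 1)
  rw [Matrix.add_apply]; ring

theorem up_t11 {K : Type*} [Field K] [Algebra ℚ K] (e : Matrix (Fin r) (Fin r) ℚ) :
    up K (t11 e) = t11 (e.map (algebraMap ℚ K)) := rfl

theorem up_t02 {K : Type*} [Field K] [Algebra ℚ K] (e : Matrix (Fin r) (Fin r) ℚ) :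
    up K (t02 e) = t02 (e.map (algebraMap ℚ K)) := rfl

theorem up_t22 {K : Type*} [Field K] [Algebra ℚ K] (a b : Matrix (Fin r) (Fin r) ℚ) :
    up K (t22 a b) = t22 (a.map (algebraMap ℚ K)) (b.map (algebraMap ℚ K)) := by
  ext i j
  change algebraMap ℚ K (a (i 0) (i 1) * b (j 0) (j 1)) = _
  rw [map_mul]; rfl

/-- The rational weight operator. -/
theorem exists_N (V : HS r) (hw : ∀ i, V.p i + V.q i = 0 ∨ V.p i + V.q i = 1) :
    ∃ N : Matrix (Fin r) (Fin r) ℚ, N.map (algebraMap ℚ ℂ) = V.D + V.Db ∧ N * N = N := by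
  obtain ⟨N, hN⟩ := V.weight
  have e2 := gl_inv_mul V.P
  refine ⟨N, ?_, ?_⟩
  · rw [hN, V.Db_eq]
    unfold HS.D
    rw [← Matrix.add_mul, ← Matrix.mul_add, diagonal_add]
    congr 3
    funext i
    push_cast
    rfl
  · have h1 : (N * N).map (algebraMap ℚ ℂ) = N.map (algebraMap ℚ ℂ) := by
      rw [Matrix.map_mul, hN, conj_mul e2, diagonal_mul_diagonal]
      congr 3
      funext i
      rcases hw i with h | h <;> simp [h]
    ext i j
    have := congrFun (congrFun h1 i) j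
    simp only [Matrix.map_apply] at this
    exact (algebraMap ℚ ℂ).injective this

theorem comm_D {z : Matrix (Fin r) (Fin r) ℚ} (hz : ∀ w ∈ Ann ℚ V.HT, z * w = w * z) :
    z.map (algebraMap ℚ ℂ) * V.D = V.D * z.map (algebraMap ℚ ℂ) := by
  have h := ext_ann.mpr V.D_mem
  refine Submodule.span_induction
    (p := fun x _ => z.map (algebraMap ℚ ℂ) * x = x * z.map (algebraMap ℚ ℂ)) ?_ ?_ ?_ ?_ h
  · rintro _ ⟨u, hu, rfl⟩
    change z.map (algebraMap ℚ ℂ) * u.map (algebraMap ℚ ℂ) =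
      u.map (algebraMap ℚ ℂ) * z.map (algebraMap ℚ ℂ)
    rw [← Matrix.map_mul, hz u hu, Matrix.map_mul]
  · rw [Matrix.mul_zero, Matrix.zero_mul]
  · intro x y _ _ hx hy; rw [Matrix.mul_add, hx, hy, Matrix.add_mul]
  · intro c x _ hx; rw [Matrix.mul_smul, hx, Matrix.smul_mul]

theorem map_inj {x y : Matrix (Fin r) (Fin r) ℚ}
    (h : x.map (algebraMap ℚ ℂ) = y.map (algebraMap ℚ ℂ)) : x = y := by
  ext i j
  have := congrFun (congrFun h i) j
  simp only [Matrix.map_apply] at this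
  exact (algebraMap ℚ ℂ).injective this

theorem lieB (hQ : V.Pol Q) (hw : ∀ i, V.p i + V.q i = 0 ∨ V.p i + V.q i = 1)
    (hc : V.CentreSelfAdjoint Q) {x : Matrix (Fin r) (Fin r) ℚ}
    (hx : x ∈ Ann ℚ (V.HTd 2)) : x ∈ Ann ℚ V.HT := by
  obtain ⟨π, hπ⟩ := exists_mt hQ
  obtain ⟨Qi, hQi⟩ := exists_Qi hQ
  have hQi2 : Qi * Q = 1 := mul_eq_one_comm.mp hQi
  obtain ⟨N, hN, hNN⟩ := exists_N V hw
  have hπH : V.Hodge π := proj_hodge (L := V.HT) (fun _ _ _ ht => ht) hπ
  have hsub : ∀ y ∈ Ann ℚ V.HT, y ∈ Ann ℚ (V.HTd 2) := fun y hy m n t ht => hy m n t ht.2.2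
  obtain ⟨y, hy⟩ : ∃ y, y = star π x := ⟨_, rfl⟩
  have hyh : y ∈ Ann ℚ V.HT := by rw [hy]; exact (hπ x).1
  obtain ⟨z, hz⟩ : ∃ z, z = x - y := ⟨_, rfl⟩
  have hz2 : z ∈ Ann ℚ (V.HTd 2) := by rw [hz]; exact Submodule.sub_mem _ hx (hsub y hyh)
  have hzπ : star π z = 0 := by
    rw [hz, star_sub, hπ.fixQ hyh, ← hy, sub_self]
  -- z commutes with Lie MT
  have hkz : Kill z π := by
    have := hz2 2 2 π ⟨le_refl _, le_refl _, hπH⟩
    rwa [up_rat] at this
  have hzw : ∀ w ∈ Ann ℚ V.HT, z * w = w * z := by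
    intro w hw'
    have h1 := kill_star hkz w
    rw [hπ.fixQ hw'] at h1
    have hkw : Kill w π := by
      have := hw' 2 2 π hπH
      rwa [up_rat] at this
    have h2 := kill_star hkw z
    rw [hzπ, Matrix.mul_zero, Matrix.zero_mul, sub_zero] at h2
    have h3 : star π (z * w - w * z) = -star π (w * z - z * w) := by
      rw [← neg_sub (w * z) (z * w)]
      exact (starL π).map_neg _
    rw [h1, h2, neg_zero] at h3
    exact sub_eq_zero.mp h3
  have hzD := comm_D hzw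
  have hze : ∀ e : Matrix (Fin r) (Fin r) ℚ,
      e.map (algebraMap ℚ ℂ) * V.D = V.D * e.map (algebraMap ℚ ℂ) → z * e = e * z := by
    intro e he
    have h1 : V.Hodge (t11 e) := by
      rw [V.hodge_iff, up_t11, kill_t11, he]
    have h2 := hz2 1 1 _ ⟨by norm_num, by norm_num, h1⟩
    rw [up_rat, kill_t11] at h2
    exact h2
  have hsa : zᵀ * Q = Q * z := hc z hzD hze
  -- N
  have hDDb : V.D * V.Db = V.Db * V.D := by
    rw [V.Db_eq]
    unfold HS.D
    rw [conj_mul (gl_inv_mul V.P), conj_mul (gl_inv_mul V.P), diagonal_mul_diagonal,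
      diagonal_mul_diagonal]
    congr 3
    funext i
    ring
  have hND : N.map (algebraMap ℚ ℂ) * V.D = V.D * N.map (algebraMap ℚ ℂ) := by
    rw [hN, Matrix.add_mul, Matrix.mul_add, hDDb]
  have hNDb : N.map (algebraMap ℚ ℂ) * V.Db = V.Db * N.map (algebraMap ℚ ℂ) := by
    rw [hN, Matrix.add_mul, Matrix.mul_add, hDDb]
  have hzN : z * N = N * z := hze N hND
  have hNh : N ∈ Ann ℚ V.HT := by
    intro m n t ht
    have h1 : N.map (algebraMap ℚ ℂ) ∈ Ann ℂ V.HT := by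
      rw [hN]; exact Submodule.add_mem _ V.D_mem V.Db_mem
    have h2 := kill_up.mp (h1 m n t ht)
    rwa [up_rat]
  have rel := hQ.rel1
  -- Q (1 - N)
  have hz0 : z * (1 - N) = 0 := by
    have h1 : V.Hodge (t02 (Q * (1 - N))) := by
      rw [V.hodge_iff, up_t02, kill_t02, Matrix.map_mul,
        Matrix.map_sub _ (fun a b => map_sub _ a b), Matrix.map_one _ (map_zero _) (map_one _)]
      rw [← Matrix.mul_assoc, rel, Matrix.mul_assoc, Matrix.mul_assoc, ← Matrix.mul_add]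
      have h2 : V.Db * (1 - N.map (algebraMap ℚ ℂ)) + (1 - N.map (algebraMap ℚ ℂ)) * V.D =
          (V.D + V.Db) * (1 - N.map (algebraMap ℚ ℂ)) := by
        rw [Matrix.sub_mul, Matrix.one_mul, hND, Matrix.mul_sub, Matrix.mul_one, Matrix.add_mul,
          Matrix.mul_sub, Matrix.mul_sub, Matrix.mul_one, Matrix.mul_one]
        abel
      rw [h2, ← hN, Matrix.mul_sub, Matrix.mul_one, ← Matrix.map_mul, hNN, sub_self,
        Matrix.mul_zero]
    have h2 := hz2 0 2 _ ⟨by norm_num, le_refl _, h1⟩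
    rw [up_rat, kill_t02, ← Matrix.mul_assoc, hsa] at h2
    have h3 : (1 - N) * z = z * (1 - N) := by
      rw [Matrix.sub_mul, Matrix.mul_sub, Matrix.one_mul, Matrix.mul_one, hzN]
    rw [Matrix.mul_assoc Q (1 - N) z, h3, ← Matrix.mul_assoc, ← two_smul ℚ] at h2
    have h4 : Q * z * (1 - N) = 0 := by
      have := congrArg (fun w => (1 / 2 : ℚ) • w) h2
      simpa using this
    calc z * (1 - N) = Qi * (Q * z * (1 - N)) := by
          rw [Matrix.mul_assoc, ← Matrix.mul_assoc Qi, hQi2, Matrix.one_mul]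
      _ = 0 := by rw [h4, Matrix.mul_zero]
  have hzNz : z = z * N := by
    rw [Matrix.mul_sub, Matrix.mul_one] at hz0
    exact sub_eq_zero.mp hz0
  -- the multiplier
  have hQiz : Qi * zᵀ = z * Qi := by
    calc Qi * zᵀ = Qi * (zᵀ * Q) * Qi := by
          rw [Matrix.mul_assoc, Matrix.mul_assoc, hQi, Matrix.mul_one]
      _ = _ := by rw [hsa, ← Matrix.mul_assoc, hQi2, Matrix.one_mul]
  have hlam : ∃ c : ℚ, z = c • N := by
    have h1 : V.Hodge (t22 (N * Qi) (Q * N)) := by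
      rw [V.hodge_iff, up_t22]
      unfold Kill
      rw [dr_t22, t22_dr, Matrix.map_mul, Matrix.map_mul]
      have hQiDt : Qi.map (algebraMap ℚ ℂ) * V.Dᵀ = V.Db * Qi.map (algebraMap ℚ ℂ) := by
        have q1 : Q.map (algebraMap ℚ ℂ) * Qi.map (algebraMap ℚ ℂ) = 1 := map_inv_aux hQi
        have q2 : Qi.map (algebraMap ℚ ℂ) * Q.map (algebraMap ℚ ℂ) = 1 := map_inv_aux hQi2
        calc Qi.map (algebraMap ℚ ℂ) * V.Dᵀ =
              Qi.map (algebraMap ℚ ℂ) * (V.Dᵀ * Q.map (algebraMap ℚ ℂ)) *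
                Qi.map (algebraMap ℚ ℂ) := by
              rw [Matrix.mul_assoc, Matrix.mul_assoc, q1, Matrix.mul_one]
          _ = _ := by rw [rel, ← Matrix.mul_assoc, q2, Matrix.one_mul]
      have hl : V.D * (N.map (algebraMap ℚ ℂ) * Qi.map (algebraMap ℚ ℂ)) +
          N.map (algebraMap ℚ ℂ) * Qi.map (algebraMap ℚ ℂ) * V.Dᵀ =
          N.map (algebraMap ℚ ℂ) * Qi.map (algebraMap ℚ ℂ) := by
        rw [Matrix.mul_assoc (N.map _), hQiDt, ← Matrix.mul_assoc, ← Matrix.mul_assoc, ← hND,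
          ← Matrix.add_mul, ← Matrix.mul_add, ← hN, ← Matrix.map_mul, hNN]
      have hr : V.Dᵀ * (Q.map (algebraMap ℚ ℂ) * N.map (algebraMap ℚ ℂ)) +
          Q.map (algebraMap ℚ ℂ) * N.map (algebraMap ℚ ℂ) * V.D =
          Q.map (algebraMap ℚ ℂ) * N.map (algebraMap ℚ ℂ) := by
        rw [← Matrix.mul_assoc, rel, Matrix.mul_assoc, Matrix.mul_assoc, ← Matrix.mul_add,
          ← hNDb, ← Matrix.mul_add, add_comm V.Db, ← hN, ← Matrix.map_mul, hNN]
      rw [hl, hr]
    have h2 := hz2 2 2 _ ⟨le_refl _, le_refl _, h1⟩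
    rw [up_rat] at h2
    unfold Kill at h2
    rw [dr_t22, t22_dr] at h2
    have hl : z * (N * Qi) + N * Qi * zᵀ = (2 : ℚ) • (z * Qi) := by
      rw [Matrix.mul_assoc N Qi, hQiz, ← Matrix.mul_assoc, ← hzNz, ← Matrix.mul_assoc, ← hzN,
        ← hzNz, two_smul]
    have hr : zᵀ * (Q * N) + Q * N * z = (2 : ℚ) • (Q * z) := by
      rw [← Matrix.mul_assoc, hsa, Matrix.mul_assoc, ← hzNz, Matrix.mul_assoc, ← hzN, ← hzNz,
        two_smul]
    rw [hl, hr] at h2
    by_cases hN0 : Q * N = 0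
    · refine ⟨0, ?_⟩
      have : N = 0 := by
        calc N = Qi * (Q * N) := by rw [← Matrix.mul_assoc, hQi2, Matrix.one_mul]
          _ = 0 := by rw [hN0, Matrix.mul_zero]
      rw [hzNz, this, Matrix.mul_zero, smul_zero]
    · obtain ⟨a, b, hab⟩ : ∃ a b, (Q * N) a b ≠ 0 := by
        by_contra hcon
        push Not at hcon
        exact hN0 (by ext a b; exact hcon a b)
      refine ⟨(Q * z) a b / (Q * N) a b, ?_⟩
      have h3 : ∀ i j, (z * Qi) i j = (Q * z) a b / (Q * N) a b * (N * Qi) i j := by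
        intro i j
        have h4 := congrFun (congrFun h2 ![i, j]) ![a, b]
        change ((2 : ℚ) • (z * Qi)) i j * (Q * N) a b = (N * Qi) i j * ((2 : ℚ) • (Q * z)) a b
          at h4
        rw [Matrix.smul_apply, Matrix.smul_apply, smul_eq_mul, smul_eq_mul] at h4
        field_simp
        linarith
      have h5 : z * Qi = ((Q * z) a b / (Q * N) a b) • (N * Qi) := by
        ext i j; rw [h3 i j, Matrix.smul_apply, smul_eq_mul]
      calc z = z * Qi * Q := by rw [Matrix.mul_assoc, hQi2, Matrix.mul_one]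
        _ = _ := by
          rw [h5, Matrix.smul_mul, Matrix.mul_assoc, hQi2, Matrix.mul_one]
  obtain ⟨c, hcz⟩ := hlam
  have hzh : z ∈ Ann ℚ V.HT := by rw [hcz]; exact Submodule.smul_mem _ _ hNh
  have h1 := hπ.fixQ hzh
  rw [hzπ] at h1
  have h2 : x = y := by rw [hz] at h1; exact (sub_eq_zero.mp h1.symm)
  rw [h2]; exact hyh

end Pool.Agent.Helper82.AHS
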