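import Pool.Agent.Helper82.AHS.Ten

/-! Annihilators and invariants, base change. -/

namespace Pool.Agent.Helper82.AHS

open Matrix Finset

section bcM

variable {α β : Type*} [Fintype α] [Fintype β]

theorem bcM (K : Type*) [Field K] [Algebra ℚ K] (Φ : Set (Matrix α β ℚ)) (x : Matrix α β K)
    (hx : ∀ f ∈ Φ, ∑ i, ∑ j, algebraMap ℚ K (f i j) * x i j = 0) :
    x ∈ Submodule.span K ((fun u : Matrix α β ℚ => u.map (algebraMap ℚ K)) ''
      {u | ∀ f ∈ Φ, ∑ i, ∑ j, f i j * u i j = 0}) := by
  have h := bc K ((fun f : Matrix α β ℚ => fun p : α × β => f p.1 p.2) '' Φ)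
    (fun p => x p.1 p.2) (by
      rintro _ ⟨f, hf, rfl⟩
      rw [Fintype.sum_prod_type]
      exact hx f hf)
  let e : ((α × β) → K) →ₗ[K] Matrix α β K :=
    { toFun := fun v => Matrix.of fun i j => v (i, j)
      map_add' := fun _ _ => rfl
      map_smul' := fun _ _ => rfl }
  have h2 := Submodule.mem_map_of_mem (f := e) h
  rw [Submodule.map_span] at h2
  have e1 : e (fun p => x p.1 p.2) = x := by ext i j; rfl
  rw [e1] at h2
  refine Submodule.span_mono ?_ h2
  rintro _ ⟨_, ⟨u, hu, rfl⟩, rfl⟩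
  refine ⟨Matrix.of fun i j => u (i, j), ?_, ?_⟩
  · intro f hf
    have := hu _ ⟨f, hf, rfl⟩
    rw [Fintype.sum_prod_type] at this
    exact this
  · ext i j; rfl

theorem sum_expand {K M : Type*} [CommRing K] [AddCommGroup M] [Module K M]
    [DecidableEq α] [DecidableEq β]
    (f : Matrix α β K →ₗ[K] M) (x : Matrix α β K) :
    f x = ∑ i, ∑ j, x i j • f (Matrix.single i j 1) := by
  conv_lhs => rw [Matrix.matrix_eq_sum_single x]
  rw [map_sum]
  refine Finset.sum_congr rfl fun i _ => ?_
  rw [map_sum]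
  refine Finset.sum_congr rfl fun j _ => ?_
  rw [← map_smul]
  congr 1
  rw [Matrix.smul_single, smul_eq_mul, mul_one]

end bcM

section

variable {r : ℕ}

/-- Annihilator, over `K`, of a family of sets of rational tensors. -/
def Ann (K : Type*) [Field K] [Algebra ℚ K] (L : ∀ m n, Set (T r m n ℚ)) :
    Submodule K (Matrix (Fin r) (Fin r) K) where
  carrier := {x | ∀ m n, ∀ t ∈ L m n, Kill x (up K t)}
  zero_mem' := fun m n t _ => by
    rw [← killX_iff, map_zero]
  add_mem' := fun {x y} hx hy m n t ht => by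
    have h1 := killX_iff.mpr (hx m n t ht)
    have h2 := killX_iff.mpr (hy m n t ht)
    rw [← killX_iff, map_add, h1, h2, add_zero]
  smul_mem' := fun c x hx m n t ht => by
    have h1 := killX_iff.mpr (hx m n t ht)
    rw [← killX_iff, map_smul, h1, smul_zero]

/-- Tensors over `K` annihilated by a set of rational matrices. -/
def Inv (K : Type*) [Field K] [Algebra ℚ K] (h : Set (Matrix (Fin r) (Fin r) ℚ)) (m n : ℕ) :
    Submodule K (T r m n K) where
  carrier := {t | ∀ x ∈ h, Kill (x.map (algebraMap ℚ K)) t}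
  zero_mem' := fun x _ => by
    rw [← killT_iff, map_zero]
  add_mem' := fun {s t} hs ht x hx => by
    rw [← killT_iff, map_add, killT_iff.mpr (hs x hx), killT_iff.mpr (ht x hx), add_zero]
  smul_mem' := fun c t ht x hx => by
    rw [← killT_iff, map_smul, killT_iff.mpr (ht x hx), smul_zero]

theorem mem_Ann {K : Type*} [Field K] [Algebra ℚ K] {L : ∀ m n, Set (T r m n ℚ)}
    {x : Matrix (Fin r) (Fin r) K} :
    x ∈ Ann K L ↔ ∀ m n, ∀ t ∈ L m n, Kill x (up K t) := Iff.rfl

theorem mem_Inv {K : Type*} [Field K] [Algebra ℚ K] {h : Set (Matrix (Fin r) (Fin r) ℚ)}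
    {m n : ℕ} {t : T r m n K} :
    t ∈ Inv K h m n ↔ ∀ x ∈ h, Kill (x.map (algebraMap ℚ K)) t := Iff.rfl

theorem up_rat {m n : ℕ} (t : T r m n ℚ) : up ℚ t = t := by
  ext i j; simp [up]

theorem map_rat {α β : Type*} (x : Matrix α β ℚ) : x.map (algebraMap ℚ ℚ) = x := by
  ext i j; simp

theorem kill_up {K : Type*} [Field K] [Algebra ℚ K] {m n : ℕ} {x : Matrix (Fin r) (Fin r) ℚ}
    {t : T r m n ℚ} : Kill (x.map (algebraMap ℚ K)) (up K t) ↔ Kill x t := by
  constructor
  · intro h
    unfold Kill at *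
    unfold up at h
    rw [← dr_map, ← dr_map, ← Matrix.map_mul, ← Matrix.map_mul] at h
    ext i j
    have := congrFun (congrFun h i) j
    simp only [Matrix.map_apply] at this
    exact (algebraMap ℚ K).injective this
  · intro h
    exact Kill.map _ h

theorem map_single_one {K : Type*} [Field K] [Algebra ℚ K] {α β : Type*} [DecidableEq α]
    [DecidableEq β] (a : α) (b : β) :
    (Matrix.single a b (1 : ℚ)).map (algebraMap ℚ K) = Matrix.single a b (1 : K) := by
  ext i j
  rw [Matrix.map_apply, Matrix.single_apply, Matrix.single_apply]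
  split_ifs <;> simp

theorem killX_up {K : Type*} [Field K] [Algebra ℚ K] {m n : ℕ} (t : T r m n ℚ)
    (x : Matrix (Fin r) (Fin r) ℚ) :
    killX (up K t) (x.map (algebraMap ℚ K)) = (killX t x).map (algebraMap ℚ K) := by
  change dr m (x.map (algebraMap ℚ K)) * t.map (algebraMap ℚ K) -
    t.map (algebraMap ℚ K) * dr n (x.map (algebraMap ℚ K)) =
    (dr m x * t - t * dr n x).map (algebraMap ℚ K)
  rw [← dr_map, ← dr_map, ← Matrix.map_mul, ← Matrix.map_mul]
  ext i j
  simp only [Matrix.sub_apply, Matrix.map_apply, map_sub]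

theorem killX_killT {K : Type*} [CommRing K] {m n : ℕ} (t : T r m n K)
    (x : Matrix (Fin r) (Fin r) K) : killX t x = killT x t := rfl

/-- Base change for annihilators. -/
theorem ann_span (K : Type*) [Field K] [Algebra ℚ K] (L : ∀ m n, Set (T r m n ℚ))
    {x : Matrix (Fin r) (Fin r) K} (hx : x ∈ Ann K L) :
    x ∈ Submodule.span K ((fun u : Matrix (Fin r) (Fin r) ℚ => u.map (algebraMap ℚ K)) ''
      (Ann ℚ L : Set (Matrix (Fin r) (Fin r) ℚ))) := by
  have h := bcM K {f : Matrix (Fin r) (Fin r) ℚ | ∃ m n, ∃ t ∈ L m n, ∃ i j,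
    f = Matrix.of fun a b => killX t (Matrix.single a b 1) i j} x (by
      rintro _ ⟨m, n, t, ht, i, j, rfl⟩
      have h0 := killX_iff.mpr (hx m n t ht)
      rw [sum_expand (killX (up K t)) x] at h0
      have h1 := congrFun (congrFun h0 i) j
      rw [Matrix.sum_apply] at h1
      simp only [Matrix.sum_apply, Matrix.smul_apply, Matrix.zero_apply, smul_eq_mul] at h1
      rw [← h1]
      refine Finset.sum_congr rfl fun a _ => Finset.sum_congr rfl fun b _ => ?_
      rw [Matrix.of_apply, mul_comm, ← map_single_one (K := K), killX_up, Matrix.map_apply])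
  refine Submodule.span_mono ?_ h
  refine Set.image_mono ?_
  intro u hu m n t ht
  rw [← killX_iff, up_rat, sum_expand (killX t) u]
  ext i j
  have := hu _ ⟨m, n, t, ht, i, j, rfl⟩
  rw [Matrix.sum_apply]
  simp only [Matrix.sum_apply, Matrix.smul_apply, Matrix.zero_apply, smul_eq_mul]
  rw [← this]
  refine Finset.sum_congr rfl fun a _ => Finset.sum_congr rfl fun b _ => ?_
  rw [Matrix.of_apply, mul_comm]

theorem ann_of_span (K : Type*) [Field K] [Algebra ℚ K] (L : ∀ m n, Set (T r m n ℚ))
    {x : Matrix (Fin r) (Fin r) ℚ} (hx : x ∈ Ann ℚ L) : x.map (algebraMap ℚ K) ∈ Ann K L := by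
  intro m n t ht
  have := hx m n t ht
  rw [up_rat] at this
  exact kill_up.mpr this

/-- Base change for invariants. -/
theorem inv_span (K : Type*) [Field K] [Algebra ℚ K] (h : Set (Matrix (Fin r) (Fin r) ℚ))
    (m n : ℕ) {t : T r m n K} (ht : t ∈ Inv K h m n) :
    t ∈ Submodule.span K ((up K) '' (Inv ℚ h m n : Set (T r m n ℚ))) := by
  have hh := bcM K {f : T r m n ℚ | ∃ x ∈ h, ∃ i j,
    f = Matrix.of fun a b => killT x (Matrix.single a b 1) i j} t (by
      rintro _ ⟨x, hx, i, j, rfl⟩
      have h0 := killT_iff.mpr (ht x hx)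
      rw [sum_expand (killT (x.map (algebraMap ℚ K))) t] at h0
      have h1 := congrFun (congrFun h0 i) j
      rw [Matrix.sum_apply] at h1
      simp only [Matrix.sum_apply, Matrix.smul_apply, Matrix.zero_apply, smul_eq_mul] at h1
      rw [← h1]
      refine Finset.sum_congr rfl fun a _ => Finset.sum_congr rfl fun b _ => ?_
      rw [Matrix.of_apply, mul_comm, ← map_single_one (K := K)]
      have := killX_up (K := K) (Matrix.single a b (1 : ℚ)) x
      rw [killX_killT, killX_killT] at this
      have h2 := congrFun (congrFun this i) j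
      rw [Matrix.map_apply] at h2
      rw [← h2]
      rfl)
  refine Submodule.span_mono ?_ hh
  refine Set.image_mono ?_
  intro u hu x hx
  rw [map_rat, ← killT_iff, sum_expand (killT x) u]
  ext i j
  have := hu _ ⟨x, hx, i, j, rfl⟩
  rw [Matrix.sum_apply]
  simp only [Matrix.sum_apply, Matrix.smul_apply, Matrix.zero_apply, smul_eq_mul]
  rw [← this]
  refine Finset.sum_congr rfl fun a _ => Finset.sum_congr rfl fun b _ => ?_
  rw [Matrix.of_apply, mul_comm]

theorem inv_of_span (K : Type*) [Field K] [Algebra ℚ K] (h : Set (Matrix (Fin r) (Fin r) ℚ))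
    (m n : ℕ) {t : T r m n ℚ} (ht : t ∈ Inv ℚ h m n) : up K t ∈ Inv K h m n := by
  intro x hx
  have := ht x hx
  rw [map_rat] at this
  exact kill_up.mpr this

end

end Pool.Agent.Helper82.AHS
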