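import Pool.Agent.Helper82.AHS.Nd

/-! Transport. -/

namespace Pool.Agent.Helper82.AHS

open Matrix Finset

variable {r : ℕ}

section gen

variable {K : Type*} [Field K] [Algebra ℚ K]

omit [Algebra ℚ K] in
theorem act_inv {m n : ℕ} (g : GL (Fin r) K) (t : T r m n K) : act g (act g⁻¹ t) = t := by
  unfold act
  calc pw m (g : Matrix (Fin r) (Fin r) K) * (pw m ((g⁻¹ : GL (Fin r) K) : Matrix (Fin r) (Fin r) K) * t *
        pw n ((g⁻¹⁻¹ : GL (Fin r) K) : Matrix (Fin r) (Fin r) K)) *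
        pw n ((g⁻¹ : GL (Fin r) K) : Matrix (Fin r) (Fin r) K)
      = (pw m (g : Matrix (Fin r) (Fin r) K) *
        pw m ((g⁻¹ : GL (Fin r) K) : Matrix (Fin r) (Fin r) K)) * t *
        (pw n ((g⁻¹⁻¹ : GL (Fin r) K) : Matrix (Fin r) (Fin r) K) *
        pw n ((g⁻¹ : GL (Fin r) K) : Matrix (Fin r) (Fin r) K)) := by
        simp only [Matrix.mul_assoc]
    _ = t := by
        rw [← pw_mul, ← pw_mul, gl_mul_inv, gl_inv_mul, pw_one, pw_one, Matrix.one_mul,
          Matrix.mul_one]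

omit [Algebra ℚ K] in
theorem act_inv' {m n : ℕ} (g : GL (Fin r) K) (t : T r m n K) : act g⁻¹ (act g t) = t := by
  have := act_inv g⁻¹ t
  rwa [inv_inv] at this

/-- `act g` as a linear map. -/
noncomputable def actL {m n : ℕ} (g : GL (Fin r) K) : T r m n K →ₗ[K] T r m n K where
  toFun := act g
  map_add' s t := by unfold act; rw [Matrix.mul_add, Matrix.add_mul]
  map_smul' c t := by
    unfold act; rw [Matrix.mul_smul, Matrix.smul_mul, RingHom.id_apply]

omit [Algebra ℚ K] in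
theorem kill_act {m n : ℕ} (g : GL (Fin r) K) {x : Matrix (Fin r) (Fin r) K} {t : T r m n K}
    (h : Kill x t) : Kill ((g : Matrix (Fin r) (Fin r) K) * x *
      ((g⁻¹ : GL (Fin r) K) : Matrix (Fin r) (Fin r) K)) (act g t) :=
  h.conj (gl_mul_inv g) (gl_inv_mul g)

theorem range_up {π' : T r 2 2 ℚ} (y : Matrix (Fin r) (Fin r) K) :
    star (up K π') y ∈ ext K (LinearMap.range (starL π')) := by
  have : ∀ x ∈ ext K (⊤ : Submodule ℚ (Matrix (Fin r) (Fin r) ℚ)),
      starL (up K π') x ∈ ext K (LinearMap.range (starL π')) := by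
    intro x hx
    refine Submodule.span_induction
      (p := fun x _ => starL (up K π') x ∈ ext K (LinearMap.range (starL π'))) ?_ ?_ ?_ ?_ hx
    · rintro _ ⟨u, _, rfl⟩
      rw [starL_apply]
      change star (up K π') (u.map (algebraMap ℚ K)) ∈ _
      rw [star_up]
      exact Submodule.subset_span ⟨_, ⟨u, rfl⟩, rfl⟩
    · rw [map_zero]; exact Submodule.zero_mem _
    · intro x y _ _ hx hy
      rw [map_add]; exact Submodule.add_mem _ hx hy
    · intro c x _ hx
      rw [map_smul]; exact Submodule.smul_mem _ _ hx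
  exact this y (ext_top K y)

variable {L : ∀ m n, Set (T r m n ℚ)} {π π' : T r 2 2 ℚ}

/-- If `g` carries the projector `π` to a rational tensor `π'`, then it carries the tensors
killed by the annihilator of `L` to those killed by the image of `π'`. -/
theorem carries (hπ : IsProj (Ann ℚ L) π) (g : GL (Fin r) K) (hg : up K π' = act g (up K π))
    (m n : ℕ) : Carries (m := m) (n := n) g
      (Inv ℚ (Ann ℚ L : Set (Matrix (Fin r) (Fin r) ℚ)) m n)
      (Inv ℚ (LinearMap.range (starL π') : Set (Matrix (Fin r) (Fin r) ℚ)) m n) := by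
  have e1 := gl_mul_inv g
  have e2 := gl_inv_mul g
  have hstar : ∀ x : Matrix (Fin r) (Fin r) K, star (up K π') ((g : Matrix (Fin r) (Fin r) K) *
      x * ((g⁻¹ : GL (Fin r) K) : Matrix (Fin r) (Fin r) K)) =
      (g : Matrix (Fin r) (Fin r) K) * star (up K π) x *
        ((g⁻¹ : GL (Fin r) K) : Matrix (Fin r) (Fin r) K) := by
    intro x
    rw [hg]
    exact star_conj _ _ _ _ e1 e2
  apply le_antisymm
  · rw [Submodule.span_le]
    rintro _ ⟨t, ht, rfl⟩
    refine inv_span K _ m n ?_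
    rintro _ ⟨y, rfl⟩
    rw [starL_apply, ← star_up]
    have hy : y.map (algebraMap ℚ K) = (g : Matrix (Fin r) (Fin r) K) *
        (((g⁻¹ : GL (Fin r) K) : Matrix (Fin r) (Fin r) K) * y.map (algebraMap ℚ K) *
        (g : Matrix (Fin r) (Fin r) K)) *
        ((g⁻¹ : GL (Fin r) K) : Matrix (Fin r) (Fin r) K) := by
      set g' := ((g⁻¹ : GL (Fin r) K) : Matrix (Fin r) (Fin r) K)
      set g0 := (g : Matrix (Fin r) (Fin r) K)
      calc y.map (algebraMap ℚ K) = (g0 * g') * y.map (algebraMap ℚ K) * (g0 * g') := by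
            rw [e1, Matrix.one_mul, Matrix.mul_one]
        _ = _ := by simp only [Matrix.mul_assoc]
    rw [hy, hstar]
    refine kill_act g ?_
    exact kill_ext (inv_of_span K _ m n ht) (hπ.mem _)
  · rw [Submodule.span_le]
    rintro _ ⟨s, hs, rfl⟩
    have h1 : act g⁻¹ (up K s) ∈ Inv K (Ann ℚ L : Set (Matrix (Fin r) (Fin r) ℚ)) m n := by
      intro x hx
      have h2 : star (up K π') ((g : Matrix (Fin r) (Fin r) K) * x.map (algebraMap ℚ K) *
          ((g⁻¹ : GL (Fin r) K) : Matrix (Fin r) (Fin r) K)) =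
          (g : Matrix (Fin r) (Fin r) K) * x.map (algebraMap ℚ K) *
          ((g⁻¹ : GL (Fin r) K) : Matrix (Fin r) (Fin r) K) := by
        rw [hstar, hπ.fix (map_mem_ext hx)]
      have h3 : Kill ((g : Matrix (Fin r) (Fin r) K) * x.map (algebraMap ℚ K) *
          ((g⁻¹ : GL (Fin r) K) : Matrix (Fin r) (Fin r) K)) (up K s) := by
        rw [← h2]
        exact kill_ext (inv_of_span K _ m n hs) (range_up _)
      have h4 := kill_act g⁻¹ h3
      have h5 : ((g⁻¹ : GL (Fin r) K) : Matrix (Fin r) (Fin r) K) *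
          ((g : Matrix (Fin r) (Fin r) K) * x.map (algebraMap ℚ K) *
          ((g⁻¹ : GL (Fin r) K) : Matrix (Fin r) (Fin r) K)) *
          ((g⁻¹⁻¹ : GL (Fin r) K) : Matrix (Fin r) (Fin r) K) = x.map (algebraMap ℚ K) := by
        rw [inv_inv]
        set g' := ((g⁻¹ : GL (Fin r) K) : Matrix (Fin r) (Fin r) K)
        set g0 := (g : Matrix (Fin r) (Fin r) K)
        calc g' * (g0 * x.map (algebraMap ℚ K) * g') * g0
            = (g' * g0) * x.map (algebraMap ℚ K) * (g' * g0) := by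
              simp only [Matrix.mul_assoc]
          _ = _ := by rw [e2, Matrix.one_mul, Matrix.mul_one]
      rwa [h5] at h4
    have h2 := inv_span K _ m n h1
    have h3 := Submodule.mem_map_of_mem (f := actL g) h2
    rw [Submodule.map_span, ← Set.image_comp] at h3
    have h4 : actL g (act g⁻¹ (up K s)) = up K s := act_inv g _
    rw [h4] at h3
    exact h3

end gen

section fil

variable {V W : HS r} {M : GL (Fin r) ℂ} {σ : ℂ ≃+* ℂ}

/-- `W.D - M σ(D) M⁻¹` strictly raises the filtration. -/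
theorem raise (hfil : ∀ a v, V.Fil a v ↔ W.Fil a ((M : Matrix (Fin r) (Fin r) ℂ) *ᵥ (σ ∘ v)))
    (a b : Fin r) (hab : W.p a ≤ W.p b) :
    (((W.P⁻¹ : GL (Fin r) ℂ) : Matrix (Fin r) (Fin r) ℂ) * (W.D -
      (M : Matrix (Fin r) (Fin r) ℂ) * V.D.map σ *
      ((M⁻¹ : GL (Fin r) ℂ) : Matrix (Fin r) (Fin r) ℂ)) *
      (W.P : Matrix (Fin r) (Fin r) ℂ)) a b = 0 := by
  set P := (W.P : Matrix (Fin r) (Fin r) ℂ) with hP
  set P' := ((W.P⁻¹ : GL (Fin r) ℂ) : Matrix (Fin r) (Fin r) ℂ) with hP'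
  set M0 := (M : Matrix (Fin r) (Fin r) ℂ) with hM0
  set M' := ((M⁻¹ : GL (Fin r) ℂ) : Matrix (Fin r) (Fin r) ℂ) with hM'
  have e1 : P * P' = 1 := gl_mul_inv W.P
  have e2 : P' * P = 1 := gl_inv_mul W.P
  have m1 : M0 * M' = 1 := gl_mul_inv M
  set v := P *ᵥ (Pi.single b 1) with hv
  set u : Fin r → ℂ := σ.symm ∘ (M' *ᵥ v) with hu
  have huv : M0 *ᵥ (σ ∘ u) = v := by
    have : σ ∘ u = M' *ᵥ v := by
      funext i; simp [hu]
    rw [this, Matrix.mulVec_mulVec, m1, Matrix.one_mulVec]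
  have hv1 : W.Fil (W.p b) v := by
    intro i hi
    change (P' *ᵥ v) i = 0
    rw [hv, Matrix.mulVec_mulVec, e2, Matrix.one_mulVec]
    exact Pi.single_eq_of_ne (fun h => by rw [h] at hi; exact lt_irrefl _ hi) _
  have hu1 : V.Fil (W.p b) u := by
    rw [hfil, huv]; exact hv1
  -- D u - p b u
  have hu2 : V.Fil (W.p b + 1) (V.D *ᵥ u - (W.p b : ℂ) • u) := by
    intro i hi
    set R := (V.P : Matrix (Fin r) (Fin r) ℂ)
    set R' := ((V.P⁻¹ : GL (Fin r) ℂ) : Matrix (Fin r) (Fin r) ℂ)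
    have r2 : R' * R = 1 := gl_inv_mul V.P
    have h1 : R' *ᵥ (V.D *ᵥ u - (W.p b : ℂ) • u) =
        diagonal (fun i => (V.p i : ℂ)) *ᵥ (R' *ᵥ u) - (W.p b : ℂ) • (R' *ᵥ u) := by
      rw [Matrix.mulVec_sub, Matrix.mulVec_smul, Matrix.mulVec_mulVec, Matrix.mulVec_mulVec]
      congr 2
      change R' * (R * diagonal (fun i => (V.p i : ℂ)) * R') = _
      rw [← Matrix.mul_assoc, ← Matrix.mul_assoc, r2, Matrix.one_mul]
    rw [h1, Pi.sub_apply, Matrix.mulVec_diagonal, Pi.smul_apply, smul_eq_mul]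
    rcases lt_or_eq_of_le (Int.lt_add_one_iff.mp hi) with h | h
    · rw [hu1 i h]; simp
    · rw [h, sub_self]
  rw [hfil] at hu2
  have h3 : M0 *ᵥ (σ ∘ (V.D *ᵥ u - (W.p b : ℂ) • u)) =
      (M0 * V.D.map σ * M') *ᵥ v - (W.p b : ℂ) • v := by
    have h4 : σ ∘ (V.D *ᵥ u - (W.p b : ℂ) • u) =
        V.D.map σ *ᵥ (σ ∘ u) - (W.p b : ℂ) • (σ ∘ u) := by
      funext i
      simp only [Function.comp, Pi.sub_apply, Pi.smul_apply, smul_eq_mul, map_sub, map_mul,
        Matrix.mulVec, dotProduct, map_sum, Matrix.map_apply, map_intCast]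
    rw [h4, Matrix.mulVec_sub, Matrix.mulVec_smul, huv, Matrix.mulVec_mulVec]
    congr 1
    have h5 : σ ∘ u = M' *ᵥ v := by funext i; simp [hu]
    rw [h5, Matrix.mulVec_mulVec]
  rw [h3] at hu2
  have h6 := hu2 a (Int.lt_add_one_iff.mpr hab)
  change (P' *ᵥ _) a = 0 at h6
  have h7 : W.D *ᵥ v = (W.p b : ℂ) • v := by
    rw [hv, Matrix.mulVec_mulVec, W.D_mul_P, ← Matrix.mulVec_mulVec, Matrix.diagonal_mulVec_single,
      mul_one]
    have : Pi.single b (W.p b : ℂ) = (W.p b : ℂ) • (Pi.single b (1 : ℂ) : Fin r → ℂ) := by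
      rw [← Pi.single_smul, smul_eq_mul, mul_one]
    rw [this, Matrix.mulVec_smul]
  have h8 : (P' * (W.D - M0 * V.D.map σ * M') * P) a b =
      (P' *ᵥ ((W.D - M0 * V.D.map σ * M') *ᵥ v)) a := by
    rw [hv, Matrix.mulVec_mulVec, Matrix.mulVec_mulVec, Matrix.mulVec_single_one]
    rfl
  rw [h8, Matrix.sub_mulVec, h7]
  have h9 : (W.p b : ℂ) • v - (M0 * V.D.map σ * M') *ᵥ v =
      -((M0 * V.D.map σ * M') *ᵥ v - (W.p b : ℂ) • v) := by abel
  rw [h9, Matrix.mulVec_neg, Pi.neg_apply, h6, neg_zero]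

theorem up_sigma {m n : ℕ} (t : T r m n ℚ) : (up ℂ t).map σ = up ℂ t := by
  ext i j
  simp [up]

theorem star_sigma (π : T r 2 2 ℚ) (x : Matrix (Fin r) (Fin r) ℂ) :
    star (up ℂ π) (x.map σ) = (star (up ℂ π) x).map σ := by
  ext i j
  simp only [star_apply, Matrix.map_apply, map_sum, map_mul]
  refine Finset.sum_congr rfl fun k _ => Finset.sum_congr rfl fun l _ => ?_
  congr 1
  simp [up]

/-- The transported projector fixes the grading operator of `W`. -/
theorem fix_D (hfil : ∀ a v, V.Fil a v ↔ W.Fil a ((M : Matrix (Fin r) (Fin r) ℂ) *ᵥ (σ ∘ v)))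
    {π π' : T r 2 2 ℚ} (hD : star (up ℂ π) V.D = V.D) (hW : W.Hodge π')
    (hg : up ℂ π' = act M (up ℂ π)) : star (up ℂ π') W.D = W.D := by
  set P := (W.P : Matrix (Fin r) (Fin r) ℂ) with hP
  set P' := ((W.P⁻¹ : GL (Fin r) ℂ) : Matrix (Fin r) (Fin r) ℂ) with hP'
  have e1 : P * P' = 1 := gl_mul_inv W.P
  have e2 : P' * P = 1 := gl_inv_mul W.P
  set D1 := (M : Matrix (Fin r) (Fin r) ℂ) * V.D.map σ *
      ((M⁻¹ : GL (Fin r) ℂ) : Matrix (Fin r) (Fin r) ℂ) with hD1
  have hs1 : star (up ℂ π') D1 = D1 := by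
    rw [hg, hD1]
    unfold act
    rw [star_conj _ _ _ _ (gl_mul_inv M) (gl_inv_mul M), star_sigma, hD]
  set A := W.D - D1 with hA
  set B := W.D - star (up ℂ π') W.D with hB
  have hBA : B = A - star (up ℂ π') A := by
    rw [hA, star_sub, hs1, hB]; abel
  -- commutation with D
  have hk : ∀ y, star (up ℂ π') (W.D * y - y * W.D) =
      W.D * star (up ℂ π') y - star (up ℂ π') y * W.D := kill_star hW
  have hBcomm : W.D * B - B * W.D = 0 := by
    have h1 := hk W.D
    rw [sub_self] at h1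
    have h2 : star (up ℂ π') (0 : Matrix (Fin r) (Fin r) ℂ) = 0 := (starL (up ℂ π')).map_zero
    rw [h2] at h1
    rw [hB, Matrix.mul_sub, Matrix.sub_mul]
    rw [show W.D * W.D - W.D * star (up ℂ π') W.D - (W.D * W.D - star (up ℂ π') W.D * W.D) =
      -(W.D * star (up ℂ π') W.D - star (up ℂ π') W.D * W.D) by abel, ← h1, neg_zero]
  -- in coordinates
  have hDP : W.D * P = P * diagonal (fun i => (W.p i : ℂ)) := W.D_mul_P
  have hPD : P' * W.D = diagonal (fun i => (W.p i : ℂ)) * P' := by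
    calc P' * W.D = P' * (W.D * P) * P' := by
          rw [Matrix.mul_assoc, Matrix.mul_assoc, e1, Matrix.mul_one]
      _ = _ := by rw [hDP, ← Matrix.mul_assoc, e2, Matrix.one_mul]
  have hcoord : ∀ (y : Matrix (Fin r) (Fin r) ℂ) (c d : Fin r),
      (P' * (W.D * y - y * W.D) * P) c d = ((W.p c : ℂ) - (W.p d : ℂ)) * (P' * y * P) c d := by
    intro y c d
    have : P' * (W.D * y - y * W.D) * P = diagonal (fun i => (W.p i : ℂ)) * (P' * y * P) -
        (P' * y * P) * diagonal (fun i => (W.p i : ℂ)) := by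
      rw [Matrix.mul_sub, Matrix.sub_mul, ← Matrix.mul_assoc P' W.D y, hPD,
        Matrix.mul_assoc P' (y * W.D) P, Matrix.mul_assoc y W.D P, hDP]
      simp only [Matrix.mul_assoc]
    rw [this, Matrix.sub_apply, diagonal_mul, mul_diagonal]
    ring
  let F : Matrix (Fin r) (Fin r) ℂ →ₗ[ℂ] Matrix (Fin r) (Fin r) ℂ :=
    { toFun := fun x => P' * starL (up ℂ π') (P * x * P') * P
      map_add' := fun x y => by
        rw [Matrix.mul_add, Matrix.add_mul, map_add, Matrix.mul_add, Matrix.add_mul]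
      map_smul' := fun c x => by
        rw [Matrix.mul_smul, Matrix.smul_mul, map_smul, Matrix.mul_smul, Matrix.smul_mul,
          RingHom.id_apply] }
  have hF : ∀ (a b c d : Fin r), F (Matrix.single a b 1) c d ≠ 0 →
      W.p c - W.p d = W.p a - W.p b := by
    intro a b c d hne
    have h1 : W.D * (P * Matrix.single a b 1 * P') - (P * Matrix.single a b 1 * P') * W.D =
        ((W.p a : ℂ) - (W.p b : ℂ)) • (P * Matrix.single a b 1 * P') := by
      have h2 : diagonal (fun i => (W.p i : ℂ)) * Matrix.single a b (1 : ℂ) -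
          Matrix.single a b (1 : ℂ) * diagonal (fun i => (W.p i : ℂ)) =
          ((W.p a : ℂ) - (W.p b : ℂ)) • Matrix.single a b (1 : ℂ) := by
        ext i j
        rw [Matrix.sub_apply, diagonal_mul, mul_diagonal, Matrix.smul_apply, smul_eq_mul,
          Matrix.single_apply]
        split_ifs with h
        · rw [← h.1, ← h.2]; ring
        · ring
      rw [← Matrix.mul_assoc, ← Matrix.mul_assoc, hDP, Matrix.mul_assoc (P * _) P' W.D, hPD]
      have h3 : P * diagonal (fun i => (W.p i : ℂ)) * Matrix.single a b 1 * P' -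
          P * Matrix.single a b 1 * (diagonal (fun i => (W.p i : ℂ)) * P') =
          P * (diagonal (fun i => (W.p i : ℂ)) * Matrix.single a b (1 : ℂ) -
          Matrix.single a b (1 : ℂ) * diagonal (fun i => (W.p i : ℂ))) * P' := by
        rw [Matrix.mul_sub, Matrix.sub_mul]
        simp only [Matrix.mul_assoc]
      rw [h3, h2, Matrix.mul_smul, Matrix.smul_mul]
    have h2 := hk (P * Matrix.single a b 1 * P')
    rw [h1] at h2
    have h3 : star (up ℂ π') (((W.p a : ℂ) - (W.p b : ℂ)) • (P * Matrix.single a b 1 * P')) =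
        ((W.p a : ℂ) - (W.p b : ℂ)) • star (up ℂ π') (P * Matrix.single a b 1 * P') :=
      (starL (up ℂ π')).map_smul _ _
    rw [h3] at h2
    have h4 := hcoord (star (up ℂ π') (P * Matrix.single a b 1 * P')) c d
    rw [← h2, Matrix.mul_smul, Matrix.smul_mul, Matrix.smul_apply, smul_eq_mul] at h4
    have h5 : (P' * star (up ℂ π') (P * Matrix.single a b 1 * P') * P) c d ≠ 0 := hne
    have h6 := mul_right_cancel₀ h5 h4
    exact_mod_cast h6.symm
  have hFA : P' * star (up ℂ π') A * P = F (P' * A * P) := by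
    change _ = P' * starL (up ℂ π') (P * (P' * A * P) * P') * P
    rw [starL_apply]
    congr 3
    calc A = (P * P') * A * (P * P') := by rw [e1, Matrix.one_mul, Matrix.mul_one]
      _ = _ := by simp only [Matrix.mul_assoc]
  have hAco : ∀ a b, (P' * A * P) a b ≠ 0 → W.p b < W.p a := by
    intro a b h
    by_contra hlt
    exact h (raise hfil a b (not_lt.mp hlt))
  have hstarA : ∀ c d, (P' * star (up ℂ π') A * P) c d ≠ 0 → W.p d < W.p c := by
    intro c d hne
    rw [hFA, sum_expand F] at hne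
    rw [Matrix.sum_apply] at hne
    obtain ⟨a, _, ha⟩ := Finset.exists_ne_zero_of_sum_ne_zero hne
    rw [Matrix.sum_apply] at ha
    obtain ⟨b, _, hb⟩ := Finset.exists_ne_zero_of_sum_ne_zero ha
    rw [Matrix.smul_apply, smul_eq_mul] at hb
    have h1 := hAco a b (left_ne_zero_of_mul hb)
    have h2 := hF a b c d (right_ne_zero_of_mul hb)
    linarith
  have hB0 : P' * B * P = 0 := by
    ext c d
    rw [Matrix.zero_apply]
    by_contra hne
    have h1 := hcoord B c d
    rw [hBcomm, Matrix.mul_zero, Matrix.zero_mul, Matrix.zero_apply] at h1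
    have h2 : (W.p c : ℂ) - (W.p d : ℂ) = 0 := by
      rcases mul_eq_zero.mp h1.symm with h | h
      · exact h
      · exact absurd h hne
    have h3 : W.p c = W.p d := by exact_mod_cast sub_eq_zero.mp h2
    have h4 : (P' * B * P) c d = (P' * A * P) c d - (P' * star (up ℂ π') A * P) c d := by
      rw [hBA, Matrix.mul_sub, Matrix.sub_mul, Matrix.sub_apply]
    rw [h4] at hne
    have h5 : (P' * A * P) c d = 0 := by
      by_contra h; have := hAco c d h; rw [h3] at this; exact lt_irrefl _ this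
    have h6 : (P' * star (up ℂ π') A * P) c d = 0 := by
      by_contra h; have := hstarA c d h; rw [h3] at this; exact lt_irrefl _ this
    rw [h5, h6, sub_zero] at hne
    exact hne rfl
  have hB1 : B = 0 := by
    calc B = (P * P') * B * (P * P') := by rw [e1, Matrix.one_mul, Matrix.mul_one]
      _ = P * (P' * B * P) * P' := by simp only [Matrix.mul_assoc]
      _ = 0 := by rw [hB0, Matrix.mul_zero, Matrix.zero_mul]
  rw [hB] at hB1
  exact (sub_eq_zero.mp hB1).symm

end fil

end Pool.Agent.Helper82.AHS
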