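import Pool.Agent.Helper82.AHS.LieB

/-! Derivations: transported Hodge tensors have algebraic entries. -/

namespace Pool.Agent.Helper82.AHS

open Matrix Finset

variable {r : ℕ}

section der

variable {K : Type*} [Field K] [Algebra ℚ K] (δ : Derivation ℚ K K)

theorem map_der_mul {α β γ : Type*} [Fintype β] (x : Matrix α β K) (y : Matrix β γ K) :
    (x * y).map δ = x.map δ * y + x * y.map δ := by
  ext i j
  simp only [Matrix.map_apply, Matrix.mul_apply, Matrix.add_apply, map_sum, Derivation.leibniz,
    smul_eq_mul, Finset.sum_add_distrib]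
  rw [add_comm]
  congr 1
  refine Finset.sum_congr rfl fun k _ => ?_
  ring

theorem map_der_one {α : Type*} [DecidableEq α] : (1 : Matrix α α K).map δ = 0 := by
  ext i j
  rw [Matrix.map_apply, Matrix.one_apply, Matrix.zero_apply]
  split_ifs
  · exact δ.map_one_eq_zero
  · exact map_zero δ

theorem map_der_up {m n : ℕ} (t : T r m n ℚ) : (up K t).map δ = 0 := by
  ext i j
  rw [Matrix.map_apply, Matrix.zero_apply]
  exact δ.map_algebraMap (t i j)

theorem der_prod {ι : Type*} (s : Finset ι) [DecidableEq ι] (f : ι → K) :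
    δ (∏ a ∈ s, f a) = ∑ a ∈ s, δ (f a) * ∏ b ∈ s.erase a, f b := by
  induction s using Finset.induction_on with
  | empty => simp
  | insert c s hc ih =>
    rw [Finset.prod_insert hc, Derivation.leibniz, ih, Finset.sum_insert hc,
      Finset.erase_insert hc, smul_eq_mul, smul_eq_mul, add_comm, mul_comm (∏ x ∈ s, f x)]
    congr 1
    rw [Finset.mul_sum]
    refine Finset.sum_congr rfl fun a ha => ?_
    have hca : c ≠ a := fun h => hc (h ▸ ha)
    rw [Finset.erase_insert_of_ne hca, Finset.prod_insert (fun h => hc (Finset.mem_of_mem_erase h))]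
    ring

theorem pw_der {m : ℕ} (g g' : Matrix (Fin r) (Fin r) K) (h : g * g' = 1) :
    (pw m g).map δ = pw m g * dr m (g' * g.map δ) := by
  ext i j
  unfold dr pw
  rw [Matrix.map_apply, pwf_apply, der_prod, Finset.mul_sum, Matrix.sum_apply]
  refine Finset.sum_congr rfl fun a _ => ?_
  rw [pwf_mul]
  have h1 : (fun b => g * Function.update (fun _ => (1 : Matrix (Fin r) (Fin r) K)) a
      (g' * g.map δ) b) = Function.update (fun _ => g) a (g.map δ) := by
    funext b
    by_cases hb : b = a
    · subst hb
      rw [Function.update_self, Function.update_self, ← Matrix.mul_assoc, h, Matrix.one_mul]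
    · rw [Function.update_of_ne hb, Function.update_of_ne hb, Matrix.mul_one]
  rw [h1, pwf_update, Matrix.map_apply]

theorem act_der {m n : ℕ} (g : GL (Fin r) K) (t : T r m n ℚ) :
    (act g (up K t)).map δ = act g (dr m (((g⁻¹ : GL (Fin r) K) : Matrix (Fin r) (Fin r) K) *
      (g : Matrix (Fin r) (Fin r) K).map δ) * up K t - up K t *
      dr n (((g⁻¹ : GL (Fin r) K) : Matrix (Fin r) (Fin r) K) *
      (g : Matrix (Fin r) (Fin r) K).map δ)) := by
  have e1 := gl_mul_inv g
  have e2 := gl_inv_mul g
  unfold act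
  set g' := ((g⁻¹ : GL (Fin r) K) : Matrix (Fin r) (Fin r) K)
  set g0 := (g : Matrix (Fin r) (Fin r) K)
  have h1 : (pw n g').map δ = -(dr n (g' * g0.map δ) * pw n g') := by
    have h2 : (pw n g0 * pw n g').map δ = 0 := by
      rw [← pw_mul, e1, pw_one, map_der_one]
    rw [map_der_mul, pw_der δ g0 g' e1] at h2
    have h3 : pw n g' * (pw n g0 * dr n (g' * g0.map δ) * pw n g' + pw n g0 * (pw n g').map δ) = 0 :=
      by rw [h2, Matrix.mul_zero]
    have e3 : pw n g' * pw n g0 = (1 : T r n n K) := by rw [← pw_mul, e2, pw_one]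
    rw [Matrix.mul_add, ← Matrix.mul_assoc, ← Matrix.mul_assoc, e3, Matrix.one_mul,
      ← Matrix.mul_assoc, e3, Matrix.one_mul] at h3
    exact eq_neg_of_add_eq_zero_right h3
  rw [map_der_mul, map_der_mul, map_der_up, Matrix.mul_zero, add_zero, pw_der δ g0 g' e1, h1]
  simp only [Matrix.mul_sub, Matrix.sub_mul, Matrix.mul_neg, Matrix.mul_assoc]
  abel

end der

section

variable {K : Type*} [Field K] [Algebra ℚ K]

/-- If `g` carries the members of `L` to rational tensors, it carries the tensors killed by the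
annihilator of `L` to tensors whose entries are killed by all derivations. -/
theorem act_der_zero {L : ∀ m n, Set (T r m n ℚ)} (g : GL (Fin r) K)
    (hg : ∀ m n, ∀ t ∈ L m n, ∃ t' : T r m n ℚ, up K t' = act g (up K t))
    {m n : ℕ} {t : T r m n ℚ} (ht : ∀ x ∈ Ann ℚ L, Kill x t) (δ : Derivation ℚ K K) :
    (act g (up K t)).map δ = 0 := by
  set x := ((g⁻¹ : GL (Fin r) K) : Matrix (Fin r) (Fin r) K) *
      (g : Matrix (Fin r) (Fin r) K).map δ with hx
  have hxA : x ∈ Ann K L := by
    intro a b s hs
    obtain ⟨s', hs'⟩ := hg a b s hs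
    have h1 := act_der δ g s
    rw [← hs', map_der_up] at h1
    have h2 := congrArg (act g⁻¹) h1.symm
    rw [act_inv'] at h2
    have h3 : act g⁻¹ (0 : T r a b K) = 0 := (actL g⁻¹).map_zero
    rw [h3] at h2
    exact sub_eq_zero.mp h2
  have hk : Kill x (up K t) := by
    refine kill_ext ?_ (ext_ann.mpr hxA)
    intro y hy
    exact kill_up.mpr (ht y hy)
  rw [act_der δ g t]
  unfold Kill at hk
  rw [← hx, hk, sub_self]
  exact (actL g).map_zero

/-- Descent of coefficients to the algebraic numbers in `K`. -/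
theorem span_alg (h : Set (Matrix (Fin r) (Fin r) ℚ)) {m n : ℕ} {s : T r m n K}
    (hs : s ∈ Inv K h m n) (ha : ∀ i j, IsAlgebraic ℚ (s i j)) :
    s ∈ Submodule.span (algebraicClosure ℚ K) (up K '' (Inv ℚ h m n : Set (T r m n ℚ))) := by
  let F := algebraicClosure ℚ K
  let s0 : T r m n F := of fun i j => ⟨s i j, mem_algebraicClosure_iff.mpr (ha i j)⟩
  have hmap : s0.map (algebraMap F K) = s := by ext i j; rfl
  have hs0 : s0 ∈ Inv F h m n := by
    intro x hx
    have h1 := hs x hx
    have h2 : (x.map (algebraMap ℚ F)).map (algebraMap F K) = x.map (algebraMap ℚ K) := by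
      ext i j
      simp
    have e : ∀ k, dr k ((x.map (algebraMap ℚ F)).map (algebraMap F K)) =
        (dr k (x.map (algebraMap ℚ F))).map (algebraMap F K) := fun k => (dr_map _ _).symm
    unfold Kill at h1 ⊢
    rw [← h2, ← hmap, e, e, ← Matrix.map_mul, ← Matrix.map_mul] at h1
    ext i j
    have h3 := congrFun (congrFun h1 i) j
    simp only [Matrix.map_apply] at h3
    rw [(algebraMap F K).injective h3]
  have h1 := inv_span F h m n hs0
  let φ : T r m n F →ₗ[F] T r m n K :=
    { toFun := fun t => t.map (algebraMap F K)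
      map_add' := fun a b => by ext i j; simp
      map_smul' := fun c a => by
        ext i j
        simp only [Matrix.map_apply, Matrix.smul_apply, RingHom.id_apply, smul_eq_mul, map_mul]
        rfl }
  have h2 := Submodule.mem_map_of_mem (f := φ) h1
  rw [Submodule.map_span, ← Set.image_comp] at h2
  have h3 : φ s0 = s := hmap
  rw [h3] at h2
  have h4 : (φ ∘ up F : T r m n ℚ → T r m n K) = up K := by
    funext t
    ext i j
    simp [φ, up]
  rw [h4] at h2
  exact h2

end

end Pool.Agent.Helper82.AHS
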