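import Mathlib

/-!
Definitions for MP_4e1cf2_ag: a Hodge structure and its Galois conjugates, Hodge tensors and
absolute Hodge tensors.
-/

namespace Pool.Agent.Helper82.AHS

open Matrix

/-- Tensors of type `(m, n)` over `K`: linear maps from the `n`-th to the `m`-th tensor power of
`K ^ r`, in coordinates. -/
abbrev T (r m n : ℕ) (K : Type*) := Matrix (Fin m → Fin r) (Fin n → Fin r) K

/-- The tensor product of a family of matrices. -/
def pwf {r m : ℕ} {K : Type*} [CommRing K] (f : Fin m → Matrix (Fin r) (Fin r) K) :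
    T r m m K := of fun i j => ∏ a, f a (i a) (j a)

/-- The `m`-th tensor power of a matrix. -/
def pw {r : ℕ} {K : Type*} [CommRing K] (m : ℕ) (g : Matrix (Fin r) (Fin r) K) :
    T r m m K := pwf fun _ => g

/-- The action of `x` on the `m`-th tensor power as a derivation:
`x ⊗ 1 ⊗ ... ⊗ 1 + 1 ⊗ x ⊗ ... ⊗ 1 + ...`. -/
def dr {r : ℕ} {K : Type*} [CommRing K] (m : ℕ) (x : Matrix (Fin r) (Fin r) K) :
    T r m m K := ∑ a, pwf (Function.update (fun _ => 1) a x)

/-- A tensor with rational entries, read over `K`. -/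
def up {r m n : ℕ} (K : Type*) [Field K] [Algebra ℚ K] (t : T r m n ℚ) : T r m n K :=
  t.map (algebraMap ℚ K)

/-- `g t g⁻¹`. -/
noncomputable def act {r m n : ℕ} {K : Type*} [Field K] (g : GL (Fin r) K) (t : T r m n K) :
    T r m n K :=
  pw m (g : Matrix (Fin r) (Fin r) K) * t * pw n ((g⁻¹ : GL (Fin r) K) : Matrix (Fin r) (Fin r) K)

/-- A rational Hodge structure on `ℚ ^ r` (a direct sum of pure ones, of any weights): the columns
of `P` are a basis of `ℂ ^ r`, the `i`-th column is of type `(p i, q i)`; the span of the columns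
of type `(a, b)` is complex conjugate to the span of those of type `(b, a)`, and the weight
decomposition is defined over `ℚ`. -/
structure HS (r : ℕ) where
  P : GL (Fin r) ℂ
  p : Fin r → ℤ
  q : Fin r → ℤ
  conj : ((P : Matrix (Fin r) (Fin r) ℂ) * diagonal (fun i => (p i : ℂ)) *
      ((P⁻¹ : GL (Fin r) ℂ) : Matrix (Fin r) (Fin r) ℂ)).map (starRingEnd ℂ) =
    (P : Matrix (Fin r) (Fin r) ℂ) * diagonal (fun i => (q i : ℂ)) *
      ((P⁻¹ : GL (Fin r) ℂ) : Matrix (Fin r) (Fin r) ℂ)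
  weight : ∃ N : Matrix (Fin r) (Fin r) ℚ, N.map (algebraMap ℚ ℂ) =
    (P : Matrix (Fin r) (Fin r) ℂ) * diagonal (fun i => ((p i + q i : ℤ) : ℂ)) *
      ((P⁻¹ : GL (Fin r) ℂ) : Matrix (Fin r) (Fin r) ℂ)

/-- The grading operator: multiplication by `a` on the part of type `(a, b)`. -/
noncomputable def HS.D {r : ℕ} (V : HS r) : Matrix (Fin r) (Fin r) ℂ :=
  (V.P : Matrix (Fin r) (Fin r) ℂ) * diagonal (fun i => (V.p i : ℂ)) *
      ((V.P⁻¹ : GL (Fin r) ℂ) : Matrix (Fin r) (Fin r) ℂ)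

/-- The Hodge filtration: `F ^ a` is the span of the columns of `P` of type `(b, c)`, `a ≤ b`. -/
def HS.Fil {r : ℕ} (V : HS r) (a : ℤ) (v : Fin r → ℂ) : Prop :=
  ∀ i, V.p i < a → (((V.P⁻¹ : GL (Fin r) ℂ) : Matrix (Fin r) (Fin r) ℂ) *ᵥ v) i = 0

/-- A Hodge tensor (a Hodge class): rational of type `(0, 0)`, i.e. the grading operator acts as
`0` on it. -/
def HS.Hodge {r m n : ℕ} (V : HS r) (t : T r m n ℚ) : Prop :=
  dr m V.D * up ℂ t = up ℂ t * dr n V.D

/-- A polarization: a rational bilinear form, compatible with the Hodge structure, with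
`i ^ (a - b) Q(v, conj v) > 0` for `v ≠ 0` of type `(a, b)`. -/
def HS.Pol {r : ℕ} (V : HS r) (Q : Matrix (Fin r) (Fin r) ℚ) : Prop :=
  V.Dᵀ * Q.map (algebraMap ℚ ℂ) = Q.map (algebraMap ℚ ℂ) * V.D.map (starRingEnd ℂ) ∧
  ∀ (a b : ℤ) (v : Fin r → ℂ), v ≠ 0 → V.D *ᵥ v = (a : ℂ) • v →
    V.D.map (starRingEnd ℂ) *ᵥ v = (b : ℂ) • v →
    ∃ c : ℝ, 0 < c ∧
      Complex.I ^ (a - b) * (v ⬝ᵥ (Q.map (algebraMap ℚ ℂ) *ᵥ (starRingEnd ℂ ∘ v))) = (c : ℂ)

/-- A system of realizations: the Hodge structure `V` of `X`, polarized, the Hodge structure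
`W σ` of the conjugate variety for every automorphism `σ` of `ℂ`, the `σ`-linear isomorphism
`v ↦ M σ (σ v)` of the de Rham realizations, which preserves the Hodge filtrations, and the
isomorphisms `E σ ℓ` of the `ℓ`-adic realizations. -/
structure System (r : ℕ) where
  V : HS r
  W : (ℂ ≃+* ℂ) → HS r
  M : (ℂ ≃+* ℂ) → GL (Fin r) ℂ
  E : (ℂ ≃+* ℂ) → (ℓ : Nat.Primes) → GL (Fin r) (@Padic ℓ ⟨ℓ.2⟩)
  Q : Matrix (Fin r) (Fin r) ℚ
  pol : V.Pol Q
  fil : ∀ σ a v, V.Fil a v ↔ (W σ).Fil a ((M σ : Matrix (Fin r) (Fin r) ℂ) *ᵥ (σ ∘ v))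

/-- `t` is absolute at `σ` (Deligne): the de Rham and all `ℓ`-adic components of `t` are carried
by `σ` to those of one Hodge tensor `t'` of the conjugate. (`t` is rational, so `σ` fixes it.) -/
def System.AbsAt {r m n : ℕ} (S : System r) (σ : ℂ ≃+* ℂ) (t : T r m n ℚ) : Prop :=
  ∃ t' : T r m n ℚ, (S.W σ).Hodge t' ∧ up ℂ t' = act (S.M σ) (up ℂ t) ∧
    ∀ ℓ : Nat.Primes, up (@Padic ℓ ⟨ℓ.2⟩) t' = act (S.E σ ℓ) (up (@Padic ℓ ⟨ℓ.2⟩) t)

/-- Absolute Hodge tensors. -/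
def System.AH {r m n : ℕ} (S : System r) (t : T r m n ℚ) : Prop :=
  S.V.Hodge t ∧ ∀ σ, S.AbsAt σ t

/-- The Hodge tensors of types `(m, n)`, `m, n ≤ d`, are absolute at `σ`. -/
def System.UpTo {r : ℕ} (S : System r) (σ : ℂ ≃+* ℂ) (d : ℕ) : Prop :=
  ∀ m n, m ≤ d → n ≤ d → ∀ t : T r m n ℚ, S.V.Hodge t → S.AbsAt σ t

/-- `g` carries the span of `L` over `K` onto the span of `L'`. -/
def Carries {r m n : ℕ} {K : Type*} [Field K] [Algebra ℚ K] (g : GL (Fin r) K)
    (L L' : Set (T r m n ℚ)) : Prop :=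
  Submodule.span K ((fun t => act g (up K t)) '' L) = Submodule.span K (up K '' L')

/-- The Hodge tensors are weakly absolute at `σ`, compatibly in all realizations: in all types
`(m, n)` the spaces of Hodge tensors are carried to the extensions of scalars of one rational
space of Hodge tensors of the conjugate. -/
def System.Weak {r : ℕ} (S : System r) (σ : ℂ ≃+* ℂ) : Prop :=
  ∃ L : ∀ m n, Set (T r m n ℚ), (∀ m n, ∀ t ∈ L m n, (S.W σ).Hodge t) ∧
    ∀ m n, Carries (S.M σ) {t : T r m n ℚ | S.V.Hodge t} (L m n) ∧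
      ∀ ℓ : Nat.Primes, Carries (S.E σ ℓ) {t : T r m n ℚ | S.V.Hodge t} (L m n)

/-- The Lie algebra of the Mumford-Tate group: all rational matrices which act as `0` on all
Hodge tensors. -/
def HS.Lie {r : ℕ} (V : HS r) (x : Matrix (Fin r) (Fin r) ℚ) : Prop :=
  ∀ m n, ∀ t : T r m n ℚ, V.Hodge t → dr m x * t = t * dr n x

/-- The action of a tensor of type `(2, 2)` on matrices: partial trace of `t (1 ⊗ x)`. -/
def star {r : ℕ} {K : Type*} [CommRing K] (t : T r 2 2 K) (x : Matrix (Fin r) (Fin r) K) :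
    Matrix (Fin r) (Fin r) K :=
  of fun i j => ∑ k, ∑ l, t ![i, k] ![j, l] * x l k

/-- `π` is the trace-orthogonal projector onto the Lie algebra of the Mumford-Tate group. -/
def HS.IsLieProj {r : ℕ} (V : HS r) (π : T r 2 2 ℚ) : Prop :=
  ∀ x, V.Lie (star π x) ∧ ∀ y, V.Lie y → trace ((x - star π x) * y) = 0

/-- The centre of the algebra of Hodge endomorphisms is self-adjoint for `Q` (no part of type
IV). -/
def HS.CentreSelfAdjoint {r : ℕ} (V : HS r) (Q : Matrix (Fin r) (Fin r) ℚ) : Prop :=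
  ∀ z : Matrix (Fin r) (Fin r) ℚ,
    z.map (algebraMap ℚ ℂ) * V.D = V.D * z.map (algebraMap ℚ ℂ) →
    (∀ e : Matrix (Fin r) (Fin r) ℚ,
      e.map (algebraMap ℚ ℂ) * V.D = V.D * e.map (algebraMap ℚ ℂ) → z * e = e * z) →
    zᵀ * Q = Q * z

/-- `g t` is a combination of members of `L` with coefficients algebraic over `ℚ`. -/
def AlgComb {r m n : ℕ} {K : Type*} [Field K] [Algebra ℚ K] (g : GL (Fin r) K) (t : T r m n ℚ)
    (L : Set (T r m n ℚ)) : Prop :=
  act g (up K t) ∈ Submodule.span (algebraicClosure ℚ K) (up K '' L)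

/-- The Hodge tensors of types `(m, n)`, `m, n ≤ d`, cut out the Mumford-Tate group. -/
def HS.CutOut {r : ℕ} (V : HS r) (d : ℕ) : Prop :=
  ∀ g : GL (Fin r) ℂ,
    (∀ m n, m ≤ d → n ≤ d → ∀ t : T r m n ℚ, V.Hodge t → act g (up ℂ t) = up ℂ t) →
    ∀ m n, ∀ t : T r m n ℚ, V.Hodge t → act g (up ℂ t) = up ℂ t

end Pool.Agent.Helper82.AHS
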