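import Pool.Agent.Helper82.AHS.Proj

/-! The annihilator of the Hodge tensors contains the grading operator, is closed under complex
conjugation, the Weil operator and the adjoint; hence the trace form is nondegenerate on it. -/

namespace Pool.Agent.Helper82.AHS

open Matrix Finset

variable {r : ℕ}

/-- The sets of Hodge tensors. -/
def HS.HT (V : HS r) (m n : ℕ) : Set (T r m n ℚ) := {t | V.Hodge t}

theorem HS.hodge_iff (V : HS r) {m n : ℕ} {t : T r m n ℚ} : V.Hodge t ↔ Kill V.D (up ℂ t) :=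
  Iff.rfl

/-- The conjugate grading operator. -/
noncomputable def HS.Db (V : HS r) : Matrix (Fin r) (Fin r) ℂ := V.D.map (starRingEnd ℂ)

theorem HS.Db_eq (V : HS r) : V.Db = (V.P : Matrix (Fin r) (Fin r) ℂ) *
    diagonal (fun i => (V.q i : ℂ)) * ((V.P⁻¹ : GL (Fin r) ℂ) : Matrix (Fin r) (Fin r) ℂ) :=
  V.conj

theorem up_conj {m n : ℕ} (t : T r m n ℚ) : (up ℂ t).map (starRingEnd ℂ) = up ℂ t := by
  ext i j
  simp [up]

theorem map_conj (x : Matrix (Fin r) (Fin r) ℚ) :
    (x.map (algebraMap ℚ ℂ)).map (starRingEnd ℂ) = x.map (algebraMap ℚ ℂ) := by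
  ext i j
  simp

theorem HS.D_mem (V : HS r) : V.D ∈ Ann ℂ V.HT := fun _ _ _ ht => ht

theorem Ann_conj {L : ∀ m n, Set (T r m n ℚ)} {x : Matrix (Fin r) (Fin r) ℂ}
    (hx : x ∈ Ann ℂ L) : x.map (starRingEnd ℂ) ∈ Ann ℂ L := by
  intro m n t ht
  have := Kill.map (starRingEnd ℂ) (hx m n t ht)
  rwa [up_conj] at this

theorem HS.Db_mem (V : HS r) : V.Db ∈ Ann ℂ V.HT := Ann_conj V.D_mem

theorem Ann_lie {K : Type*} [Field K] [Algebra ℚ K] {L : ∀ m n, Set (T r m n ℚ)}
    {x y : Matrix (Fin r) (Fin r) K} (hx : x ∈ Ann K L) (hy : y ∈ Ann K L) :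
    x * y - y * x ∈ Ann K L := fun m n t ht => (hx m n t ht).lie (hy m n t ht)

theorem ext_ann {K : Type*} [Field K] [Algebra ℚ K] {L : ∀ m n, Set (T r m n ℚ)}
    {x : Matrix (Fin r) (Fin r) K} : x ∈ ext K (Ann ℚ L) ↔ x ∈ Ann K L := by
  constructor
  · intro hx
    refine Submodule.span_induction (p := fun x _ => x ∈ Ann K L) ?_ ?_ ?_ ?_ hx
    · rintro _ ⟨u, hu, rfl⟩
      exact ann_of_span K L hu
    · exact Submodule.zero_mem _
    · intro x y _ _ hx hy; exact Submodule.add_mem _ hx hy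
    · intro c x _ hx; exact Submodule.smul_mem _ c hx
  · exact ann_span K L

/-- Something killed by `h` is killed by the extension of `h`. -/
theorem kill_ext {K : Type*} [Field K] [Algebra ℚ K]
    {h : Submodule ℚ (Matrix (Fin r) (Fin r) ℚ)} {m n : ℕ} {t : T r m n K}
    (ht : t ∈ Inv K (h : Set (Matrix (Fin r) (Fin r) ℚ)) m n) {x : Matrix (Fin r) (Fin r) K}
    (hx : x ∈ ext K h) : Kill x t := by
  rw [← killX_iff]
  refine Submodule.span_induction (p := fun x _ => killX t x = 0) ?_ ?_ ?_ ?_ hx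
  · rintro _ ⟨u, hu, rfl⟩
    exact killX_iff.mpr (ht u hu)
  · exact map_zero _
  · intro x y _ _ hx hy; rw [map_add, hx, hy, add_zero]
  · intro c x _ hx; rw [map_smul, hx, smul_zero]

/-- The rational tensors killed by the annihilator of the Hodge tensors are the Hodge tensors. -/
theorem HS.inv_iff (V : HS r) {m n : ℕ} {t : T r m n ℚ} :
    t ∈ Inv ℚ (Ann ℚ V.HT : Set (Matrix (Fin r) (Fin r) ℚ)) m n ↔ V.Hodge t := by
  constructor
  · intro ht
    have h1 := inv_of_span ℂ _ m n ht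
    exact kill_ext h1 (ext_ann.mpr V.D_mem)
  · intro ht x hx
    have := hx m n t ht
    rw [map_rat]
    rwa [up_rat] at this

/-! ### the Weil operator -/

theorem dr_diagonal {K : Type*} [CommRing K] {m : ℕ} (d : Fin r → K) :
    dr m (diagonal d) = diagonal (fun i : Fin m → Fin r => ∑ a, d (i a)) := by
  ext i j
  unfold dr
  rw [Matrix.sum_apply]
  by_cases h : i = j
  · subst h
    rw [diagonal_apply_eq]
    refine Finset.sum_congr rfl fun a _ => ?_
    rw [pwf_update, diagonal_apply_eq]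
    simp
  · rw [diagonal_apply_ne _ h]
    refine Finset.sum_eq_zero fun a _ => ?_
    rw [pwf_update]
    obtain ⟨b, hb⟩ := Function.ne_iff.mp h
    by_cases hab : b = a
    · subst hab
      rw [diagonal_apply_ne _ hb, zero_mul]
    · have h0 : ∏ b ∈ univ.erase a, (1 : Matrix (Fin r) (Fin r) K) (i b) (j b) = 0 :=
        Finset.prod_eq_zero (Finset.mem_erase.mpr ⟨hab, Finset.mem_univ b⟩)
          (Matrix.one_apply_ne hb)
      rw [h0, mul_zero]

theorem pw_diagonal {K : Type*} [CommRing K] {m : ℕ} (d : Fin r → K) :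
    pw m (diagonal d) = diagonal (fun i : Fin m → Fin r => ∏ a, d (i a)) := by
  ext i j
  unfold pw
  rw [pwf_apply]
  by_cases h : i = j
  · subst h
    rw [diagonal_apply_eq]
    exact Finset.prod_congr rfl fun a _ => diagonal_apply_eq _ _
  · rw [diagonal_apply_ne _ h]
    obtain ⟨b, hb⟩ := Function.ne_iff.mp h
    exact Finset.prod_eq_zero (Finset.mem_univ b) (diagonal_apply_ne _ hb)

/-- The Weil operator and its inverse. -/
noncomputable def HS.C (V : HS r) : Matrix (Fin r) (Fin r) ℂ :=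
  (V.P : Matrix (Fin r) (Fin r) ℂ) * diagonal (fun i => Complex.I ^ (V.p i - V.q i)) *
    ((V.P⁻¹ : GL (Fin r) ℂ) : Matrix (Fin r) (Fin r) ℂ)

noncomputable def HS.C' (V : HS r) : Matrix (Fin r) (Fin r) ℂ :=
  (V.P : Matrix (Fin r) (Fin r) ℂ) * diagonal (fun i => Complex.I ^ (V.q i - V.p i)) *
    ((V.P⁻¹ : GL (Fin r) ℂ) : Matrix (Fin r) (Fin r) ℂ)

theorem gl_mul_inv {K : Type*} [CommRing K] (g : GL (Fin r) K) :
    (g : Matrix (Fin r) (Fin r) K) * ((g⁻¹ : GL (Fin r) K) : Matrix (Fin r) (Fin r) K) = 1 :=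
  Units.mul_inv g

theorem gl_inv_mul {K : Type*} [CommRing K] (g : GL (Fin r) K) :
    ((g⁻¹ : GL (Fin r) K) : Matrix (Fin r) (Fin r) K) * (g : Matrix (Fin r) (Fin r) K) = 1 :=
  Units.inv_mul g

theorem conj_mul {K : Type*} [CommRing K] {g g' x y : Matrix (Fin r) (Fin r) K}
    (h : g' * g = 1) : (g * x * g') * (g * y * g') = g * (x * y) * g' := by
  calc (g * x * g') * (g * y * g') = g * x * (g' * g) * y * g' := by
        simp only [Matrix.mul_assoc]
    _ = _ := by rw [h, Matrix.mul_one]; simp only [Matrix.mul_assoc]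

theorem I_zpow_mul (a b : ℤ) : Complex.I ^ (a - b) * Complex.I ^ (b - a) = 1 := by
  rw [← zpow_add₀ Complex.I_ne_zero, show a - b + (b - a) = 0 by ring, zpow_zero]

theorem HS.C_mul_C' (V : HS r) : V.C * V.C' = 1 := by
  unfold HS.C HS.C'
  rw [conj_mul (gl_inv_mul V.P), diagonal_mul_diagonal]
  simp only [I_zpow_mul]
  rw [diagonal_one, Matrix.mul_one, gl_mul_inv]

theorem HS.C'_mul_C (V : HS r) : V.C' * V.C = 1 := by
  unfold HS.C HS.C'
  rw [conj_mul (gl_inv_mul V.P), diagonal_mul_diagonal]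
  simp only [I_zpow_mul]
  rw [diagonal_one, Matrix.mul_one, gl_mul_inv]

theorem prod_I {ι : Type*} (S : Finset ι) (f : ι → ℤ) :
    ∏ a ∈ S, Complex.I ^ (f a) = Complex.I ^ (∑ a ∈ S, f a) := by
  classical
  induction S using Finset.induction_on with
  | empty => simp
  | insert a s ha ih =>
    rw [Finset.prod_insert ha, Finset.sum_insert ha, zpow_add₀ Complex.I_ne_zero, ih]

/-- The Weil operator fixes the Hodge tensors. -/
theorem HS.C_fix (V : HS r) {m n : ℕ} {t : T r m n ℚ} (ht : V.Hodge t) :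
    pw m V.C * up ℂ t * pw n V.C' = up ℂ t := by
  set P := (V.P : Matrix (Fin r) (Fin r) ℂ) with hP
  set P' := ((V.P⁻¹ : GL (Fin r) ℂ) : Matrix (Fin r) (Fin r) ℂ) with hP'
  have e1 : P * P' = 1 := gl_mul_inv V.P
  have e2 : P' * P = 1 := gl_inv_mul V.P
  set s := pw m P' * up ℂ t * pw n P with hs
  have hD : Kill (diagonal fun i => (V.p i : ℂ)) s := by
    have h1 : Kill V.D (up ℂ t) := ht
    have h2 := h1.conj e2 e1
    have h3 : P' * V.D * P = diagonal fun i => (V.p i : ℂ) := by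
      unfold HS.D
      calc P' * (P * diagonal (fun i => (V.p i : ℂ)) * P') * P
          = (P' * P) * diagonal (fun i => (V.p i : ℂ)) * (P' * P) := by
            simp only [Matrix.mul_assoc]
        _ = _ := by rw [e2, Matrix.one_mul, Matrix.mul_one]
    rwa [h3] at h2
  have hDb : Kill (diagonal fun i => (V.q i : ℂ)) s := by
    have h1 : Kill V.Db (up ℂ t) := V.Db_mem m n t ht
    have h2 := h1.conj e2 e1
    have h3 : P' * V.Db * P = diagonal fun i => (V.q i : ℂ) := by
      rw [V.Db_eq]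
      calc P' * (P * diagonal (fun i => (V.q i : ℂ)) * P') * P
          = (P' * P) * diagonal (fun i => (V.q i : ℂ)) * (P' * P) := by
            simp only [Matrix.mul_assoc]
        _ = _ := by rw [e2, Matrix.one_mul, Matrix.mul_one]
    rwa [h3] at h2
  have hsum : ∀ (d : Fin r → ℤ), Kill (diagonal fun i => (d i : ℂ)) s → ∀ i j, s i j ≠ 0 →
      ∑ a, d (i a) = ∑ b, d (j b) := by
    intro d hd i j hij
    unfold Kill at hd
    rw [dr_diagonal, dr_diagonal] at hd
    have h1 := congrFun (congrFun hd i) j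
    rw [diagonal_mul, mul_diagonal] at h1
    have h2 : ((∑ a, d (i a) : ℤ) : ℂ) = ((∑ b, d (j b) : ℤ) : ℂ) := by
      push_cast
      have h3 : (∑ a, (d (i a) : ℂ)) * s i j = (∑ b, (d (j b) : ℂ)) * s i j := by
        rw [h1, mul_comm]
      exact mul_right_cancel₀ hij h3
    exact_mod_cast h2
  have hcomm : pw m (diagonal fun i => Complex.I ^ (V.p i - V.q i)) * s *
      pw n (diagonal fun i => Complex.I ^ (V.q i - V.p i)) = s := by
    rw [pw_diagonal, pw_diagonal]
    ext i j
    rw [mul_diagonal, diagonal_mul]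
    by_cases hij : s i j = 0
    · rw [hij]; simp
    · have h1 := hsum V.p hD i j hij
      have h2 := hsum V.q hDb i j hij
      have h3 : ∏ a, Complex.I ^ (V.p (i a) - V.q (i a)) =
          Complex.I ^ (∑ a, (V.p (i a) - V.q (i a))) := prod_I _ _
      have h4 : ∏ a, Complex.I ^ (V.q (j a) - V.p (j a)) =
          Complex.I ^ (∑ a, (V.q (j a) - V.p (j a))) := prod_I _ _
      rw [h3, h4]
      rw [Finset.sum_sub_distrib, Finset.sum_sub_distrib, h1, h2]
      rw [show Complex.I ^ (∑ b, V.p (j b) - ∑ b, V.q (j b)) * s i j *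
        Complex.I ^ (∑ b, V.q (j b) - ∑ b, V.p (j b)) =
        (Complex.I ^ (∑ b, V.p (j b) - ∑ b, V.q (j b)) *
        Complex.I ^ (∑ b, V.q (j b) - ∑ b, V.p (j b))) * s i j by ring, I_zpow_mul, one_mul]
  have hts : up ℂ t = pw m P * s * pw n P' := by
    rw [hs]
    calc up ℂ t = (pw m P * pw m P') * up ℂ t * (pw n P * pw n P') := by
          rw [← pw_mul, ← pw_mul, e1, pw_one, pw_one, Matrix.one_mul, Matrix.mul_one]
      _ = _ := by simp only [Matrix.mul_assoc]
  have hC : pw m V.C = pw m P * pw m (diagonal fun i => Complex.I ^ (V.p i - V.q i)) *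
      pw m P' := by rw [← pw_mul, ← pw_mul]; rfl
  have hC' : pw n V.C' = pw n P * pw n (diagonal fun i => Complex.I ^ (V.q i - V.p i)) *
      pw n P' := by rw [← pw_mul, ← pw_mul]; rfl
  rw [hC, hC', hts]
  calc pw m P * pw m (diagonal fun i => Complex.I ^ (V.p i - V.q i)) * pw m P' *
        (pw m P * s * pw n P') *
        (pw n P * pw n (diagonal fun i => Complex.I ^ (V.q i - V.p i)) * pw n P')
      = pw m P * (pw m (diagonal fun i => Complex.I ^ (V.p i - V.q i)) *
        ((pw m P' * pw m P) * s * (pw n P' * pw n P)) *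
        pw n (diagonal fun i => Complex.I ^ (V.q i - V.p i))) * pw n P' := by
        simp only [Matrix.mul_assoc]
    _ = _ := by
      rw [← pw_mul, ← pw_mul, e2, pw_one, pw_one, Matrix.one_mul, Matrix.mul_one, hcomm]

theorem HS.C_ann (V : HS r) {x : Matrix (Fin r) (Fin r) ℂ} (hx : x ∈ Ann ℂ V.HT) :
    V.C * x * V.C' ∈ Ann ℂ V.HT := by
  intro m n t ht
  have := (hx m n t ht).conj V.C_mul_C' V.C'_mul_C
  rwa [V.C_fix ht] at this

end Pool.Agent.Helper82.AHS
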