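import Pool.Agent.Helper82.AHS.Hod

/-! Polarization: the trace form is nondegenerate on the annihilator of the Hodge tensors. -/

namespace Pool.Agent.Helper82.AHS

open Matrix Finset
open scoped MatrixOrder ComplexOrder

variable {r : ℕ}

theorem dr_transpose {K : Type*} [CommRing K] {m : ℕ} (x : Matrix (Fin r) (Fin r) K) :
    dr m xᵀ = (dr m x)ᵀ := by
  unfold dr
  rw [Matrix.transpose_sum]
  refine Finset.sum_congr rfl fun a _ => ?_
  ext i j
  rw [Matrix.transpose_apply, pwf_update, pwf_update]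
  rw [Matrix.transpose_apply]
  congr 1
  refine Finset.prod_congr rfl fun b _ => ?_
  rw [Matrix.one_apply, Matrix.one_apply]
  simp only [eq_comm]

theorem kill_transpose {K : Type*} [CommRing K] {m n : ℕ} {x : Matrix (Fin r) (Fin r) K}
    {t : T r m n K} (h : Kill xᵀ t) : Kill x tᵀ := by
  unfold Kill at *
  rw [dr_transpose, dr_transpose] at h
  have := congrArg Matrix.transpose h
  rw [Matrix.transpose_mul, Matrix.transpose_mul, Matrix.transpose_transpose,
    Matrix.transpose_transpose] at this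
  exact this.symm

section adj

variable {V : HS r} {Q : Matrix (Fin r) (Fin r) ℚ}

theorem HS.Pol.rel1 (hQ : V.Pol Q) : V.Dᵀ * Q.map (algebraMap ℚ ℂ) =
    Q.map (algebraMap ℚ ℂ) * V.Db := hQ.1

theorem Db_conj : V.Db.map (starRingEnd ℂ) = V.D := by
  ext i j
  simp [HS.Db]

theorem HS.Pol.rel2 (hQ : V.Pol Q) : V.Dbᵀ * Q.map (algebraMap ℚ ℂ) =
    Q.map (algebraMap ℚ ℂ) * V.D := by
  have h : (V.Dᵀ * Q.map (algebraMap ℚ ℂ)).map (starRingEnd ℂ) =
    (Q.map (algebraMap ℚ ℂ) * V.Db).map (starRingEnd ℂ) := by rw [hQ.rel1]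
  rw [Matrix.map_mul, Matrix.map_mul, map_conj, Db_conj] at h
  exact h

theorem core1 {L : Type*} [CommRing L] {m n : ℕ} {A A' x : Matrix (Fin r) (Fin r) L}
    (e1 : A * A' = 1) (e2 : A' * A = 1) {s : T r m n L}
    (h : Kill (A' * x * A)ᵀ s) : Kill x (pw n A * sᵀ * pw m A') := by
  have h5 := kill_transpose h
  have h6 := h5.conj e1 e2
  have h7 : A * (A' * x * A) * A' = x := by
    calc A * (A' * x * A) * A' = (A * A') * x * (A * A') := by simp only [Matrix.mul_assoc]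
      _ = _ := by rw [e1, Matrix.one_mul, Matrix.mul_one]
  rwa [h7] at h6

theorem core2 {L : Type*} [CommRing L] {m n : ℕ} {A A' x : Matrix (Fin r) (Fin r) L}
    (e1 : A * A' = 1) (e2 : A' * A = 1) {s : T r m n L}
    (h : Kill x (pw n A * sᵀ * pw m A')) : Kill (A' * x * A)ᵀ s := by
  have h4 := h.conj e2 e1
  have h5 : pw n A' * (pw n A * sᵀ * pw m A') * pw m A = sᵀ := by
    calc pw n A' * (pw n A * sᵀ * pw m A') * pw m A
        = (pw n A' * pw n A) * sᵀ * (pw m A' * pw m A) := by simp only [Matrix.mul_assoc]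
      _ = _ := by rw [← pw_mul, ← pw_mul, e2, pw_one, pw_one, Matrix.one_mul, Matrix.mul_one]
  rw [h5] at h4
  have h6 := kill_transpose (x := (A' * x * A)ᵀ) (t := sᵀ) (by rwa [Matrix.transpose_transpose])
  rwa [Matrix.transpose_transpose] at h6

/-- The transposed tensor, with respect to `Q`. -/
def flat (Q Qi : Matrix (Fin r) (Fin r) ℚ) {m n : ℕ} (t : T r m n ℚ) : T r n m ℚ :=
  pw n Qiᵀ * tᵀ * pw m Qᵀ

theorem up_flat {L : Type*} [Field L] [Algebra ℚ L] (Q Qi : Matrix (Fin r) (Fin r) ℚ) {m n : ℕ}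
    (t : T r m n ℚ) : up L (flat Q Qi t) =
      pw n (Qiᵀ.map (algebraMap ℚ L)) * (up L t)ᵀ * pw m (Qᵀ.map (algebraMap ℚ L)) := by
  unfold flat up
  rw [Matrix.map_mul, Matrix.map_mul, pw_map, pw_map]
  rfl

theorem map_inv_aux {L : Type*} [Field L] [Algebra ℚ L] {A B : Matrix (Fin r) (Fin r) ℚ}
    (h : A * B = 1) : A.map (algebraMap ℚ L) * B.map (algebraMap ℚ L) = 1 := by
  rw [← Matrix.map_mul, h, Matrix.map_one _ (map_zero _) (map_one _)]

theorem adj_mem {K : Type*} [Field K] [Algebra ℚ K] (hQ : V.Pol Q)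
    {Qi : Matrix (Fin r) (Fin r) ℚ} (h1 : Q * Qi = 1) {x : Matrix (Fin r) (Fin r) K}
    (hx : x ∈ Ann K V.HT) :
    Qi.map (algebraMap ℚ K) * xᵀ * Q.map (algebraMap ℚ K) ∈ Ann K V.HT := by
  intro m n t ht
  have h2 : Qi * Q = 1 := mul_eq_one_comm.mp h1
  have f1 : Qiᵀ * Qᵀ = 1 := by rw [← Matrix.transpose_mul, h1, Matrix.transpose_one]
  have f2 : Qᵀ * Qiᵀ = 1 := by rw [← Matrix.transpose_mul, h2, Matrix.transpose_one]
  have hodge : V.Hodge (flat Q Qi t) := by
    rw [V.hodge_iff, up_flat]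
    refine core1 (map_inv_aux f1) (map_inv_aux f2) ?_
    have h4 : (Qᵀ.map (algebraMap ℚ ℂ) * V.D * Qiᵀ.map (algebraMap ℚ ℂ))ᵀ = V.Db := by
      rw [Matrix.transpose_mul, Matrix.transpose_mul]
      change Qi.map (algebraMap ℚ ℂ) * (V.Dᵀ * Q.map (algebraMap ℚ ℂ)) = _
      rw [hQ.rel1, ← Matrix.mul_assoc, map_inv_aux h2, Matrix.one_mul]
    rw [h4]
    exact V.Db_mem m n t ht
  have h3 : Kill x (up K (flat Q Qi t)) := hx n m _ hodge
  rw [up_flat] at h3
  have h4 := core2 (map_inv_aux f1) (map_inv_aux f2) h3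
  rw [Matrix.transpose_mul, Matrix.transpose_mul] at h4
  change Kill (Qi.map (algebraMap ℚ K) * (xᵀ * Q.map (algebraMap ℚ K))) (up K t) at h4
  rwa [← Matrix.mul_assoc] at h4

end adj

section pos

variable {V : HS r} {Q : Matrix (Fin r) (Fin r) ℚ}

theorem HS.D_mul_P (V : HS r) : V.D * (V.P : Matrix (Fin r) (Fin r) ℂ) =
    (V.P : Matrix (Fin r) (Fin r) ℂ) * diagonal (fun i => (V.p i : ℂ)) := by
  unfold HS.D
  rw [Matrix.mul_assoc, gl_inv_mul, Matrix.mul_one]

theorem HS.Db_mul_P (V : HS r) : V.Db * (V.P : Matrix (Fin r) (Fin r) ℂ) =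
    (V.P : Matrix (Fin r) (Fin r) ℂ) * diagonal (fun i => (V.q i : ℂ)) := by
  rw [V.Db_eq, Matrix.mul_assoc, gl_inv_mul, Matrix.mul_one]

/-- The sesquilinear form in the basis `P`. -/
noncomputable def RR (V : HS r) (Q : Matrix (Fin r) (Fin r) ℚ) : Matrix (Fin r) (Fin r) ℂ :=
  (V.P : Matrix (Fin r) (Fin r) ℂ)ᵀ * Q.map (algebraMap ℚ ℂ) *
    (V.P : Matrix (Fin r) (Fin r) ℂ).map (starRingEnd ℂ)

theorem map_diag_int (d : Fin r → ℤ) :
    (diagonal (fun i => (d i : ℂ))).map (starRingEnd ℂ) = diagonal (fun i => (d i : ℂ)) := by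
  rw [Matrix.diagonal_map (map_zero _)]
  congr 1
  funext i
  simp

theorem RR_p (hQ : V.Pol Q) : diagonal (fun i => (V.p i : ℂ)) * RR V Q =
    RR V Q * diagonal (fun i => (V.p i : ℂ)) := by
  have h1 : diagonal (fun i => (V.p i : ℂ)) * (V.P : Matrix (Fin r) (Fin r) ℂ)ᵀ =
      (V.P : Matrix (Fin r) (Fin r) ℂ)ᵀ * V.Dᵀ := by
    rw [← Matrix.transpose_mul, V.D_mul_P, Matrix.transpose_mul, diagonal_transpose]
  have h2 : V.Db * (V.P : Matrix (Fin r) (Fin r) ℂ).map (starRingEnd ℂ) =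
      (V.P : Matrix (Fin r) (Fin r) ℂ).map (starRingEnd ℂ) *
        diagonal (fun i => (V.p i : ℂ)) := by
    unfold HS.Db
    rw [← Matrix.map_mul, V.D_mul_P, Matrix.map_mul, map_diag_int]
  unfold RR
  rw [← Matrix.mul_assoc, ← Matrix.mul_assoc, h1, Matrix.mul_assoc _ (V.Dᵀ), hQ.rel1,
    ← Matrix.mul_assoc, Matrix.mul_assoc _ V.Db, h2]
  simp only [Matrix.mul_assoc]

theorem RR_q (hQ : V.Pol Q) : diagonal (fun i => (V.q i : ℂ)) * RR V Q =
    RR V Q * diagonal (fun i => (V.q i : ℂ)) := by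
  have h1 : diagonal (fun i => (V.q i : ℂ)) * (V.P : Matrix (Fin r) (Fin r) ℂ)ᵀ =
      (V.P : Matrix (Fin r) (Fin r) ℂ)ᵀ * V.Dbᵀ := by
    rw [← Matrix.transpose_mul, V.Db_mul_P, Matrix.transpose_mul, diagonal_transpose]
  have h2 : V.D * (V.P : Matrix (Fin r) (Fin r) ℂ).map (starRingEnd ℂ) =
      (V.P : Matrix (Fin r) (Fin r) ℂ).map (starRingEnd ℂ) *
        diagonal (fun i => (V.q i : ℂ)) := by
    rw [← Db_conj, ← Matrix.map_mul, V.Db_mul_P, Matrix.map_mul, map_diag_int]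
  unfold RR
  rw [← Matrix.mul_assoc, ← Matrix.mul_assoc, h1, Matrix.mul_assoc _ (V.Dbᵀ), hQ.rel2,
    ← Matrix.mul_assoc, Matrix.mul_assoc _ V.D, h2]
  simp only [Matrix.mul_assoc]

theorem RR_zero (hQ : V.Pol Q) {i j : Fin r} (h : RR V Q i j ≠ 0) :
    V.p i = V.p j ∧ V.q i = V.q j := by
  constructor
  · have := congrFun (congrFun (RR_p hQ) i) j
    rw [diagonal_mul, mul_diagonal, mul_comm] at this
    exact_mod_cast mul_left_cancel₀ h this
  · have := congrFun (congrFun (RR_q hQ) i) j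
    rw [diagonal_mul, mul_diagonal, mul_comm] at this
    exact_mod_cast mul_left_cancel₀ h this

/-- `v ⬝ Q conj v` in coordinates. -/
theorem form_coord (u : Fin r → ℂ) :
    ((V.P : Matrix (Fin r) (Fin r) ℂ) *ᵥ u) ⬝ᵥ (Q.map (algebraMap ℚ ℂ) *ᵥ
      (starRingEnd ℂ ∘ ((V.P : Matrix (Fin r) (Fin r) ℂ) *ᵥ u))) =
    ∑ i, ∑ j, u i * RR V Q i j * (starRingEnd ℂ) (u j) := by
  have h1 : starRingEnd ℂ ∘ ((V.P : Matrix (Fin r) (Fin r) ℂ) *ᵥ u) =
      (V.P : Matrix (Fin r) (Fin r) ℂ).map (starRingEnd ℂ) *ᵥ (starRingEnd ℂ ∘ u) := by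
    funext i
    simp only [Function.comp, Matrix.mulVec, dotProduct, map_sum, map_mul, Matrix.map_apply]
  rw [h1, Matrix.mulVec_mulVec, Matrix.dotProduct_mulVec, ← Matrix.vecMul_transpose,
    Matrix.vecMul_vecMul, ← Matrix.dotProduct_mulVec, ← Matrix.mul_assoc]
  change u ⬝ᵥ (RR V Q *ᵥ (starRingEnd ℂ ∘ u)) = _
  simp only [dotProduct, Matrix.mulVec, Finset.mul_sum, Function.comp]
  refine Finset.sum_congr rfl fun i _ => Finset.sum_congr rfl fun j _ => ?_
  ring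

/-- The positive definite hermitian matrix of the polarization in the basis `P`. -/
noncomputable def MM (V : HS r) (Q : Matrix (Fin r) (Fin r) ℚ) : Matrix (Fin r) (Fin r) ℂ :=
  (diagonal (fun i => Complex.I ^ (V.p i - V.q i)) * RR V Q)ᵀ

theorem MM_form (hQ : V.Pol Q) (u : Fin r → ℂ) :
    ∃ c : ℝ, 0 ≤ c ∧ (u ≠ 0 → 0 < c) ∧ Star.star u ⬝ᵥ (MM V Q *ᵥ u) = (c : ℂ) := by
  classical
  set S : Finset (ℤ × ℤ) := Finset.univ.image fun i => (V.p i, V.q i) with hS
  set ut : ℤ × ℤ → Fin r → ℂ := fun τ i => if (V.p i, V.q i) = τ then u i else 0 with hut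
  -- each type
  have hτ : ∀ τ : ℤ × ℤ, ∃ c : ℝ, 0 ≤ c ∧ (ut τ ≠ 0 → 0 < c) ∧
      ∑ i, ∑ j, ut τ i * (Complex.I ^ (V.p i - V.q i) * RR V Q i j) *
        (starRingEnd ℂ) (ut τ j) = (c : ℂ) := by
    intro τ
    have hsum : ∑ i, ∑ j, ut τ i * (Complex.I ^ (V.p i - V.q i) * RR V Q i j) *
        (starRingEnd ℂ) (ut τ j) = Complex.I ^ (τ.1 - τ.2) *
        ∑ i, ∑ j, ut τ i * RR V Q i j * (starRingEnd ℂ) (ut τ j) := by
      rw [Finset.mul_sum]
      refine Finset.sum_congr rfl fun i _ => ?_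
      rw [Finset.mul_sum]
      refine Finset.sum_congr rfl fun j _ => ?_
      by_cases hi : (V.p i, V.q i) = τ
      · rw [← hi]; ring
      · simp [hut, hi]
    rw [hsum]
    by_cases h0 : ut τ = 0
    · refine ⟨0, le_refl _, fun h => absurd h0 h, ?_⟩
      rw [h0]; simp
    · have hv : (V.P : Matrix (Fin r) (Fin r) ℂ) *ᵥ ut τ ≠ 0 := by
        intro h
        apply h0
        have := congrArg (fun v => ((V.P⁻¹ : GL (Fin r) ℂ) : Matrix (Fin r) (Fin r) ℂ) *ᵥ v) h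
        simp only [Matrix.mulVec_mulVec, gl_inv_mul, Matrix.one_mulVec, Matrix.mulVec_zero]
          at this
        exact this
      have hd : ∀ (d : Fin r → ℤ) (a : ℤ), (∀ i, (V.p i, V.q i) = τ → d i = a) →
          diagonal (fun i => (d i : ℂ)) *ᵥ ut τ = (a : ℂ) • ut τ := by
        intro d a hda
        funext i
        rw [Matrix.mulVec_diagonal, Pi.smul_apply, smul_eq_mul]
        by_cases hi : (V.p i, V.q i) = τ
        · rw [hda i hi]
        · simp [hut, hi]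
      obtain ⟨c, hc, hc2⟩ := hQ.2 τ.1 τ.2 _ hv (by
        rw [Matrix.mulVec_mulVec, V.D_mul_P, ← Matrix.mulVec_mulVec,
          hd V.p τ.1 (fun i hi => by rw [← hi]), Matrix.mulVec_smul]) (by
        change V.Db *ᵥ _ = _
        rw [Matrix.mulVec_mulVec, V.Db_mul_P, ← Matrix.mulVec_mulVec,
          hd V.q τ.2 (fun i hi => by rw [← hi]), Matrix.mulVec_smul])
      rw [form_coord] at hc2
      exact ⟨c, hc.le, fun _ => hc, hc2⟩
  choose c hc0 hcp hcs using hτ
  refine ⟨∑ τ ∈ S, c τ, Finset.sum_nonneg fun τ _ => hc0 τ, fun hu => ?_, ?_⟩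
  · obtain ⟨i, hi⟩ := Function.ne_iff.mp hu
    have hmem : (V.p i, V.q i) ∈ S := Finset.mem_image_of_mem _ (Finset.mem_univ i)
    refine Finset.sum_pos' (fun τ _ => hc0 τ) ⟨(V.p i, V.q i), hmem, hcp _ fun h => hi ?_⟩
    have := congrFun h i
    simpa [hut] using this
  · have h1 : Star.star u ⬝ᵥ (MM V Q *ᵥ u) =
        ∑ i, ∑ j, u i * (Complex.I ^ (V.p i - V.q i) * RR V Q i j) * (starRingEnd ℂ) (u j) := by
      simp only [dotProduct, Matrix.mulVec, MM, Matrix.transpose_apply, Finset.mul_sum]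
      rw [Finset.sum_comm]
      refine Finset.sum_congr rfl fun i _ => Finset.sum_congr rfl fun j _ => ?_
      rw [diagonal_mul, Pi.star_apply]
      change (starRingEnd ℂ) (u j) * _ = _
      ring
    rw [h1]
    have h2 : ((∑ τ ∈ S, c τ : ℝ) : ℂ) = ∑ τ ∈ S, ∑ i, ∑ j,
        ut τ i * (Complex.I ^ (V.p i - V.q i) * RR V Q i j) * (starRingEnd ℂ) (ut τ j) := by
      push_cast
      exact Finset.sum_congr rfl fun τ _ => (hcs τ).symm
    rw [h2]
    symm
    rw [Finset.sum_comm (s := S)]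
    refine Finset.sum_congr rfl fun i _ => ?_
    rw [Finset.sum_comm (s := S)]
    refine Finset.sum_congr rfl fun j _ => ?_
    rw [Finset.sum_eq_single (V.p i, V.q i)]
    · by_cases hR : RR V Q i j = 0
      · rw [hR]; simp
      · obtain ⟨h2, h3⟩ := RR_zero hQ hR
        simp [hut, h2, h3]
    · intro τ _ hne
      simp [hut, Ne.symm hne]
    · intro h
      exact absurd (Finset.mem_image_of_mem _ (Finset.mem_univ i)) h

theorem MM_posDef (hQ : V.Pol Q) : (MM V Q).PosDef := by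
  refine Matrix.PosDef.of_dotProduct_mulVec_pos ?_ ?_
  · rw [← Matrix.isSymmetric_toEuclideanLin_iff, LinearMap.isSymmetric_iff_inner_map_self_real]
    intro v
    obtain ⟨c, _, _, hc⟩ := MM_form hQ v.ofLp
    have h1 : inner ℂ ((MM V Q).toEuclideanLin v) v = (c : ℂ) := by
      rw [← inner_conj_symm]
      have h2 : inner ℂ v ((MM V Q).toEuclideanLin v) = (c : ℂ) := by
        rw [← hc]
        simp only [PiLp.inner_apply, dotProduct, Matrix.toLpLin_apply, RCLike.inner_apply]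
        refine Finset.sum_congr rfl fun i _ => ?_
        rw [mul_comm]
        rfl
      rw [h2]
      simp
    rw [h1]; simp
  · intro u hu
    obtain ⟨c, _, hp, hc⟩ := MM_form hQ u
    rw [hc]
    exact_mod_cast hp hu

end pos

end Pool.Agent.Helper82.AHS
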