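import Pool.Agent.Helper82.AHS.Star

/-! Trace-orthogonal projectors as tensors of type `(2, 2)`. -/

namespace Pool.Agent.Helper82.AHS

open Matrix Finset

variable {r : ℕ}

/-- `π` is the trace-orthogonal projector onto `h`. -/
def IsProj (h : Submodule ℚ (Matrix (Fin r) (Fin r) ℚ)) (π : T r 2 2 ℚ) : Prop :=
  ∀ x, star π x ∈ h ∧ ∀ y ∈ h, trace ((x - star π x) * y) = 0

/-- The trace form. -/
def trB (r : ℕ) : LinearMap.BilinForm ℚ (Matrix (Fin r) (Fin r) ℚ) :=
  LinearMap.mk₂ ℚ (fun x y => trace (x * y)) (fun x y z => by rw [Matrix.add_mul, trace_add])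
    (fun c x y => by rw [Matrix.smul_mul, trace_smul]) (fun x y z => by
      rw [Matrix.mul_add, trace_add]) (fun c x y => by rw [Matrix.mul_smul, trace_smul])

theorem trB_apply (x y : Matrix (Fin r) (Fin r) ℚ) : trB r x y = trace (x * y) := rfl

theorem exists_proj (h : Submodule ℚ (Matrix (Fin r) (Fin r) ℚ))
    (nd : ∀ a ∈ h, (∀ b ∈ h, trace (a * b) = 0) → a = 0) : ∃ π, IsProj h π := by
  have hrefl : (trB r).IsRefl := fun x y hxy => by
    rw [trB_apply] at hxy ⊢
    rw [trace_mul_comm, hxy]
  have hc : IsCompl h ((trB r).orthogonal h) := by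
    rw [LinearMap.BilinForm.isCompl_orthogonal_iff_disjoint hrefl, Submodule.disjoint_def]
    intro a ha ha2
    refine nd a ha fun b hb => ?_
    have := ha2 b hb
    rw [trB_apply, trace_mul_comm] at this
    exact this
  refine ⟨ten (h.projection _ hc), fun x => ?_⟩
  rw [star_ten]
  refine ⟨Submodule.projection_apply_mem hc x, fun y hy => ?_⟩
  have h2 : x - h.projection _ hc x ∈ (trB r).orthogonal h := by
    have h3 := Submodule.projection_add_projection_eq_self hc x
    have h4 : x - h.projection _ hc x = ((trB r).orthogonal h).projection _ hc.symm x := by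
      conv_lhs => rw [← h3]
      rw [map_add]
      rw [Submodule.projection_apply_of_mem_left hc (Submodule.projection_apply_mem hc x)]
      have h5 : h.projection _ hc (((trB r).orthogonal h).projection _ hc.symm x) = 0 := by
        rw [Submodule.projection_apply_eq_zero_iff]
        exact Submodule.projection_apply_mem hc.symm x
      rw [h5]
      abel
    rw [h4]
    exact Submodule.projection_apply_mem hc.symm x
  have := h2 y hy
  rw [trB_apply, trace_mul_comm] at this
  exact this

section K

variable (K : Type*) [Field K] [Algebra ℚ K]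

/-- Extension of scalars of a space of rational matrices. -/
def ext (h : Submodule ℚ (Matrix (Fin r) (Fin r) ℚ)) : Submodule K (Matrix (Fin r) (Fin r) K) :=
  Submodule.span K ((fun u : Matrix (Fin r) (Fin r) ℚ => u.map (algebraMap ℚ K)) '' h)

theorem ext_top (x : Matrix (Fin r) (Fin r) K) : x ∈ ext K (⊤ : Submodule ℚ _) := by
  rw [Matrix.matrix_eq_sum_single x]
  refine Submodule.sum_mem _ fun i _ => Submodule.sum_mem _ fun j _ => ?_
  have : Matrix.single i j (x i j) =
      x i j • ((Matrix.single i j (1 : ℚ)).map (algebraMap ℚ K)) := by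
    rw [map_single_one, Matrix.smul_single, smul_eq_mul, mul_one]
  rw [this]
  exact Submodule.smul_mem _ _ (Submodule.subset_span ⟨_, Submodule.mem_top, rfl⟩)

variable {K} {h : Submodule ℚ (Matrix (Fin r) (Fin r) ℚ)} {π : T r 2 2 ℚ}

theorem IsProj.mem (hπ : IsProj h π) (x : Matrix (Fin r) (Fin r) K) :
    star (up K π) x ∈ ext K h := by
  have : ∀ x ∈ ext K (⊤ : Submodule ℚ (Matrix (Fin r) (Fin r) ℚ)),
      starL (up K π) x ∈ ext K h := by
    intro x hx
    refine Submodule.span_induction (p := fun x _ => starL (up K π) x ∈ ext K h) ?_ ?_ ?_ ?_ hx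
    · rintro _ ⟨u, _, rfl⟩
      rw [starL_apply]
      change star (up K π) (u.map (algebraMap ℚ K)) ∈ _
      rw [star_up]
      exact Submodule.subset_span ⟨_, (hπ u).1, rfl⟩
    · rw [map_zero]; exact Submodule.zero_mem _
    · intro x y _ _ hx hy
      rw [map_add]; exact Submodule.add_mem _ hx hy
    · intro c x _ hx
      rw [map_smul]; exact Submodule.smul_mem _ _ hx
  exact this x (ext_top K x)

theorem trace_map (x : Matrix (Fin r) (Fin r) ℚ) :
    trace (x.map (algebraMap ℚ K)) = algebraMap ℚ K (trace x) := by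
  simp only [trace, Matrix.diag_apply, Matrix.map_apply, map_sum]

theorem IsProj.orth (hπ : IsProj h π) (x : Matrix (Fin r) (Fin r) K)
    {y : Matrix (Fin r) (Fin r) K} (hy : y ∈ ext K h) :
    trace ((x - star (up K π) x) * y) = 0 := by
  have key : ∀ x ∈ ext K (⊤ : Submodule ℚ (Matrix (Fin r) (Fin r) ℚ)), ∀ y ∈ ext K h,
      trace ((x - starL (up K π) x) * y) = 0 := by
    intro x hx y hy
    refine Submodule.span_induction (p := fun y _ => trace ((x - starL (up K π) x) * y) = 0)
      ?_ ?_ ?_ ?_ hy
    · rintro _ ⟨v, hv, rfl⟩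
      refine Submodule.span_induction (p := fun x _ => trace ((x - starL (up K π) x) *
        (v.map (algebraMap ℚ K))) = 0) ?_ ?_ ?_ ?_ hx
      · rintro _ ⟨u, _, rfl⟩
        rw [starL_apply]
        change trace ((u.map (algebraMap ℚ K) - star (up K π) (u.map (algebraMap ℚ K))) *
          v.map (algebraMap ℚ K)) = 0
        have e : (u.map (algebraMap ℚ K) - star (up K π) (u.map (algebraMap ℚ K))) *
          v.map (algebraMap ℚ K) = ((u - star π u) * v).map (algebraMap ℚ K) := by
          rw [star_up, Matrix.map_mul, Matrix.map_sub _ (fun a b => map_sub _ a b)]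
        rw [e, trace_map, (hπ u).2 v hv, map_zero]
      · simp
      · intro x y _ _ hx hy
        rw [map_add, show x + y - (starL (up K π) x + starL (up K π) y) =
          (x - starL (up K π) x) + (y - starL (up K π) y) by abel, Matrix.add_mul, trace_add,
          hx, hy, add_zero]
      · intro c x _ hx
        rw [map_smul, ← smul_sub, Matrix.smul_mul, trace_smul, hx, smul_zero]
    · simp
    · intro a b _ _ ha hb
      rw [Matrix.mul_add, trace_add, ha, hb, add_zero]
    · intro c a _ ha
      rw [Matrix.mul_smul, trace_smul, ha, smul_zero]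
  exact key x (ext_top K x) y hy

theorem IsProj.nd (hπ : IsProj h π) {a : Matrix (Fin r) (Fin r) K} (ha : a ∈ ext K h)
    (h0 : ∀ z ∈ ext K h, trace (a * z) = 0) : a = 0 := by
  rw [Matrix.ext_iff_trace_mul_right]
  intro y
  have h1 := hπ.orth y ha
  rw [Matrix.zero_mul, trace_zero]
  have h2 := h0 _ (hπ.mem y)
  rw [trace_mul_comm] at h1
  rw [Matrix.mul_sub, trace_sub, sub_eq_zero] at h1
  rw [h1, h2]

theorem IsProj.uniq (hπ : IsProj h π) {x u : Matrix (Fin r) (Fin r) K} (hu : u ∈ ext K h)
    (h0 : ∀ z ∈ ext K h, trace ((x - u) * z) = 0) : star (up K π) x = u := by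
  have : star (up K π) x - u = 0 := by
    refine hπ.nd (Submodule.sub_mem _ (hπ.mem x) hu) fun z hz => ?_
    have h1 := hπ.orth x hz
    have h2 := h0 z hz
    rw [show star (up K π) x - u = (x - u) - (x - star (up K π) x) by abel, Matrix.sub_mul,
      trace_sub, h1, h2, sub_zero]
  exact sub_eq_zero.mp this

theorem IsProj.fix (hπ : IsProj h π) {x : Matrix (Fin r) (Fin r) K} (hx : x ∈ ext K h) :
    star (up K π) x = x :=
  hπ.uniq hx fun z _ => by rw [sub_self, Matrix.zero_mul, trace_zero]

theorem ext_rat (x : Matrix (Fin r) (Fin r) ℚ) (hx : x ∈ ext ℚ h) : x ∈ h := by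
  refine Submodule.span_induction (p := fun x _ => x ∈ h) ?_ ?_ ?_ ?_ hx
  · rintro _ ⟨u, hu, rfl⟩
    change u.map (algebraMap ℚ ℚ) ∈ h
    rw [map_rat]; exact hu
  · exact h.zero_mem
  · intro x y _ _ hx hy; exact h.add_mem hx hy
  · intro c x _ hx; exact h.smul_mem c hx

theorem map_mem_ext {x : Matrix (Fin r) (Fin r) ℚ} (hx : x ∈ h) :
    x.map (algebraMap ℚ K) ∈ ext K h := Submodule.subset_span ⟨_, hx, rfl⟩

theorem IsProj.fixQ (hπ : IsProj h π) {x : Matrix (Fin r) (Fin r) ℚ} (hx : x ∈ h) :
    star π x = x := by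
  have := hπ.fix (K := ℚ) (map_mem_ext hx)
  rwa [up_rat, map_rat] at this

/-- The projector of a conjugate space is the conjugate projector. -/
theorem IsProj.conj {h' : Submodule ℚ (Matrix (Fin r) (Fin r) ℚ)} {π' : T r 2 2 ℚ}
    (hπ : IsProj h π) (hπ' : IsProj h' π') {g g' : Matrix (Fin r) (Fin r) K}
    (e1 : g * g' = 1) (e2 : g' * g = 1)
    (h1 : ∀ x, x ∈ ext K h ↔ g * x * g' ∈ ext K h') :
    up K π' = pw 2 g * up K π * pw 2 g' := by
  refine star_inj fun y => ?_
  have hy : y = g * (g' * y * g) * g' := by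
    calc y = (g * g') * y * (g * g') := by rw [e1, Matrix.one_mul, Matrix.mul_one]
      _ = _ := by simp only [Matrix.mul_assoc]
  conv_rhs => rw [hy]
  rw [star_conj _ _ _ _ e1 e2]
  refine hπ'.uniq ((h1 _).mp (hπ.mem _)) fun z hz => ?_
  have hz2 : g' * z * g ∈ ext K h := by
    rw [h1]
    have : g * (g' * z * g) * g' = z := by
      calc g * (g' * z * g) * g' = (g * g') * z * (g * g') := by simp only [Matrix.mul_assoc]
        _ = z := by rw [e1, Matrix.one_mul, Matrix.mul_one]
    rw [this]; exact hz
  have h3 := hπ.orth (g' * y * g) hz2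
  have h4 : (y - g * star (up K π) (g' * y * g) * g') * z =
      g * ((g' * y * g - star (up K π) (g' * y * g)) * (g' * z * g)) * g' := by
    have h5 : y - g * star (up K π) (g' * y * g) * g' =
        g * (g' * y * g - star (up K π) (g' * y * g)) * g' := by
      rw [Matrix.mul_sub, Matrix.sub_mul, ← hy]
    rw [h5]
    calc g * (g' * y * g - star (up K π) (g' * y * g)) * g' * z
        = g * (g' * y * g - star (up K π) (g' * y * g)) * (g' * z * (g * g')) := by
          rw [e1, Matrix.mul_one]; simp only [Matrix.mul_assoc]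
      _ = _ := by simp only [Matrix.mul_assoc]
  rw [h4, trace_mul_comm, ← Matrix.mul_assoc, e2, Matrix.one_mul, h3]

end K

end Pool.Agent.Helper82.AHS
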