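import Pool.Agent.Helper82.AHS.Ann

/-! Tensors of type `(2, 2)` as endomorphisms of the space of matrices. -/

namespace Pool.Agent.Helper82.AHS

open Matrix Finset

section

variable {r : ℕ} {K : Type*} [CommRing K]

theorem star_apply (t : T r 2 2 K) (x : Matrix (Fin r) (Fin r) K) (i j : Fin r) :
    star t x i j = ∑ k, ∑ l, t ![i, k] ![j, l] * x l k := rfl

/-- `star t` as a linear map. -/
def starL (t : T r 2 2 K) : Matrix (Fin r) (Fin r) K →ₗ[K] Matrix (Fin r) (Fin r) K where
  toFun := star t
  map_add' x y := by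
    ext i j
    simp only [star_apply, Matrix.add_apply, mul_add, Finset.sum_add_distrib]
  map_smul' c x := by
    ext i j
    simp only [star_apply, Matrix.smul_apply, smul_eq_mul, RingHom.id_apply, Finset.mul_sum]
    refine Finset.sum_congr rfl fun k _ => Finset.sum_congr rfl fun l _ => ?_
    ring

theorem starL_apply (t : T r 2 2 K) (x : Matrix (Fin r) (Fin r) K) : starL t x = star t x := rfl

theorem star_sub (t : T r 2 2 K) (x y : Matrix (Fin r) (Fin r) K) :
    star t (x - y) = star t x - star t y := (starL t).map_sub x y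

theorem sum_two (f : (Fin 2 → Fin r) → K) : ∑ i, f i = ∑ a, ∑ b, f ![a, b] := by
  rw [← Fintype.sum_prod_type (f := fun p : Fin r × Fin r => f ![p.1, p.2])]
  exact Fintype.sum_equiv (finTwoArrowEquiv (Fin r)) _ _ fun i => by
    congr 1
    funext a
    fin_cases a <;> rfl

theorem pwf_two (y x : Matrix (Fin r) (Fin r) K) (i j : Fin 2 → Fin r) :
    pwf ![y, x] i j = y (i 0) (j 0) * x (i 1) (j 1) := by
  rw [pwf_apply, Fin.prod_univ_two]
  rfl

theorem star_trace (t : T r 2 2 K) (y x : Matrix (Fin r) (Fin r) K) :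
    trace (y * star t x) = trace (t * pwf ![y, x]) := by
  have h1 : trace (t * pwf ![y, x]) =
      ∑ a, ∑ b, ∑ c, ∑ d, t ![a, b] ![c, d] * (y c a * x d b) := by
    unfold trace
    simp only [Matrix.diag_apply]
    rw [sum_two]
    refine Finset.sum_congr rfl fun a _ => Finset.sum_congr rfl fun b _ => ?_
    rw [Matrix.mul_apply, sum_two]
    refine Finset.sum_congr rfl fun c _ => Finset.sum_congr rfl fun d _ => ?_
    rw [pwf_two]
    rfl
  have h2 : trace (y * star t x) =
      ∑ c, ∑ a, y c a * ∑ b, ∑ d, t ![a, b] ![c, d] * x d b := by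
    unfold trace
    simp only [Matrix.diag_apply, Matrix.mul_apply, star_apply]
  rw [h1, h2, Finset.sum_comm]
  refine Finset.sum_congr rfl fun a _ => ?_
  rw [Finset.sum_comm (f := fun b c => ∑ d, t ![a, b] ![c, d] * (y c a * x d b))]
  refine Finset.sum_congr rfl fun c _ => ?_
  rw [Finset.mul_sum]
  refine Finset.sum_congr rfl fun b _ => ?_
  rw [Finset.mul_sum]
  refine Finset.sum_congr rfl fun d _ => ?_
  ring

theorem pwf_two_mul (a b c d : Matrix (Fin r) (Fin r) K) :
    pwf ![a, b] * pwf ![c, d] = pwf ![a * c, b * d] := by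
  rw [pwf_mul]
  congr 1
  funext k
  fin_cases k <;> rfl

theorem pw_two (g : Matrix (Fin r) (Fin r) K) : pw 2 g = pwf ![g, g] := by
  have : (fun _ : Fin 2 => g) = ![g, g] := by
    funext k
    fin_cases k <;> rfl
  unfold pw
  rw [this]

theorem dr_two (x : Matrix (Fin r) (Fin r) K) : dr 2 x = pwf ![x, 1] + pwf ![1, x] := by
  have h0 : Function.update (fun _ : Fin 2 => (1 : Matrix (Fin r) (Fin r) K)) 0 x = ![x, 1] := by
    funext k
    fin_cases k
    · simp
    · rfl
  have h1 : Function.update (fun _ : Fin 2 => (1 : Matrix (Fin r) (Fin r) K)) 1 x = ![1, x] := by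
    funext k
    fin_cases k
    · rfl
    · simp
  unfold dr
  rw [Fin.sum_univ_two, h0, h1]

theorem pwf_two_sub_left (a b c : Matrix (Fin r) (Fin r) K) :
    pwf ![a - b, c] = pwf ![a, c] - pwf ![b, c] := by
  ext i j
  simp only [pwf_two, Matrix.sub_apply, sub_mul]

theorem pwf_two_sub_right (a b c : Matrix (Fin r) (Fin r) K) :
    pwf ![c, a - b] = pwf ![c, a] - pwf ![c, b] := by
  ext i j
  simp only [pwf_two, Matrix.sub_apply, mul_sub]

theorem dr_two_comm (x z y : Matrix (Fin r) (Fin r) K) :
    dr 2 x * pwf ![z, y] - pwf ![z, y] * dr 2 x =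
      pwf ![x * z - z * x, y] + pwf ![z, x * y - y * x] := by
  rw [dr_two, Matrix.add_mul, Matrix.mul_add, pwf_two_mul, pwf_two_mul, pwf_two_mul, pwf_two_mul,
    pwf_two_sub_left, pwf_two_sub_right, Matrix.one_mul, Matrix.one_mul, Matrix.mul_one,
    Matrix.mul_one]
  abel

theorem star_conj (t : T r 2 2 K) (g h x : Matrix (Fin r) (Fin r) K) (hgh : g * h = 1)
    (hhg : h * g = 1) : star (pw 2 g * t * pw 2 h) (g * x * h) = g * star t x * h := by
  rw [Matrix.ext_iff_trace_mul_left]
  intro y
  have hy : pwf ![y, g * x * h] = pw 2 g * pwf ![h * y * g, x] * pw 2 h := by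
    rw [pw_two, pw_two, pwf_two_mul, pwf_two_mul]
    congr 2
    simp only [← Matrix.mul_assoc, hgh, Matrix.one_mul]
    rw [Matrix.mul_assoc, hgh, Matrix.mul_one]
  have e : pw 2 h * pw 2 g = (1 : T r 2 2 K) := by rw [← pw_mul, hhg, pw_one]
  rw [star_trace, hy]
  have e2 : pw 2 g * t * pw 2 h * (pw 2 g * pwf ![h * y * g, x] * pw 2 h) =
      pw 2 g * (t * pwf ![h * y * g, x]) * pw 2 h := by
    calc pw 2 g * t * pw 2 h * (pw 2 g * pwf ![h * y * g, x] * pw 2 h)
        = pw 2 g * t * (pw 2 h * pw 2 g) * pwf ![h * y * g, x] * pw 2 h := by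
          simp only [Matrix.mul_assoc]
      _ = _ := by rw [e, Matrix.mul_one]; simp only [Matrix.mul_assoc]
  rw [e2, Matrix.trace_mul_comm, ← Matrix.mul_assoc, e, Matrix.one_mul, ← star_trace]
  rw [show h * y * g * star t x = h * (y * g * star t x) by simp only [Matrix.mul_assoc],
    Matrix.trace_mul_comm]
  simp only [Matrix.mul_assoc]

theorem kill_star {t : T r 2 2 K} {x : Matrix (Fin r) (Fin r) K} (h : Kill x t)
    (y : Matrix (Fin r) (Fin r) K) :
    star t (x * y - y * x) = x * star t y - star t y * x := by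
  rw [Matrix.ext_iff_trace_mul_left]
  intro z
  have h1 : trace (t * (dr 2 x * pwf ![z, y] - pwf ![z, y] * dr 2 x)) = 0 := by
    rw [Matrix.mul_sub, Matrix.trace_sub, ← Matrix.mul_assoc, ← Matrix.mul_assoc,
      Matrix.trace_mul_comm (t * pwf ![z, y]), ← Matrix.mul_assoc, h, sub_self]
  rw [dr_two_comm, Matrix.mul_add, Matrix.trace_add, ← star_trace, ← star_trace] at h1
  have h2 : trace ((x * z - z * x) * star t y) = -trace (z * (x * star t y - star t y * x)) := by
    rw [Matrix.sub_mul, Matrix.mul_sub, Matrix.trace_sub, Matrix.trace_sub, Matrix.mul_assoc,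
      Matrix.trace_mul_comm x, Matrix.mul_assoc, Matrix.mul_assoc]
    ring
  rw [h2] at h1
  linear_combination h1

theorem star_kill {t : T r 2 2 K} {x : Matrix (Fin r) (Fin r) K}
    (h : ∀ y, star t (x * y - y * x) = x * star t y - star t y * x) : Kill x t := by
  have h1 : ∀ z y, trace ((t * dr 2 x - dr 2 x * t) * pwf ![z, y]) = 0 := by
    intro z y
    have h3 : trace ((t * dr 2 x - dr 2 x * t) * pwf ![z, y]) =
        trace (t * (dr 2 x * pwf ![z, y] - pwf ![z, y] * dr 2 x)) := by
      rw [Matrix.sub_mul, Matrix.mul_sub, Matrix.trace_sub, Matrix.trace_sub,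
        Matrix.mul_assoc, ← Matrix.mul_assoc t (pwf ![z, y]), Matrix.trace_mul_comm
        (t * pwf ![z, y]), ← Matrix.mul_assoc, ← Matrix.mul_assoc (dr 2 x) t]
    rw [h3, dr_two_comm, Matrix.mul_add, Matrix.trace_add, ← star_trace, ← star_trace, h y,
      Matrix.sub_mul, Matrix.mul_sub, Matrix.trace_sub, Matrix.trace_sub, Matrix.mul_assoc,
      Matrix.trace_mul_comm x, Matrix.mul_assoc, Matrix.mul_assoc]
    ring
  have h2 : t * dr 2 x - dr 2 x * t = 0 := by
    ext i j
    have := h1 (Matrix.single (j 0) (i 0) 1) (Matrix.single (j 1) (i 1) 1)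
    have e : pwf ![Matrix.single (j 0) (i 0) (1 : K), Matrix.single (j 1) (i 1) 1] =
        Matrix.single j i 1 := by
      ext a b
      rw [pwf_two, Matrix.single_apply, Matrix.single_apply, Matrix.single_apply]
      by_cases ha : j = a ∧ i = b
      · obtain ⟨rfl, rfl⟩ := ha
        simp
      · rw [if_neg ha]
        by_cases h0 : j 0 = a 0 ∧ i 0 = b 0
        · rw [if_pos h0, one_mul]
          refine if_neg fun h4 => ha ⟨?_, ?_⟩
          · funext k
            fin_cases k
            · exact h0.1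
            · exact h4.1
          · funext k
            fin_cases k
            · exact h0.2
            · exact h4.2
        · rw [if_neg h0, zero_mul]
    rw [e, Matrix.trace_mul_single] at this
    simpa using this
  unfold Kill
  rw [sub_eq_zero] at h2
  exact h2.symm

end

section

variable {r : ℕ}

theorem star_up {K : Type*} [Field K] [Algebra ℚ K] (t : T r 2 2 ℚ)
    (x : Matrix (Fin r) (Fin r) ℚ) :
    star (up K t) (x.map (algebraMap ℚ K)) = (star t x).map (algebraMap ℚ K) := by
  ext i j
  simp only [star_apply, Matrix.map_apply, map_sum, map_mul]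
  rfl

/-- The tensor of a linear map. -/
def ten (p : Matrix (Fin r) (Fin r) ℚ →ₗ[ℚ] Matrix (Fin r) (Fin r) ℚ) : T r 2 2 ℚ :=
  of fun i j => p (Matrix.single (j 1) (i 1) 1) (i 0) (j 0)

theorem star_ten (p : Matrix (Fin r) (Fin r) ℚ →ₗ[ℚ] Matrix (Fin r) (Fin r) ℚ)
    (x : Matrix (Fin r) (Fin r) ℚ) : star (ten p) x = p x := by
  ext i j
  rw [star_apply, sum_expand p x, Matrix.sum_apply, Finset.sum_comm]
  refine Finset.sum_congr rfl fun l _ => ?_
  rw [Matrix.sum_apply]
  refine Finset.sum_congr rfl fun k _ => ?_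
  rw [Matrix.smul_apply, smul_eq_mul, mul_comm]
  rfl

/-- Two tensors of type `(2, 2)` with the same action are equal. -/
theorem star_inj {K : Type*} [CommRing K] {s t : T r 2 2 K} (h : ∀ x, star s x = star t x) :
    s = t := by
  ext i j
  have := congrFun (congrFun (h (Matrix.single (j 1) (i 1) 1)) (i 0)) (j 0)
  rw [star_apply, star_apply, Finset.sum_eq_single (i 1), Finset.sum_eq_single (j 1),
    Finset.sum_eq_single (i 1), Finset.sum_eq_single (j 1)] at this
  · rw [Matrix.single_apply_same, mul_one, mul_one] at this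
    have e1 : ![i 0, i 1] = i := by funext k; fin_cases k <;> rfl
    have e2 : ![j 0, j 1] = j := by funext k; fin_cases k <;> rfl
    rwa [e1, e2] at this
  · intro l _ hl
    rw [Matrix.single_apply, if_neg (fun h => hl h.1.symm), mul_zero]
  · intro h; exact absurd (Finset.mem_univ _) h
  · intro k _ hk
    refine Finset.sum_eq_zero fun l _ => ?_
    rw [Matrix.single_apply, if_neg (fun h => hk h.2.symm), mul_zero]
  · intro h; exact absurd (Finset.mem_univ _) h
  · intro l _ hl
    rw [Matrix.single_apply, if_neg (fun h => hl h.1.symm), mul_zero]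
  · intro h; exact absurd (Finset.mem_univ _) h
  · intro k _ hk
    refine Finset.sum_eq_zero fun l _ => ?_
    rw [Matrix.single_apply, if_neg (fun h => hk h.2.symm), mul_zero]
  · intro h; exact absurd (Finset.mem_univ _) h

end

end Pool.Agent.Helper82.AHS
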