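import Pool.Agent.Helper82.AHS.Trn

/-! Theorem A: one class decides weak absoluteness. -/

namespace Pool.Agent.Helper82.AHS

open Matrix Finset

variable {r : ℕ}

theorem lie_iff {V : HS r} {x : Matrix (Fin r) (Fin r) ℚ} : V.Lie x ↔ x ∈ Ann ℚ V.HT := by
  constructor
  · intro h m n t ht
    rw [up_rat]; exact h m n t ht
  · intro h m n t ht
    have := h m n t ht
    rwa [up_rat] at this

theorem isLieProj_iff {V : HS r} {π : T r 2 2 ℚ} : V.IsLieProj π ↔ IsProj (Ann ℚ V.HT) π := by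
  constructor
  · intro h x
    exact ⟨lie_iff.mp (h x).1, fun y hy => (h x).2 y (lie_iff.mpr hy)⟩
  · intro h x
    exact ⟨lie_iff.mpr (h x).1, fun y hy => (h x).2 y (lie_iff.mp hy)⟩

theorem hodge_set (V : HS r) (m n : ℕ) : {t : T r m n ℚ | V.Hodge t} =
    (Inv ℚ (Ann ℚ V.HT : Set (Matrix (Fin r) (Fin r) ℚ)) m n : Set (T r m n ℚ)) := by
  ext t
  exact V.inv_iff.symm

section

variable {K : Type*} [Field K] [Algebra ℚ K] {L L' : ∀ m n, Set (T r m n ℚ)} {g : GL (Fin r) K}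

theorem ann_carries_mp (h : ∀ m n, Carries g (L m n) (L' m n)) {x : Matrix (Fin r) (Fin r) K}
    (hx : x ∈ Ann K L) : (g : Matrix (Fin r) (Fin r) K) * x *
      ((g⁻¹ : GL (Fin r) K) : Matrix (Fin r) (Fin r) K) ∈ Ann K L' := by
  intro m n t ht
  have h1 : up K t ∈ Submodule.span K ((fun t => act g (up K t)) '' L m n) := by
    rw [h m n]; exact Submodule.subset_span ⟨t, ht, rfl⟩
  rw [← killT_iff]
  refine Submodule.span_induction (p := fun s _ => killT ((g : Matrix (Fin r) (Fin r) K) * x *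
      ((g⁻¹ : GL (Fin r) K) : Matrix (Fin r) (Fin r) K)) s = 0) ?_ ?_ ?_ ?_ h1
  · rintro _ ⟨s, hs, rfl⟩
    exact killT_iff.mpr (kill_act g (hx m n s hs))
  · exact map_zero _
  · intro a b _ _ ha hb; rw [map_add, ha, hb, add_zero]
  · intro c a _ ha; rw [map_smul, ha, smul_zero]

theorem ann_carries_mpr (h : ∀ m n, Carries g (L m n) (L' m n)) {x : Matrix (Fin r) (Fin r) K}
    (hx : (g : Matrix (Fin r) (Fin r) K) * x *
      ((g⁻¹ : GL (Fin r) K) : Matrix (Fin r) (Fin r) K) ∈ Ann K L') : x ∈ Ann K L := by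
  intro m n t ht
  have h1 : act g (up K t) ∈ Submodule.span K (up K '' L' m n) := by
    rw [← h m n]; exact Submodule.subset_span ⟨t, ht, rfl⟩
  have h2 : Kill ((g : Matrix (Fin r) (Fin r) K) * x *
      ((g⁻¹ : GL (Fin r) K) : Matrix (Fin r) (Fin r) K)) (act g (up K t)) := by
    rw [← killT_iff]
    refine Submodule.span_induction (p := fun s _ => killT ((g : Matrix (Fin r) (Fin r) K) * x *
        ((g⁻¹ : GL (Fin r) K) : Matrix (Fin r) (Fin r) K)) s = 0) ?_ ?_ ?_ ?_ h1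
    · rintro _ ⟨s, hs, rfl⟩
      exact killT_iff.mpr (hx m n s hs)
    · exact map_zero _
    · intro a b _ _ ha hb; rw [map_add, ha, hb, add_zero]
    · intro c a _ ha; rw [map_smul, ha, smul_zero]
  have h3 := kill_act g⁻¹ h2
  rw [act_inv'] at h3
  have h5 : ((g⁻¹ : GL (Fin r) K) : Matrix (Fin r) (Fin r) K) *
      ((g : Matrix (Fin r) (Fin r) K) * x *
      ((g⁻¹ : GL (Fin r) K) : Matrix (Fin r) (Fin r) K)) *
      ((g⁻¹⁻¹ : GL (Fin r) K) : Matrix (Fin r) (Fin r) K) = x := by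
    rw [inv_inv]
    have e2 := gl_inv_mul g
    set g' := ((g⁻¹ : GL (Fin r) K) : Matrix (Fin r) (Fin r) K)
    set g0 := (g : Matrix (Fin r) (Fin r) K)
    calc g' * (g0 * x * g') * g0 = (g' * g0) * x * (g' * g0) := by simp only [Matrix.mul_assoc]
      _ = _ := by rw [e2, Matrix.one_mul, Matrix.mul_one]
  rwa [h5] at h3

theorem ext_carries (h : ∀ m n, Carries g (L m n) (L' m n)) (x : Matrix (Fin r) (Fin r) K) :
    x ∈ ext K (Ann ℚ L) ↔ (g : Matrix (Fin r) (Fin r) K) * x *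
      ((g⁻¹ : GL (Fin r) K) : Matrix (Fin r) (Fin r) K) ∈ ext K (Ann ℚ L') := by
  rw [ext_ann, ext_ann]
  exact ⟨ann_carries_mp h, ann_carries_mpr h⟩

/-- Nondegeneracy is transported. -/
theorem nd_carries (h : ∀ m n, Carries g (L m n) (L' m n)) {π : T r 2 2 ℚ}
    (hπ : IsProj (Ann ℚ L) π) :
    ∀ a ∈ Ann ℚ L', (∀ b ∈ Ann ℚ L', trace (a * b) = 0) → a = 0 := by
  intro a ha h0
  have e1 := gl_mul_inv g
  have e2 := gl_inv_mul g
  set g' := ((g⁻¹ : GL (Fin r) K) : Matrix (Fin r) (Fin r) K) with hg'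
  set g0 := (g : Matrix (Fin r) (Fin r) K) with hg0
  set aK := a.map (algebraMap ℚ K) with haK
  have h1 : g0 * (g' * aK * g0) * g' = aK := by
    calc g0 * (g' * aK * g0) * g' = (g0 * g') * aK * (g0 * g') := by
          simp only [Matrix.mul_assoc]
      _ = _ := by rw [e1, Matrix.one_mul, Matrix.mul_one]
  have hb : g' * aK * g0 ∈ ext K (Ann ℚ L) := by
    rw [ext_carries h]
    change g0 * (g' * aK * g0) * g' ∈ _
    rw [h1]; exact map_mem_ext ha
  have h2 : ∀ z ∈ ext K (Ann ℚ L'), trace (aK * z) = 0 := by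
    intro z hz
    refine Submodule.span_induction (p := fun z _ => trace (aK * z) = 0) ?_ ?_ ?_ ?_ hz
    · rintro _ ⟨u, hu, rfl⟩
      change trace (a.map (algebraMap ℚ K) * u.map (algebraMap ℚ K)) = 0
      rw [← Matrix.map_mul, trace_map, h0 u hu, map_zero]
    · simp
    · intro x y _ _ hx hy; rw [Matrix.mul_add, trace_add, hx, hy, add_zero]
    · intro c x _ hx; rw [Matrix.mul_smul, trace_smul, hx, smul_zero]
  have h3 : g' * aK * g0 = 0 := by
    refine hπ.nd hb fun z hz => ?_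
    have h4 := h2 _ ((ext_carries h z).mp hz)
    change trace (aK * (g0 * z * g')) = 0 at h4
    rw [← h4]
    calc trace (g' * aK * g0 * z) = trace (g' * (aK * g0 * z)) := by
          simp only [Matrix.mul_assoc]
      _ = trace (aK * g0 * z * g') := Matrix.trace_mul_comm _ _
      _ = _ := by simp only [Matrix.mul_assoc]
  have h4 : aK = 0 := by rw [← h1, h3, Matrix.mul_zero, Matrix.zero_mul]
  ext i j
  have := congrFun (congrFun h4 i) j
  rw [haK, Matrix.map_apply, Matrix.zero_apply] at this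
  rw [Matrix.zero_apply]
  exact (map_eq_zero _).mp this

end

theorem weak_of (S : System r) {π : T r 2 2 ℚ} (hπ : IsProj (Ann ℚ S.V.HT) π) (σ : ℂ ≃+* ℂ)
    {π' : T r 2 2 ℚ} (h1 : (S.W σ).Hodge π') (h2 : up ℂ π' = act (S.M σ) (up ℂ π))
    (h3 : ∀ ℓ : Nat.Primes, up (@Padic ℓ ⟨ℓ.2⟩) π' = act (S.E σ ℓ) (up (@Padic ℓ ⟨ℓ.2⟩) π)) :
    (∀ m n, ∀ t ∈ Inv ℚ (LinearMap.range (starL π') : Set (Matrix (Fin r) (Fin r) ℚ)) m n,
      (S.W σ).Hodge t) ∧
    ∀ m n, Carries (S.M σ) {t : T r m n ℚ | S.V.Hodge t}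
        (Inv ℚ (LinearMap.range (starL π') : Set (Matrix (Fin r) (Fin r) ℚ)) m n) ∧
      ∀ ℓ : Nat.Primes, Carries (S.E σ ℓ) {t : T r m n ℚ | S.V.Hodge t}
        (Inv ℚ (LinearMap.range (starL π') : Set (Matrix (Fin r) (Fin r) ℚ)) m n) := by
  refine ⟨fun m n t ht => ?_, fun m n => ⟨?_, fun ℓ => ?_⟩⟩
  · have hD : star (up ℂ π) S.V.D = S.V.D := hπ.fix (ext_ann.mpr S.V.D_mem)
    have hfix := fix_D (fun a v => S.fil σ a v) hD h1 h2
    have h4 : (S.W σ).D ∈ ext ℂ (LinearMap.range (starL π')) := by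
      rw [← hfix]; exact range_up _
    exact kill_ext (inv_of_span ℂ _ m n ht) h4
  · rw [hodge_set]; exact carries hπ (S.M σ) h2 m n
  · rw [hodge_set]; exact carries hπ (S.E σ ℓ) (h3 ℓ) m n

/-- **Theorem A.** -/
theorem thmA (S : System r) : ∃ π : T r 2 2 ℚ, S.V.IsLieProj π ∧ S.V.Hodge π ∧
    ∀ σ, S.AbsAt σ π ↔ S.Weak σ := by
  obtain ⟨π, hπ⟩ := exists_mt S.pol
  refine ⟨π, isLieProj_iff.mpr hπ, proj_hodge (L := S.V.HT) (fun _ _ _ ht => ht) hπ,
    fun σ => ⟨fun h => ?_, fun h => ?_⟩⟩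
  · obtain ⟨π', h1, h2, h3⟩ := h
    obtain ⟨h4, h5⟩ := weak_of S hπ σ h1 h2 h3
    exact ⟨fun m n => Inv ℚ (LinearMap.range (starL π') : Set (Matrix (Fin r) (Fin r) ℚ)) m n,
      h4, h5⟩
  · obtain ⟨L, hL, hc⟩ := h
    have hM : ∀ m n, Carries (S.M σ) (S.V.HT m n) (L m n) := fun m n => (hc m n).1
    have hE : ∀ ℓ : Nat.Primes, ∀ m n, Carries (S.E σ ℓ) (S.V.HT m n) (L m n) :=
      fun ℓ m n => (hc m n).2 ℓ
    obtain ⟨π', hπ'⟩ := exists_proj (Ann ℚ L) (nd_carries hM hπ)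
    refine ⟨π', proj_hodge hL hπ', ?_, fun ℓ => ?_⟩
    · exact hπ.conj hπ' (gl_mul_inv _) (gl_inv_mul _) (ext_carries hM)
    · exact hπ.conj hπ' (gl_mul_inv _) (gl_inv_mul _) (ext_carries (hE ℓ))

end Pool.Agent.Helper82.AHS
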