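import Pool.Agent.Helper82.AHS.ThmC

/-! Theorem B: with self-adjoint centre the classes of degree at most two decide everything, up to
algebraic coefficients. -/

namespace Pool.Agent.Helper82.AHS

open Matrix Finset

variable {r : ℕ}

theorem mem_inv_of_carries {K : Type*} [Field K] [Algebra ℚ K] {m n : ℕ} {g : GL (Fin r) K}
    {L : Set (T r m n ℚ)} {h : Set (Matrix (Fin r) (Fin r) ℚ)}
    (hc : Carries g L (Inv ℚ h m n)) {t : T r m n ℚ} (ht : t ∈ L) :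
    act g (up K t) ∈ Inv K h m n := by
  have h6 : act g (up K t) ∈ Submodule.span K (up K '' (Inv ℚ h m n : Set (T r m n ℚ))) := by
    rw [← hc]
    exact Submodule.subset_span ⟨t, ht, rfl⟩
  refine Submodule.span_le.mpr ?_ h6
  rintro _ ⟨s, hs, rfl⟩
  exact inv_of_span K _ m n hs

theorem algComb_of {K : Type} [Field K] [Algebra ℚ K] {L : ∀ m n, Set (T r m n ℚ)} (g : GL (Fin r) K)
    (hg : ∀ m n, ∀ t ∈ L m n, ∃ t' : T r m n ℚ, up K t' = act g (up K t))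
    {m n : ℕ} {t : T r m n ℚ} (ht : ∀ x ∈ Ann ℚ L, Kill x t)
    {h : Set (Matrix (Fin r) (Fin r) ℚ)} (hm : act g (up K t) ∈ Inv K h m n) :
    AlgComb g t (Inv ℚ h m n) := by
  refine span_alg h hm fun i j => alg_of_der _ fun δ => ?_
  have := act_der_zero g hg ht δ
  exact congrFun (congrFun this i) j

/-- **Theorem B.** -/
theorem thmB (S : System r) (hw : ∀ i, S.V.p i + S.V.q i = 0 ∨ S.V.p i + S.V.q i = 1)
    (hc : S.V.CentreSelfAdjoint S.Q)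
    (σ : ℂ ≃+* ℂ) (hAH : S.UpTo σ 2) (m n : ℕ) (t : T r m n ℚ) (ht : S.V.Hodge t) :
    AlgComb (S.M σ) t {t' | (S.W σ).Hodge t'} ∧
      ∀ ℓ : Nat.Primes, AlgComb (S.E σ ℓ) t {t' | (S.W σ).Hodge t'} := by
  obtain ⟨π, hπ⟩ := exists_mt S.pol
  have hπH : S.V.Hodge π := proj_hodge (L := S.V.HT) (fun _ _ _ h => h) hπ
  obtain ⟨π', h1, h2, h3⟩ := hAH 2 2 le_rfl le_rfl π hπH
  obtain ⟨h4, h5⟩ := weak_of S hπ σ h1 h2 h3
  have hk : ∀ x ∈ Ann ℚ (S.V.HTd 2), Kill x t := by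
    intro x hx
    have := lieB S.pol hw hc hx m n t ht
    rwa [up_rat] at this
  have mono : ∀ {K : Type} [Field K] [Algebra ℚ K] (g : GL (Fin r) K),
      AlgComb g t (Inv ℚ (LinearMap.range (starL π') : Set (Matrix (Fin r) (Fin r) ℚ)) m n) →
      AlgComb g t {t' | (S.W σ).Hodge t'} := by
    intro K _ _ g hg
    exact Submodule.span_mono (Set.image_mono fun s hs => h4 m n s hs) hg
  refine ⟨mono _ ?_, fun ℓ => ?_⟩
  · refine algComb_of (L := S.V.HTd 2) (S.M σ) ?_ hk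
      (mem_inv_of_carries (h5 m n).1 ht)
    intro a b s hs
    obtain ⟨s', _, h6, _⟩ := hAH a b hs.1 hs.2.1 s hs.2.2
    exact ⟨s', h6⟩
  · have : Fact (ℓ : ℕ).Prime := ⟨ℓ.2⟩
    refine mono (K := ℚ_[ℓ]) (S.E σ ℓ) ?_
    refine algComb_of (K := ℚ_[ℓ]) (L := S.V.HTd 2) (S.E σ ℓ) ?_ hk
      (mem_inv_of_carries ((h5 m n).2 ℓ) ht)
    intro a b s hs
    obtain ⟨s', _, _, h6⟩ := hAH a b hs.1 hs.2.1 s hs.2.2
    exact ⟨s', h6 ℓ⟩

end Pool.Agent.Helper82.AHS
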